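import Pool.Agent.GRig.Pr

/-!
The cloning inequality (a form of the van den Berg-Kesten inequality for two disjoint occurrences
with roles `R`).

PROOF. If `R` is empty the left event is empty. Fix `r₀ : R`. For a set `J` of variables and
`η : ι × R → Bool` let `ω^J_r i = η (i, r)` if `i ∈ J` and `η (i, r₀)` if `i ∉ J`, and let
`D_J(η)` be: there are `r ≠ s` and `α ≤ ω^J_r`, `β ≤ ω^J_s` with `A r α`, `A s β` and with no
`i ∉ J` such that `α i = β i = true`. For `J = ∅` the probability of `D_J` is the left side
(only the bits `η (i, r₀)` matter: marginal of a product measure), for `J = univ` it is at most (in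
fact equal to) the right side, by monotonicity of the `A r`. So it is enough that
`pr (D_J) ≤ pr (D_{J ∪ {i}})` for `i ∉ J`. Fix all bits `η (j, ·)` with `j ≠ i` and look at the
sum over the `R`-block `η (i, ·)` (e.g. `Equiv.funSplitAt` after currying). Let `E₀` be: there are
`r, s, α, β` as above with `α i = β i = false`. If `E₀` holds (it does not depend on the block) both
events hold. Otherwise, if for some role `t` there are `r, s, α, β` as above with the bit `i` used
only in the role `t` (that is: everything as above at the places `j ≠ i`, exactly one of `α i`,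
`β i` is true, and it is the one with role `t`) then `D_J` implies `η (i, r₀) = true`, which has
conditional probability `p`, and `D_{J ∪ {i}}` is implied by `η (i, t) = true`, which has conditional
probability `p` too. Otherwise `D_J` is false on the block.
-/

namespace Pool.Agent.GRig

open Finset

private def Clone_w {ι R : Type*} [DecidableEq ι] (r₀ : R) (J : Finset ι) (η : ι × R → Bool)
    (r : R) (i : ι) : Bool := if i ∈ J then η (i, r) else η (i, r₀)

private def Clone_D {ι R : Type*} [DecidableEq ι] (A : R → (ι → Bool) → Prop) (r₀ : R)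
    (J : Finset ι) (η : ι × R → Bool) : Prop :=
  ∃ r s, r ≠ s ∧ ∃ α β : ι → Bool, (∀ j, α j = true → Clone_w r₀ J η r j = true) ∧
    (∀ j, β j = true → Clone_w r₀ J η s j = true) ∧
    (∀ j, j ∉ J → ¬ (α j = true ∧ β j = true)) ∧ A r α ∧ A s β

/-- the bit `i` is used in the role `t` only -/
private def Clone_P {ι R : Type*} [DecidableEq ι] (A : R → (ι → Bool) → Prop) (r₀ : R)
    (J : Finset ι) (i : ι) (η : ι × R → Bool) (t : R) : Prop :=
  ∃ r s, r ≠ s ∧ ∃ α β : ι → Bool, (∀ j, j ≠ i → α j = true → Clone_w r₀ J η r j = true) ∧
    (∀ j, j ≠ i → β j = true → Clone_w r₀ J η s j = true) ∧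
    (∀ j, j ≠ i → j ∉ J → ¬ (α j = true ∧ β j = true)) ∧ A r α ∧ A s β ∧
    ((t = r ∧ β i = false) ∨ (t = s ∧ α i = false))

private theorem Clone_pr_le {κ : Type*} [Fintype κ] [DecidableEq κ] {p : ℝ} (h0 : 0 ≤ p)
    (h1 : p ≤ 1) (E F : (κ → Bool) → Prop) (Φ : (κ → Bool) → (κ → Bool))
    (hΦ : Function.Involutive Φ) (hw : ∀ η, wt p (Φ η) = wt p η) (h : ∀ η, E η → F (Φ η)) :
    pr p E ≤ pr p F := by
  have e : pr p F = pr p (fun η => F (Φ η)) := by
    unfold pr
    rw [← Equiv.sum_comp hΦ.toPerm]
    apply Finset.sum_congr rfl
    intro η _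
    rw [Function.Involutive.coe_toPerm, hw]
  rw [e]
  exact pr_mono h0 h1 h

private theorem Clone_wt_swap {κ : Type*} [Fintype κ] [DecidableEq κ] (p : ℝ) (η : κ → Bool)
    (a b : κ) : wt p (fun x => η (Equiv.swap a b x)) = wt p η := by
  unfold wt
  exact Equiv.prod_comp (Equiv.swap a b) (fun x => bw p (η x))

private def Clone_mask {ι R : Type*} [DecidableEq ι] (i : ι) (η : ι × R → Bool) : ι × R → Bool :=
  fun x => if x.1 = i then false else η x

private theorem Clone_step {ι R : Type*} [Fintype ι] [DecidableEq ι] [Fintype R] [DecidableEq R]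
    {p : ℝ} (h0 : 0 ≤ p) (h1 : p ≤ 1) (A : R → (ι → Bool) → Prop) (r₀ : R) (J : Finset ι) (i : ι)
    (hi : i ∉ J) : pr p (Clone_D A r₀ J) ≤ pr p (Clone_D A r₀ (insert i J)) := by
  classical
  obtain ⟨τ, hτ⟩ : ∃ τ : (ι × R → Bool) → R,
      ∀ m, (∃ t, Clone_P A r₀ J i m t) → Clone_P A r₀ J i m (τ m) := by
    refine ⟨fun m => if h : ∃ t, Clone_P A r₀ J i m t then h.choose else r₀, fun m h => ?_⟩
    simp only [dif_pos h]
    exact h.choose_spec
  have hmask : ∀ (η : ι × R → Bool) (t : R),
      Clone_mask i (fun x => η (Equiv.swap (i, r₀) (i, t) x)) = Clone_mask i η := by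
    intro η t
    funext x
    unfold Clone_mask
    by_cases hx : x.1 = i
    · simp only [hx, if_true]
    · simp only [hx, if_false]
      rw [Equiv.swap_apply_of_ne_of_ne]
      · intro h; exact hx (by rw [h])
      · intro h; exact hx (by rw [h])
  have hoff : ∀ (η : ι × R → Bool) (j : ι) (r : R), j ≠ i →
      Clone_w r₀ J (Clone_mask i η) r j = Clone_w r₀ J η r j := by
    intro η j r hj
    unfold Clone_w Clone_mask
    simp only [hj, if_false]
  have hins : ∀ (η : ι × R → Bool) (j : ι) (r : R), j ≠ i →
      Clone_w r₀ (insert i J) η r j = Clone_w r₀ J η r j := by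
    intro η j r hj
    unfold Clone_w
    simp only [Finset.mem_insert, hj, false_or]
  apply Clone_pr_le h0 h1 (Clone_D A r₀ J) (Clone_D A r₀ (insert i J))
    (fun η => fun x => η (Equiv.swap (i, r₀) (i, τ (Clone_mask i η)) x))
  · intro η
    simp only []
    rw [hmask]
    funext x
    rw [Equiv.swap_apply_self]
  · intro η
    exact Clone_wt_swap p η _ _
  · rintro η ⟨r, s, hrs, α, β, hα, hβ, hd, hAα, hAβ⟩
    have hαi : α i = true → η (i, r₀) = true := by
      intro h
      have h2 := hα i h
      unfold Clone_w at h2
      rwa [if_neg hi] at h2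
    have hβi : β i = true → η (i, r₀) = true := by
      intro h
      have h2 := hβ i h
      unfold Clone_w at h2
      rwa [if_neg hi] at h2
    -- transfer of the conditions off `i`
    have hΦ : ∀ (j : ι) (u : R), j ≠ i →
        Clone_w r₀ (insert i J)
          (fun x => η (Equiv.swap (i, r₀) (i, τ (Clone_mask i η)) x)) u j =
        Clone_w r₀ J η u j := by
      intro j u hj
      rw [hins _ j u hj, ← hoff _ j u hj, hmask, hoff _ j u hj]
    by_cases hex : ∃ t, Clone_P A r₀ J i (Clone_mask i η) t
    · by_cases hη : η (i, r₀) = true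
      · -- use the chosen witnesses
        obtain ⟨r', s', hrs', α', β', hα', hβ', hd', hA', hB', ht⟩ := hτ _ hex
        rcases ht with ⟨ht, hb⟩ | ⟨ht, ha⟩
        · refine ⟨r', s', hrs', α', β', ?_, ?_, ?_, hA', hB'⟩
          · intro j hj
            by_cases hji : j = i
            · subst hji
              unfold Clone_w
              rw [if_pos (Finset.mem_insert_self _ _), ← ht]
              simp only [Equiv.swap_apply_right]
              exact hη
            · rw [hΦ j r' hji, ← hoff η j r' hji]
              exact hα' j hji hj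
          · intro j hj
            by_cases hji : j = i
            · subst hji
              rw [hb] at hj
              exact absurd hj (by decide)
            · rw [hΦ j s' hji, ← hoff η j s' hji]
              exact hβ' j hji hj
          · intro j hj
            rw [Finset.mem_insert, not_or] at hj
            exact hd' j hj.1 hj.2
        · refine ⟨r', s', hrs', α', β', ?_, ?_, ?_, hA', hB'⟩
          · intro j hj
            by_cases hji : j = i
            · subst hji
              rw [ha] at hj
              exact absurd hj (by decide)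
            · rw [hΦ j r' hji, ← hoff η j r' hji]
              exact hα' j hji hj
          · intro j hj
            by_cases hji : j = i
            · subst hji
              unfold Clone_w
              rw [if_pos (Finset.mem_insert_self _ _), ← ht]
              simp only [Equiv.swap_apply_right]
              exact hη
            · rw [hΦ j s' hji, ← hoff η j s' hji]
              exact hβ' j hji hj
          · intro j hj
            rw [Finset.mem_insert, not_or] at hj
            exact hd' j hj.1 hj.2
      · refine ⟨r, s, hrs, α, β, ?_, ?_, ?_, hAα, hAβ⟩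
        · intro j hj
          by_cases hji : j = i
          · subst hji
            exact absurd (hαi hj) hη
          · rw [hΦ j r hji]
            exact hα j hj
        · intro j hj
          by_cases hji : j = i
          · subst hji
            exact absurd (hβi hj) hη
          · rw [hΦ j s hji]
            exact hβ j hj
        · intro j hj
          rw [Finset.mem_insert, not_or] at hj
          exact hd j hj.2
    · exfalso
      apply hex
      by_cases hai : α i = true
      · have hbi : β i = false := by
          by_contra h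
          exact hd i hi ⟨hai, by simpa using h⟩
        refine ⟨r, r, s, hrs, α, β, ?_, ?_, ?_, hAα, hAβ, Or.inl ⟨rfl, hbi⟩⟩
        · intro j hji hj
          rw [hoff η j r hji]
          exact hα j hj
        · intro j hji hj
          rw [hoff η j s hji]
          exact hβ j hj
        · intro j _ hj
          exact hd j hj
      · refine ⟨s, r, s, hrs, α, β, ?_, ?_, ?_, hAα, hAβ,
          Or.inr ⟨rfl, by simpa using hai⟩⟩
        · intro j hji hj
          rw [hoff η j r hji]
          exact hα j hj
        · intro j hji hj
          rw [hoff η j s hji]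
          exact hβ j hj
        · intro j _ hj
          exact hd j hj

theorem clone_le {ι R : Type*} [Fintype ι] [DecidableEq ι] [Fintype R] [DecidableEq R]
    {p : ℝ} (h0 : 0 ≤ p) (h1 : p ≤ 1) (A : R → (ι → Bool) → Prop)
    (hA : ∀ r (ω ω' : ι → Bool), (∀ i, ω i = true → ω' i = true) → A r ω → A r ω') :
    pr p (fun ω : ι → Bool => ∃ r s, r ≠ s ∧ ∃ α β : ι → Bool, (∀ i, α i = true → ω i = true) ∧
        (∀ i, β i = true → ω i = true) ∧ (∀ i, ¬ (α i = true ∧ β i = true)) ∧ A r α ∧ A s β)
      ≤ pr p (fun η : ι × R → Bool => ∃ r s, r ≠ s ∧ A r (fun i => η (i, r)) ∧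
        A s (fun i => η (i, s))) := by
  classical
  rcases isEmpty_or_nonempty R with hR | ⟨⟨r₀⟩⟩
  · have h2 := pr_mono (p := p) h0 h1 (A := fun ω : ι → Bool => ∃ r s, r ≠ s ∧
        ∃ α β : ι → Bool, (∀ i, α i = true → ω i = true) ∧
        (∀ i, β i = true → ω i = true) ∧ (∀ i, ¬ (α i = true ∧ β i = true)) ∧ A r α ∧ A s β)
      (B := fun _ => False) (by
        rintro ω ⟨r, _⟩
        exact hR.elim r)
    rw [pr_false] at h2
    exact h2.trans (pr_nonneg h0 h1 _)
  · have step : ∀ J : Finset ι, pr p (Clone_D A r₀ ∅) ≤ pr p (Clone_D A r₀ J) := by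
      intro J
      induction J using Finset.induction_on with
      | empty => exact le_rfl
      | insert i J hi ih => exact ih.trans (Clone_step h0 h1 A r₀ J i hi)
    have hend : pr p (Clone_D A r₀ Finset.univ) ≤
        pr p (fun η : ι × R → Bool => ∃ r s, r ≠ s ∧ A r (fun i => η (i, r)) ∧
          A s (fun i => η (i, s))) := by
      apply pr_mono h0 h1
      rintro η ⟨r, s, hrs, α, β, hα, hβ, -, hAα, hAβ⟩
      refine ⟨r, s, hrs, hA r α _ ?_ hAα, hA s β _ ?_ hAβ⟩
      · intro j hj
        have h2 := hα j hj
        unfold Clone_w at h2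
        rwa [if_pos (Finset.mem_univ _)] at h2
      · intro j hj
        have h2 := hβ j hj
        unfold Clone_w at h2
        rwa [if_pos (Finset.mem_univ _)] at h2
    refine le_trans ?_ ((step Finset.univ).trans hend)
    have hb := pr_blocks (ι := ι) (R := R) p (fun r ω => r = r₀ →
        (∃ r s, r ≠ s ∧ ∃ α β : ι → Bool, (∀ i, α i = true → ω i = true) ∧
        (∀ i, β i = true → ω i = true) ∧ (∀ i, ¬ (α i = true ∧ β i = true)) ∧ A r α ∧ A s β))
    rw [Finset.prod_eq_single r₀] at hb
    · simp only [forall_const] at hb
      rw [← hb]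
      apply pr_mono h0 h1
      intro η hη
      obtain ⟨r, s, hrs, α, β, hα, hβ, hd, hAα, hAβ⟩ := hη r₀ rfl
      refine ⟨r, s, hrs, α, β, ?_, ?_, fun j _ => hd j, hAα, hAβ⟩
      · intro j hj
        unfold Clone_w
        rw [if_neg (Finset.notMem_empty _)]
        exact hα j hj
      · intro j hj
        unfold Clone_w
        rw [if_neg (Finset.notMem_empty _)]
        exact hβ j hj
    · intro r _ hr
      have e : (fun ω : ι → Bool => r = r₀ →
          (∃ r s, r ≠ s ∧ ∃ α β : ι → Bool, (∀ i, α i = true → ω i = true) ∧
          (∀ i, β i = true → ω i = true) ∧ (∀ i, ¬ (α i = true ∧ β i = true)) ∧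
          A r α ∧ A s β)) = fun _ => True := by
        funext ω
        exact propext ⟨fun _ => trivial, fun _ h => absurd h hr⟩
      rw [e]
      exact pr_true p
    · intro h
      exact absurd (Finset.mem_univ _) h

end Pool.Agent.GRig
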