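import Pool.Agent.GRig.Pr

/-!
PROOF. Group the configurations `ω : Sym2 (Fin n) → Bool` by their graph `gr ω`: for a graph `G` the
configurations with `gr ω = G` are fixed on the non-diagonal pairs (`n.choose 2` of them) and
arbitrary on the `n` diagonal ones, whose weights sum to `1` (`p + (1 - p) = 1`).
`Nat.card G.edgeSet` pairs are `true`, `n.choose 2 - Nat.card G.edgeSet` non-diagonal ones `false`.
-/

namespace Pool.Agent.GRig

open Finset

open Classical in
private theorem Conv_fiber (n : ℕ) (p : ℝ) (G : SimpleGraph (Fin n)) :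
    ∑ ω ∈ (Finset.univ : Finset (Sym2 (Fin n) → Bool)).filter (fun ω => gr ω = G), wt p ω =
      p ^ (Nat.card G.edgeSet) * (1 - p) ^ (n.choose 2 - Nat.card G.edgeSet) := by
  have h1 : (Finset.univ : Finset (Sym2 (Fin n) → Bool)).filter (fun ω => gr ω = G) =
      Fintype.piFinset (fun e : Sym2 (Fin n) =>
        if e.IsDiag then Finset.univ else {decide (e ∈ G.edgeSet)}) := by
    ext ω
    simp only [Finset.mem_filter, Finset.mem_univ, true_and, Fintype.mem_piFinset]
    constructor
    · intro h e
      by_cases hd : e.IsDiag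
      · rw [if_pos hd]
        exact Finset.mem_univ _
      · rw [if_neg hd, Finset.mem_singleton]
        subst h
        induction e using Sym2.ind with
        | _ x y =>
          rw [Sym2.mk_isDiag_iff] at hd
          have hiff : s(x, y) ∈ (gr ω).edgeSet ↔ ω s(x, y) = true := by
            rw [SimpleGraph.mem_edgeSet]
            exact ⟨fun h => h.2, fun h => ⟨hd, h⟩⟩
          rw [Bool.eq_iff_iff, decide_eq_true_iff, hiff]
    · intro h
      ext x y
      change (x ≠ y ∧ ω s(x, y) = true) ↔ G.Adj x y
      by_cases hxy : x = y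
      · subst hxy
        simp
      · have h2 := h s(x, y)
        rw [if_neg (by rwa [Sym2.mk_isDiag_iff]), Finset.mem_singleton] at h2
        rw [h2, decide_eq_true_iff, SimpleGraph.mem_edgeSet]
        exact ⟨fun h => h.2, fun h => ⟨hxy, h⟩⟩
  rw [h1]
  have h2 : ∑ ω ∈ Fintype.piFinset (fun e : Sym2 (Fin n) =>
        if e.IsDiag then (Finset.univ : Finset Bool) else {decide (e ∈ G.edgeSet)}), wt p ω =
      ∏ e : Sym2 (Fin n), ∑ b ∈ (if e.IsDiag then (Finset.univ : Finset Bool) else
        {decide (e ∈ G.edgeSet)}), bw p b := by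
    rw [Finset.prod_univ_sum]
    rfl
  rw [h2]
  have h3 : ∀ e : Sym2 (Fin n), ∑ b ∈ (if e.IsDiag then (Finset.univ : Finset Bool) else
      {decide (e ∈ G.edgeSet)}), bw p b =
      if e ∈ (Finset.univ : Finset (Sym2 (Fin n))).filter (fun e => ¬ e.IsDiag) then
        (if e ∈ G.edgeSet then p else 1 - p) else 1 := by
    intro e
    by_cases hd : e.IsDiag
    · rw [if_pos hd, if_neg (by simp [hd])]
      simp [bw]
    · rw [if_neg hd, if_pos (by simp [hd]), Finset.sum_singleton]
      by_cases he : e ∈ G.edgeSet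
      · simp [bw, he]
      · simp [bw, he]
  rw [Finset.prod_congr rfl fun e _ => h3 e, Finset.prod_ite_mem, Finset.univ_inter,
    Finset.prod_ite, Finset.prod_const, Finset.prod_const]
  have h4 : (((Finset.univ : Finset (Sym2 (Fin n))).filter (fun e => ¬ e.IsDiag)).filter
      (fun e => e ∈ G.edgeSet)).card = Nat.card G.edgeSet := by
    rw [Nat.card_eq_fintype_card, ← Set.toFinset_card]
    congr 1
    ext e
    simp only [Finset.mem_filter, Finset.mem_univ, true_and, Set.mem_toFinset]
    exact ⟨fun h => h.2, fun h => ⟨G.not_isDiag_of_mem_edgeSet h, h⟩⟩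
  have h5 : ((Finset.univ : Finset (Sym2 (Fin n))).filter (fun e => ¬ e.IsDiag)).card =
      n.choose 2 := by
    have := Sym2.card_subtype_not_diag (α := Fin n)
    rw [Fintype.card_fin, Fintype.card_subtype] at this
    exact this
  have h6 := Finset.card_filter_add_card_filter_not
    (s := (Finset.univ : Finset (Sym2 (Fin n))).filter (fun e => ¬ e.IsDiag))
    (fun e => e ∈ G.edgeSet)
  rw [h4, h5] at h6
  rw [h4]
  congr 2
  omega

theorem prob_eq (n : ℕ) (p : ℝ) (A : SimpleGraph (Fin n) → Prop) :
    prob n p A = pr p (fun ω : Sym2 (Fin n) → Bool => A (gr ω)) := by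
  classical
  unfold prob pr
  rw [← Finset.sum_fiberwise (Finset.univ : Finset (Sym2 (Fin n) → Bool))
    (fun ω => gr ω) _]
  refine Finset.sum_congr rfl fun G _ => ?_
  have h1 : ∑ ω ∈ (Finset.univ : Finset (Sym2 (Fin n) → Bool)).filter (fun ω => gr ω = G),
      (if A (gr ω) then wt p ω else 0) =
      if A G then ∑ ω ∈ (Finset.univ : Finset (Sym2 (Fin n) → Bool)).filter
        (fun ω => gr ω = G), wt p ω else 0 := by
    by_cases hA : A G
    · rw [if_pos hA]
      refine Finset.sum_congr rfl fun ω hω => ?_
      rw [Finset.mem_filter] at hω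
      rw [hω.2, if_pos hA]
    · rw [if_neg hA]
      refine Finset.sum_eq_zero fun ω hω => ?_
      rw [Finset.mem_filter] at hω
      rw [hω.2, if_neg hA]
  have h2 := Conv_fiber n p G
  by_cases hA : A G
  · rw [if_pos hA] at h1 ⊢
    rw [← h2]
    convert h1.symm using 2
  · rw [if_neg hA] at h1 ⊢
    convert h1.symm using 2

end Pool.Agent.GRig
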