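import Pool.Agent.GRig.Defs

/-!
The cut set of a vertex with unique short paths and no binary tree.

Lists are reversed paths from `v` (see `RP`). For a list `l` (visited vertices, reversed) and a
current vertex `x` define by recursion on `m` (remaining depth)
* `Strong 0 l x = True`, `Strong (m+1) l x = ∃ u₁ ≠ u₂, G.Adj x u₁, G.Adj x u₂, u₁, u₂ ∉ x :: l,
  Strong m (x :: l) u₁, Strong m (x :: l) u₂`.
* `S = {x | ∃ l, RP G v (x :: l), l.length < L, and all entries of the path are weak}` where `y`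
  with tail `l'` (i.e. `y :: l'` is a suffix of `x :: l`) is weak if `¬ Strong (L - l'.length) l' y`.
FACTS. (1) `D m l x` = set of ends `y` of lists `y :: l'` with `RP`, suffix `x :: l` and
`l'.length ≤ l.length + m`. If `RP G v (x :: l)`, `l.length + m ≤ L` and `Strong m l x` then
`HT G m x (D m l x)` (induction on `m`): for `u₁ ≠ u₂` the sets `D m (x::l) u₁`, `D m (x::l) u₂`
are disjoint and do not contain `x` by the uniqueness of paths (`UP`). Hence (monotonicity of `HT`
in `U`) `¬ HT G L v univ` gives `¬ Strong L [] v`; as `Strong 0 = True` this also gives `0 < L`,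
and `v ∈ S` (with `l = []`).
(2) Let `x ∈ S` with list `l`, `G.Adj x u`. If `u ∈ l` then `u ∈ S` (all entries of the path of `x`
are in `S`: a suffix of the path is a path with weak entries). If `u ∉ S` then `u ∉ x :: l` is strong:
`Strong (L - l.length - 1) (x :: l) u` (otherwise the list `u :: x :: l` shows `u ∈ S`; note that
`L - l.length - 1 = 0` makes `u` strong). Two different such `u` would make `x` strong. This is the
third conclusion.
(3) Let `y ∉ S` with `G.Adj y x`, `G.Adj y z`, `x, z ∈ S` with lists `l`, `k`. `y ∉ x :: l`, since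
all entries of the path of `x` are in `S`; same for `z`. So `y :: x :: l` and `y :: z :: k` are both
`RP`, of lengths at most `L` (tails), so by `UP` `x :: l = z :: k` and `x = z`.
-/

namespace Pool.Agent.GRig

theorem cut_HT_root {V : Type*} [DecidableEq V] {G : SimpleGraph V} {L : ℕ} {v : V}
    {U : Finset V} (h : HT G L v U) : v ∈ U := by
  cases L with
  | zero => exact h
  | succ L => exact h.1

theorem HT_mono {V : Type*} [DecidableEq V] {G H : SimpleGraph V} {L : ℕ} {v : V} {U W : Finset V}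
    (hG : ∀ x y, x ∈ U → y ∈ U → G.Adj x y → H.Adj x y) (hU : U ⊆ W) (h : HT G L v U) :
    HT H L v W := by
  induction L generalizing v U W with
  | zero => exact hU h
  | succ L ih =>
    obtain ⟨hv, u₁, u₂, U₁, U₂, hne, h1, h2, hd, ha1, ha2, ht1, ht2⟩ := h
    have s1 : U₁ ⊆ U := h1.trans (Finset.erase_subset _ _)
    have s2 : U₂ ⊆ U := h2.trans (Finset.erase_subset _ _)
    refine ⟨hU hv, u₁, u₂, U₁, U₂, hne, h1.trans (Finset.erase_subset_erase v hU),
      h2.trans (Finset.erase_subset_erase v hU), hd, hG _ _ hv (s1 (cut_HT_root ht1)) ha1,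
      hG _ _ hv (s2 (cut_HT_root ht2)) ha2, ?_, ?_⟩
    · exact ih (fun x y hx hy => hG x y (s1 hx) (s1 hy)) (Finset.Subset.refl _) ht1
    · exact ih (fun x y hx hy => hG x y (s2 hx) (s2 hy)) (Finset.Subset.refl _) ht2

/-- `x` is the root of a binary tree of paths of depth `m` that continue the path `x :: l` -/
def cutStrong {V : Type*} (G : SimpleGraph V) : ℕ → List V → V → Prop
  | 0, _, _ => True
  | (m + 1), l, x => ∃ u₁ u₂ : V, u₁ ≠ u₂ ∧ G.Adj x u₁ ∧ G.Adj x u₂ ∧ u₁ ∉ x :: l ∧
      u₂ ∉ x :: l ∧ cutStrong G m (x :: l) u₁ ∧ cutStrong G m (x :: l) u₂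

/-- all entries of the path are weak -/
def cutWeak {V : Type*} (G : SimpleGraph V) (L : ℕ) : List V → Prop
  | [] => True
  | (x :: l) => ¬ cutStrong G (L - l.length) l x ∧ cutWeak G L l

/-- the cut set -/
def cutS {V : Type*} (G : SimpleGraph V) (v : V) (L : ℕ) : Set V :=
  {x | ∃ l : List V, RP G v (x :: l) ∧ l.length < L ∧ cutWeak G L (x :: l)}

theorem cut_RP_tail {V : Type*} {G : SimpleGraph V} {v u x : V} {l : List V}
    (h : RP G v (u :: x :: l)) : RP G v (x :: l) := by
  cases h with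
  | step h1 _ _ => exact h1

theorem cut_mem {V : Type*} {G : SimpleGraph V} {v : V} {L : ℕ} (l : List V) :
    ∀ x, RP G v (x :: l) → l.length < L → cutWeak G L (x :: l) →
      ∀ y ∈ x :: l, y ∈ cutS G v L := by
  induction l with
  | nil =>
    intro x h1 h2 h3 y hy
    rw [List.mem_singleton] at hy
    subst hy
    exact ⟨[], h1, h2, h3⟩
  | cons z l ih =>
    intro x h1 h2 h3 y hy
    rcases List.mem_cons.1 hy with rfl | hy
    · exact ⟨z :: l, h1, h2, h3⟩
    · refine ih z (cut_RP_tail h1) ?_ h3.2 y hy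
      rw [List.length_cons] at h2
      omega

theorem cut_HT {V : Type*} [Fintype V] [DecidableEq V] {G : SimpleGraph V} {v : V} {L : ℕ}
    (hU : UP G v L) (m : ℕ) : ∀ (l : List V) (x : V), RP G v (x :: l) → l.length + m ≤ L →
      cutStrong G m l x → ∃ D : Finset V, HT G m x D ∧ ∀ y, y ∈ D ↔
        ∃ l' : List V, RP G v (y :: l') ∧ (x :: l) <:+ (y :: l') ∧ l'.length ≤ l.length + m := by
  classical
  induction m with
  | zero =>
    intro l x h1 h2 _
    refine ⟨Finset.univ.filter fun y => ∃ l' : List V, RP G v (y :: l') ∧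
      (x :: l) <:+ (y :: l') ∧ l'.length ≤ l.length + 0, ?_, ?_⟩
    · show x ∈ _
      rw [Finset.mem_filter]
      exact ⟨Finset.mem_univ x, l, h1, List.suffix_refl _, le_refl _⟩
    · intro y
      rw [Finset.mem_filter]
      simp
  | succ m ih =>
    intro l x h1 h2 h3
    obtain ⟨u₁, u₂, hne, ha1, ha2, hn1, hn2, hs1, hs2⟩ := h3
    have hr1 : RP G v (u₁ :: x :: l) := RP.step h1 ha1 hn1
    have hr2 : RP G v (u₂ :: x :: l) := RP.step h1 ha2 hn2
    have hlen : (x :: l).length = l.length + 1 := rfl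
    obtain ⟨D₁, ht1, hD1⟩ := ih (x :: l) u₁ hr1 (by omega) hs1
    obtain ⟨D₂, ht2, hD2⟩ := ih (x :: l) u₂ hr2 (by omega) hs2
    obtain ⟨D, hD⟩ : ∃ D : Finset V, ∀ y, y ∈ D ↔ ∃ l' : List V, RP G v (y :: l') ∧
        (x :: l) <:+ (y :: l') ∧ l'.length ≤ l.length + (m + 1) :=
      ⟨Finset.univ.filter fun y => ∃ l' : List V, RP G v (y :: l') ∧
        (x :: l) <:+ (y :: l') ∧ l'.length ≤ l.length + (m + 1), fun y => by
          rw [Finset.mem_filter]
          simp⟩
    have hsub : ∀ (u : V) (E : Finset V), (∀ y, y ∈ E ↔ ∃ l' : List V, RP G v (y :: l') ∧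
        (u :: x :: l) <:+ (y :: l') ∧ l'.length ≤ (x :: l).length + m) → E ⊆ D.erase x := by
      intro u E hE y hy
      obtain ⟨l', h4, h5, h6⟩ := (hE y).1 hy
      rw [Finset.mem_erase]
      constructor
      · rintro rfl
        have h7 : l' = l := hU y l' l h4 h1 (by omega) (by omega)
        have h8 := h5.length_le
        rw [h7] at h8
        simp at h8
      · refine (hD y).2 ⟨l', h4, (List.suffix_cons u (x :: l)).trans h5, by omega⟩
    refine ⟨D, ⟨(hD x).2 ⟨l, h1, List.suffix_refl _, by omega⟩, u₁, u₂, D₁, D₂, hne,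
      hsub u₁ D₁ hD1, hsub u₂ D₂ hD2, ?_, ha1, ha2, ht1, ht2⟩, hD⟩
    rw [Finset.disjoint_left]
    intro y hy1 hy2
    obtain ⟨l', h4, h5, h6⟩ := (hD1 y).1 hy1
    obtain ⟨l'', h4', h5', h6'⟩ := (hD2 y).1 hy2
    have h7 : l' = l'' := hU y l' l'' h4 h4' (by omega) (by omega)
    subst h7
    have h8 : (u₁ :: x :: l) <:+ (u₂ :: x :: l) :=
      List.suffix_of_suffix_length_le h5 h5' (by simp)
    have h9 := h8.eq_of_length (by simp)
    exact hne (List.cons.inj h9).1

theorem exists_cut {V : Type*} [Fintype V] [DecidableEq V] (G : SimpleGraph V) (v : V) (L : ℕ)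
    (hU : UP G v L) (hT : ¬ HT G L v Finset.univ) :
    ∃ S : Set V, v ∈ S ∧ (∀ x ∈ S, ∃ l : List V, RP G v (x :: l) ∧ l.length < L) ∧
      (∀ x ∈ S, ∀ y z, y ∉ S → z ∉ S → G.Adj x y → G.Adj x z → y = z) ∧
      (∀ y, y ∉ S → ∀ x z, x ∈ S → z ∈ S → G.Adj y x → G.Adj y z → x = z) := by
  have hweak : ¬ cutStrong G L [] v := by
    intro h
    obtain ⟨D, hD, -⟩ := cut_HT hU L [] v RP.base (by simp) h
    exact hT (HT_mono (fun x y _ _ h => h) (Finset.subset_univ _) hD)
  have hL : 0 < L := by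
    rcases Nat.eq_zero_or_pos L with h | h
    · exfalso
      subst h
      exact hweak trivial
    · exact h
  refine ⟨cutS G v L, ⟨[], RP.base, hL, hweak, trivial⟩, ?_, ?_, ?_⟩
  · rintro x ⟨l, h1, h2, -⟩
    exact ⟨l, h1, h2⟩
  · rintro x ⟨l, h1, h2, h3⟩ y z hy hz hxy hxz
    by_contra hne
    have key : ∀ u, u ∉ cutS G v L → G.Adj x u → u ∉ x :: l ∧
        cutStrong G (L - (l.length + 1)) (x :: l) u := by
      intro u hu hxu
      have h4 : u ∉ x :: l := fun h => hu (cut_mem l x h1 h2 h3 u h)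
      refine ⟨h4, ?_⟩
      by_contra h5
      rcases Nat.lt_or_ge (l.length + 1) L with h6 | h6
      · exact hu ⟨x :: l, RP.step h1 hxu h4, h6, h5, h3⟩
      · have h7 : L - (l.length + 1) = 0 := by omega
        rw [h7] at h5
        exact h5 trivial
    obtain ⟨h4, h5⟩ := key y hy hxy
    obtain ⟨h6, h7⟩ := key z hz hxz
    apply h3.1
    have h8 : L - l.length = (L - (l.length + 1)) + 1 := by omega
    rw [h8]
    exact ⟨y, z, hne, hxy, hxz, h4, h6, h5, h7⟩
  · rintro y hy x z ⟨l, h1, h2, h3⟩ ⟨k, h1', h2', h3'⟩ hyx hyz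
    have h4 : y ∉ x :: l := fun h => hy (cut_mem l x h1 h2 h3 y h)
    have h5 : y ∉ z :: k := fun h => hy (cut_mem k z h1' h2' h3' y h)
    have h6 := RP.step h1 hyx.symm h4
    have h7 := RP.step h1' hyz.symm h5
    have h8 := hU y _ _ h6 h7 (by simpa using h2) (by simpa using h2')
    exact (List.cons.inj h8).1

end Pool.Agent.GRig
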