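import Mathlib

/-!
Definitions for MP_1f4999_co (globally rigid induced subgraphs of G(n, C/n) on the line).
-/

namespace Pool.Agent.GRig

open Finset

/-- Injectively globally rigid on the line: two injective maps with the same distances along the
edges have the same distances on all pairs. -/
def GloballyRigid {V : Type*} (G : SimpleGraph V) : Prop :=
  ∀ f g : V → ℝ, Function.Injective f → Function.Injective g →
    (∀ x y, G.Adj x y → |f x - f y| = |g x - g y|) →
      ∀ x y, |f x - f y| = |g x - g y|

open Classical in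
/-- The probability of the event `A` for the random graph G(n,p). -/
noncomputable def prob (n : ℕ) (p : ℝ) (A : SimpleGraph (Fin n) → Prop) : ℝ :=
  ∑ G : SimpleGraph (Fin n),
    if A G then p ^ (Nat.card G.edgeSet) * (1 - p) ^ (n.choose 2 - Nat.card G.edgeSet) else 0

/-- `G` has a set of at least `δ n` vertices that induces a globally rigid graph. -/
def HasRigid (n : ℕ) (δ : ℝ) (G : SimpleGraph (Fin n)) : Prop :=
  ∃ V' : Set (Fin n), δ * n ≤ (V'.ncard : ℝ) ∧ GloballyRigid (G.induce V')

/-- `C` is good: for some `δ > 0`, w.h.p. G(n,C/n) has a linear size globally rigid induced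
subgraph. -/
def Good (C : ℝ) : Prop :=
  ∃ δ : ℝ, 0 < δ ∧ Filter.Tendsto (fun n : ℕ => prob n (C / n) (HasRigid n δ)) Filter.atTop (nhds 1)

/-- The threshold `C*`. -/
noncomputable def Cstar : ENNReal :=
  sInf {c : ENNReal | ∃ C : ℝ, 0 < C ∧ Good C ∧ c = ENNReal.ofReal C}

/-- `P(Poi(x) ≥ 2)`. -/
noncomputable def P2 (x : ℝ) : ℝ := 1 - Real.exp (-x) * (1 + x)

/-- `c₃ = inf_{x>0} x / P(Poi(x) ≥ 2)`, the threshold for the 3-core. -/
noncomputable def c3 : ℝ := sInf {c : ℝ | ∃ x : ℝ, 0 < x ∧ c = x / P2 x}

/-! ### internal probability space: independent bits on all unordered pairs (the diagonal is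
ignored) -/

variable {ι : Type*} [Fintype ι] [DecidableEq ι]

/-- weight of one bit -/
noncomputable def bw (p : ℝ) (b : Bool) : ℝ := if b then p else 1 - p

/-- weight of a configuration -/
noncomputable def wt (p : ℝ) (ω : ι → Bool) : ℝ := ∏ i, bw p (ω i)

open Classical in
/-- probability of an event under independent bits -/
noncomputable def pr (p : ℝ) (A : (ι → Bool) → Prop) : ℝ :=
  ∑ ω : ι → Bool, if A ω then wt p ω else 0

variable {V : Type*}

/-- the graph of a configuration -/
def gr (ω : Sym2 V → Bool) : SimpleGraph V where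
  Adj x y := x ≠ y ∧ ω s(x, y) = true
  symm := ⟨fun x y h => ⟨h.1.symm, by rw [Sym2.eq_swap]; exact h.2⟩⟩
  loopless := ⟨fun x h => h.1 rfl⟩

/-- `HT G L v U`: `G` contains a complete binary tree of depth `L` with root `v` and with all its
(distinct) vertices in `U`. -/
def HT [DecidableEq V] (G : SimpleGraph V) : ℕ → V → Finset V → Prop
  | 0, v, U => v ∈ U
  | (L + 1), v, U => v ∈ U ∧ ∃ u₁ u₂ : V, ∃ U₁ U₂ : Finset V, u₁ ≠ u₂ ∧ U₁ ⊆ U.erase v ∧
      U₂ ⊆ U.erase v ∧ Disjoint U₁ U₂ ∧ G.Adj v u₁ ∧ G.Adj v u₂ ∧ HT G L u₁ U₁ ∧ HT G L u₂ U₂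

/-- `RP G v l`: `l` is the reversed list of the vertices of a path of `G` that starts at `v`
(so the head of `l` is the end of the path and the last entry of `l` is `v`). -/
inductive RP (G : SimpleGraph V) (v : V) : List V → Prop
  | base : RP G v [v]
  | step {x u : V} {l : List V} : RP G v (x :: l) → G.Adj x u → u ∉ x :: l → RP G v (u :: x :: l)

/-- uniqueness of paths of length at most `L` from `v` -/
def UP (G : SimpleGraph V) (v : V) (L : ℕ) : Prop :=
  ∀ (x : V) (l l' : List V), RP G v (x :: l) → RP G v (x :: l') → l.length ≤ L →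
    l'.length ≤ L → l = l'

end Pool.Agent.GRig
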