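import Pool.Agent.GRig.Defs

/-!
If short paths from `v` are not unique then `v` lies in a small set that spans at least as many
edges as vertices.

PROOF. Let `x :: l` and `x :: l'` be two different reversed paths from `v` with
`l.length, l'.length ≤ L`. Let `X` be the set of all entries of both lists (at most
`(L + 1) + (L + 1) - 1` elements as `x` is in both). The graph induced by `G` on `X` is connected
and is not a tree, as two of its vertices are joined by two different paths; so it has at least
`X.card` edges. Take `X.card` of them.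
-/

namespace Pool.Agent.GRig

theorem RP.mem_start {V : Type*} {G : SimpleGraph V} {v : V} {l : List V} (h : RP G v l) :
    v ∈ l := by
  induction h with
  | base => simp
  | step _ _ _ ih => exact List.mem_cons_of_mem _ ih

/-- a reversed path inside `S` is the support of a path of the induced graph. -/
theorem RP.exists_walk {V : Type*} {G : SimpleGraph V} {v : V} (S : Set V) (hv : v ∈ S)
    {l : List V} (h : RP G v l) :
    (∀ y ∈ l, y ∈ S) → ∀ (x : V) (t : List V), l = x :: t → ∀ hx : x ∈ S,
      ∃ p : (G.induce S).Walk ⟨x, hx⟩ ⟨v, hv⟩, p.IsPath ∧ p.support.map Subtype.val = x :: t := by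
  induction h with
  | base =>
    intro _ x t hl hx
    obtain ⟨rfl, rfl⟩ : v = x ∧ [] = t := by simpa using hl
    exact ⟨SimpleGraph.Walk.nil, SimpleGraph.Walk.IsPath.nil, rfl⟩
  | @step x u l hr hadj hu ih =>
    intro hS y t hl hy
    obtain ⟨rfl, rfl⟩ : u = y ∧ x :: l = t := by simpa using hl
    have hxS : x ∈ S := hS x (by simp)
    obtain ⟨p, hp, hsup⟩ := ih (fun z hz => hS z (List.mem_cons_of_mem _ hz)) x l rfl hxS
    have hadj' : (G.induce S).Adj ⟨u, hy⟩ ⟨x, hxS⟩ := hadj.symm
    refine ⟨SimpleGraph.Walk.cons hadj' p, ?_, ?_⟩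
    · rw [SimpleGraph.Walk.cons_isPath_iff]
      refine ⟨hp, fun hmem => hu ?_⟩
      rw [← hsup]
      exact List.mem_map.2 ⟨⟨u, hy⟩, hmem, rfl⟩
    · rw [SimpleGraph.Walk.support_cons, List.map_cons, hsup]

theorem dense_of_not_UP {V : Type*} [Fintype V] [DecidableEq V] (G : SimpleGraph V) (v : V) (L : ℕ)
    (h : ¬ UP G v L) :
    ∃ X : Finset V, v ∈ X ∧ X.card ≤ 2 * L + 1 ∧ ∃ F : Finset (Sym2 V), F.card = X.card ∧
      (∀ e ∈ F, e ∈ G.edgeSet ∧ ∀ x ∈ e, x ∈ X) := by
  classical
  unfold UP at h
  push Not at h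
  obtain ⟨x, l, l', h1, h2, hl, hl', hne⟩ := h
  set X : Finset V := insert x (l.toFinset ∪ l'.toFinset) with hX
  have hX1 : ∀ y ∈ x :: l, y ∈ (X : Set V) := by
    intro y hy
    simp only [hX, Finset.coe_insert, Finset.coe_union, Set.mem_insert_iff, Set.mem_union,
      Finset.mem_coe, List.mem_toFinset]
    rcases List.mem_cons.1 hy with rfl | hy
    · exact Or.inl rfl
    · exact Or.inr (Or.inl hy)
  have hX2 : ∀ y ∈ x :: l', y ∈ (X : Set V) := by
    intro y hy
    simp only [hX, Finset.coe_insert, Finset.coe_union, Set.mem_insert_iff, Set.mem_union,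
      Finset.mem_coe, List.mem_toFinset]
    rcases List.mem_cons.1 hy with rfl | hy
    · exact Or.inl rfl
    · exact Or.inr (Or.inr hy)
  have hvX : v ∈ (X : Set V) := hX1 v h1.mem_start
  have hxX : x ∈ (X : Set V) := hX1 x (by simp)
  have hcard : X.card ≤ 2 * L + 1 := by
    have e1 : X.card ≤ (l.toFinset ∪ l'.toFinset).card + 1 := Finset.card_insert_le _ _
    have e2 : (l.toFinset ∪ l'.toFinset).card ≤ l.toFinset.card + l'.toFinset.card :=
      Finset.card_union_le _ _
    have e3 := List.toFinset_card_le l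
    have e4 := List.toFinset_card_le l'
    omega
  obtain ⟨p, hp, hps⟩ := RP.exists_walk (X : Set V) hvX h1 hX1 x l rfl hxX
  obtain ⟨q, hq, hqs⟩ := RP.exists_walk (X : Set V) hvX h2 hX2 x l' rfl hxX
  -- the induced graph is connected
  have hconn : (G.induce (X : Set V)).Connected := by
    rw [SimpleGraph.connected_iff_exists_forall_reachable]
    refine ⟨⟨x, hxX⟩, ?_⟩
    rintro ⟨y, hy⟩
    have hy' : y ∈ x :: l ∨ y ∈ x :: l' := by
      have : y ∈ X := hy
      simp only [hX, Finset.mem_insert, Finset.mem_union, List.mem_toFinset] at this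
      rcases this with rfl | hh | hh
      · exact Or.inl (by simp)
      · exact Or.inl (List.mem_cons_of_mem _ hh)
      · exact Or.inr (List.mem_cons_of_mem _ hh)
    rcases hy' with hy' | hy'
    · rw [← hps] at hy'
      obtain ⟨⟨z, hz⟩, hz1, hz2⟩ := List.mem_map.1 hy'
      simp only at hz2
      subst hz2
      exact (p.takeUntil _ hz1).reachable
    · rw [← hqs] at hy'
      obtain ⟨⟨z, hz⟩, hz1, hz2⟩ := List.mem_map.1 hy'
      simp only at hz2
      subst hz2
      exact (q.takeUntil _ hz1).reachable
  -- and not a tree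
  have hnt : ¬ (G.induce (X : Set V)).IsTree := by
    intro ht
    have hpq : p = q := by
      have := ht.2.path_unique ⟨p, hp⟩ ⟨q, hq⟩
      exact congrArg Subtype.val this
    apply hne
    have : x :: l = x :: l' := by rw [← hps, ← hqs, hpq]
    exact (List.cons.inj this).2
  have hcx : Nat.card (X : Set V) = X.card := by
    rw [Nat.card_eq_fintype_card]
    simp
  have hle := hconn.card_vert_le_card_edgeSet_add_one
  have hne' : ¬ Nat.card (G.induce (X : Set V)).edgeSet + 1 = Nat.card (X : Set V) := by
    intro he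
    exact hnt ((SimpleGraph.isTree_iff_connected_and_card).2 ⟨hconn, he⟩)
  have hge : X.card ≤ Nat.card (G.induce (X : Set V)).edgeSet := by
    rw [← hcx]
    omega
  -- transport the edges
  have hfin : Nat.card (G.induce (X : Set V)).edgeSet
      = (G.induce (X : Set V)).edgeFinset.card := by
    rw [Nat.card_eq_fintype_card, SimpleGraph.edgeFinset_card]
  have hinj : Function.Injective
      (Sym2.map (Subtype.val : {y : V // y ∈ (X : Set V)} → V)) :=
    Sym2.map.injective Subtype.val_injective
  obtain ⟨F, hF, hFc⟩ := Finset.exists_subset_card_eq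
    (s := (G.induce (X : Set V)).edgeFinset.image
      (Sym2.map (Subtype.val : {y : V // y ∈ (X : Set V)} → V)))
    (n := X.card) (by rw [Finset.card_image_of_injective _ hinj, ← hfin]; exact hge)
  refine ⟨X, hvX, hcard, F, hFc, ?_⟩
  intro e he
  obtain ⟨e', he', rfl⟩ := Finset.mem_image.1 (hF he)
  rw [SimpleGraph.mem_edgeFinset] at he'
  induction e' using Sym2.ind with
  | _ a b =>
    rw [SimpleGraph.mem_edgeSet] at he'
    refine ⟨?_, ?_⟩
    · rw [Sym2.map_mk, SimpleGraph.mem_edgeSet]
      exact he'
    · intro y hy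
      rw [Sym2.map_mk, Sym2.mem_iff] at hy
      rcases hy with rfl | rfl
      · exact a.2
      · exact b.2

end Pool.Agent.GRig
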