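import Pool.Agent.GRig.Pr

/-!
The probability that at least two of the independent events occur.

PROOF. The complement of the event is: no `A r` occurs, or exactly one occurs (disjoint union over
`r` of `A r` and no other). By `pr_blocks` (with `A s` replaced by `¬ A s`) and `pr_not` these have
probabilities `∏ r, (1 - y r)` and `y r * ∏ s ∈ univ.erase r, (1 - y s)`.
-/

namespace Pool.Agent.GRig

open Finset

theorem two_of {ι R : Type*} [Fintype ι] [DecidableEq ι] [Fintype R] [DecidableEq R]
    (p : ℝ) (A : R → (ι → Bool) → Prop) :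
    pr p (fun η : ι × R → Bool => ∃ r s, r ≠ s ∧ A r (fun i => η (i, r)) ∧
        A s (fun i => η (i, s)))
      = 1 - ∏ r, (1 - pr p (A r)) - ∑ r, pr p (A r) * ∏ s ∈ univ.erase r, (1 - pr p (A s)) := by
  classical
  have h1 : pr p (fun η : ι × R → Bool => ∀ r, ¬ A r (fun i => η (i, r)))
      = ∏ r, (1 - pr p (A r)) := by
    have h := pr_blocks p (fun (r : R) (ω : ι → Bool) => ¬ A r ω)
    rw [h]
    exact Finset.prod_congr rfl fun r _ => pr_not p (A r)
  have h2 : ∀ r : R, pr p (fun η : ι × R → Bool =>
        ∀ s, (if s = r then A s (fun i => η (i, s)) else ¬ A s (fun i => η (i, s))))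
      = pr p (A r) * ∏ s ∈ univ.erase r, (1 - pr p (A s)) := by
    intro r
    have h := pr_blocks p (fun (s : R) (ω : ι → Bool) => if s = r then A s ω else ¬ A s ω)
    rw [h, ← Finset.mul_prod_erase univ _ (mem_univ r)]
    have e1 : pr p (fun ω => if r = r then A r ω else ¬ A r ω) = pr p (A r) := by
      simp
    have e2 : ∏ s ∈ univ.erase r, pr p (fun ω => if s = r then A s ω else ¬ A s ω)
        = ∏ s ∈ univ.erase r, (1 - pr p (A s)) := by
      refine Finset.prod_congr rfl fun s hs => ?_
      have hsr : s ≠ r := (Finset.mem_erase.mp hs).1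
      simp only [hsr, if_false]
      exact pr_not p (A s)
    rw [e1, e2]
  have h3 : pr p (fun _ : ι × R → Bool => True) = 1 := pr_true p
  have h5 : ∑ r, pr p (A r) * ∏ s ∈ univ.erase r, (1 - pr p (A s))
      = ∑ r, pr p (fun η : ι × R → Bool =>
        ∀ s, (if s = r then A s (fun i => η (i, s)) else ¬ A s (fun i => η (i, s)))) :=
    Finset.sum_congr rfl fun r _ => (h2 r).symm
  rw [h5, ← h1, ← h3]
  clear h1 h2 h3 h5
  unfold pr
  rw [Finset.sum_comm, ← Finset.sum_sub_distrib, ← Finset.sum_sub_distrib]
  refine Finset.sum_congr rfl fun η _ => ?_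
  set T : R → Prop := fun r => A r (fun i => η (i, r)) with hT
  have hT' : ∀ r, A r (fun i => η (i, r)) ↔ T r := fun r => Iff.rfl
  simp only [hT', if_true]
  by_cases hn : ∀ r, ¬ T r
  · have hE : ¬ ∃ r s, r ≠ s ∧ T r ∧ T s := by
      rintro ⟨r, s, -, hr, -⟩
      exact hn r hr
    have hS : ∀ r, ¬ ∀ s, (if s = r then T s else ¬ T s) := by
      intro r h
      have := h r
      simp only [if_true] at this
      exact hn r this
    rw [if_neg hE, if_pos hn, Finset.sum_eq_zero]
    · ring
    · intro r _
      exact if_neg (hS r)
  · have hn' := hn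
    push Not at hn'
    obtain ⟨r0, hr0⟩ := hn'
    by_cases hu : ∀ s, s ≠ r0 → ¬ T s
    · have hE : ¬ ∃ r s, r ≠ s ∧ T r ∧ T s := by
        rintro ⟨r, s, hrs, hr, hs⟩
        have e1 : r = r0 := by
          by_contra h
          exact hu r h hr
        have e2 : s = r0 := by
          by_contra h
          exact hu s h hs
        exact hrs (e1.trans e2.symm)
      rw [if_neg hE, if_neg hn, Finset.sum_eq_single r0]
      · have : ∀ s, (if s = r0 then T s else ¬ T s) := by
          intro s
          by_cases hs : s = r0
          · subst hs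
            simpa using hr0
          · simpa [hs] using hu s hs
        rw [if_pos this]
        ring
      · intro r _ hr
        refine if_neg ?_
        intro h
        have := h r0
        rw [if_neg (Ne.symm hr)] at this
        exact this hr0
      · intro h
        exact absurd (mem_univ r0) h
    · push Not at hu
      obtain ⟨s0, hs0, hTs0⟩ := hu
      have hE : ∃ r s, r ≠ s ∧ T r ∧ T s := ⟨s0, r0, hs0, hTs0, hr0⟩
      rw [if_pos hE, if_neg hn, Finset.sum_eq_zero]
      · ring
      · intro r _
        refine if_neg ?_
        intro h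
        by_cases hr : r0 = r
        · have := h s0
          rw [if_neg (by rw [← hr]; exact hs0)] at this
          exact this hTs0
        · have := h r0
          rw [if_neg hr] at this
          exact this hr0

end Pool.Agent.GRig
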