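import Pool.Agent.GRig.Pr

/-!
PROOF. The set is contained in the set of heads of the lists `x :: l` with `RP (gr ω) v (x :: l)`
and `l.length < L`; so its `ncard` is at most the number of such lists. By `pr_markov` (with `s` the
finite set of all lists without repetition of length at most `L` with entries in `Fin n` and last
entry `v`, e.g. the image of functions or `List.Vector`) it is enough that
`∑ pr (RP (gr ω) v l) ≤ ∑_{j < L} n ^ j * (C / n) ^ j = ∑_{j<L} C ^ j`: there are at most `n ^ j`
lists of length `j + 1` with last entry `v`, and for each of them the `j` pairs of consecutive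
entries are distinct (no repetitions), so `pr_all` gives the probability `(C / n) ^ j`.
-/

namespace Pool.Agent.GRig

open Finset

/-- consecutive pairs of a list -/
private def PBedg {n : ℕ} : List (Fin n) → Finset (Sym2 (Fin n))
  | [] => ∅
  | [_] => ∅
  | u :: x :: l => insert s(x, u) (PBedg (x :: l))

private theorem PBedg_mem {n : ℕ} : ∀ (l : List (Fin n)) (e : Sym2 (Fin n)), e ∈ PBedg l →
    ∀ y ∈ e, y ∈ l
  | [], e, he, y, hy => by simp [PBedg] at he
  | [_], e, he, y, hy => by simp [PBedg] at he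
  | u :: x :: l, e, he, y, hy => by
    rw [PBedg, Finset.mem_insert] at he
    rcases he with rfl | he
    · rw [Sym2.mem_iff] at hy
      rcases hy with rfl | rfl
      · simp
      · simp
    · exact List.mem_cons_of_mem _ (PBedg_mem (x :: l) e he y hy)

private theorem PBedg_card {n : ℕ} : ∀ (l : List (Fin n)), l.Nodup →
    (PBedg l).card = l.length - 1
  | [], _ => rfl
  | [_], _ => rfl
  | u :: x :: l, h => by
    have h1 : (x :: l).Nodup := (List.nodup_cons.1 h).2
    have h2 : u ∉ x :: l := (List.nodup_cons.1 h).1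
    have h3 : s(x, u) ∉ PBedg (x :: l) := fun h4 =>
      h2 (PBedg_mem (x :: l) _ h4 u (Sym2.mem_mk_right x u))
    rw [PBedg, Finset.card_insert_of_notMem h3, PBedg_card (x :: l) h1]
    simp

private theorem PB_edges {n : ℕ} {v : Fin n} {ω : Sym2 (Fin n) → Bool} {l : List (Fin n)}
    (h : RP (gr ω) v l) : ∀ e ∈ PBedg l, ω e = true := by
  induction h with
  | base => intro e he; simp [PBedg] at he
  | step h1 h2 h3 ih =>
    intro e he
    rw [PBedg, Finset.mem_insert] at he
    rcases he with rfl | he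
    · exact h2.2
    · exact ih e he

private theorem PB_nodup {n : ℕ} {v : Fin n} {G : SimpleGraph (Fin n)} {l : List (Fin n)}
    (h : RP G v l) : l.Nodup := by
  induction h with
  | base => simp
  | step h1 h2 h3 ih => exact List.nodup_cons.2 ⟨h3, ih⟩

private theorem PB_last {n : ℕ} {v : Fin n} {G : SimpleGraph (Fin n)} {l : List (Fin n)}
    (h : RP G v l) : ∃ l', l = l' ++ [v] := by
  induction h with
  | base => exact ⟨[], rfl⟩
  | @step x u l h1 h2 h3 ih =>
    obtain ⟨l', hl'⟩ := ih
    exact ⟨u :: l', by rw [hl']; rfl⟩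

private theorem PB_one {n : ℕ} (C : ℝ) (hC : 0 ≤ C) (hn : 0 < n) (hCn : C ≤ n) (v : Fin n) (j : ℕ)
    (f : Fin j → Fin n) :
    pr (C / n) (fun ω : Sym2 (Fin n) → Bool => RP (gr ω) v (List.ofFn f ++ [v])) ≤
      (C / n) ^ j := by
  have hn' : (0 : ℝ) < n := Nat.cast_pos.2 hn
  have h0 : 0 ≤ C / n := div_nonneg hC hn'.le
  have h1 : C / n ≤ 1 := (div_le_one hn').2 hCn
  by_cases hd : (List.ofFn f ++ [v]).Nodup
  · have h2 : (PBedg (List.ofFn f ++ [v])).card = j := by
      rw [PBedg_card _ hd]
      simp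
    calc pr (C / n) (fun ω : Sym2 (Fin n) → Bool => RP (gr ω) v (List.ofFn f ++ [v]))
        ≤ pr (C / n) (fun ω : Sym2 (Fin n) → Bool =>
            ∀ e ∈ PBedg (List.ofFn f ++ [v]), ω e = true) :=
          pr_mono h0 h1 fun ω h => PB_edges h
      _ = (C / n) ^ j := by rw [pr_all, h2]
  · calc pr (C / n) (fun ω : Sym2 (Fin n) → Bool => RP (gr ω) v (List.ofFn f ++ [v]))
        ≤ pr (C / n) (fun _ : Sym2 (Fin n) → Bool => False) :=
          pr_mono h0 h1 fun ω h => hd (PB_nodup h)
      _ = 0 := pr_false _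
      _ ≤ (C / n) ^ j := pow_nonneg h0 j

theorem pr_ball_le (C : ℝ) (hC : 0 ≤ C) (L : ℕ) : ∃ K : ℝ, 0 ≤ K ∧ ∀ n : ℕ, 0 < n → C ≤ n →
    ∀ v : Fin n, ∀ t : ℝ, 0 < t →
      pr (C / n) (fun ω : Sym2 (Fin n) → Bool =>
        t ≤ (({x | ∃ l, RP (gr ω) v (x :: l) ∧ l.length < L} : Set (Fin n)).ncard : ℝ)) ≤ K / t := by
  classical
  refine ⟨∑ j : Fin L, C ^ (j : ℕ), Finset.sum_nonneg fun j _ => pow_nonneg hC _, ?_⟩
  intro n hn hCn v t ht
  have hn' : (0 : ℝ) < n := Nat.cast_pos.2 hn
  have h0 : 0 ≤ C / n := div_nonneg hC hn'.le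
  have h1 : C / n ≤ 1 := (div_le_one hn').2 hCn
  let κ : Type := Σ j : Fin L, (Fin (j : ℕ) → Fin n)
  let A : κ → (Sym2 (Fin n) → Bool) → Prop := fun k ω => RP (gr ω) v (List.ofFn k.2 ++ [v])
  have hcard : ∀ ω : Sym2 (Fin n) → Bool,
      (({x | ∃ l, RP (gr ω) v (x :: l) ∧ l.length < L} : Set (Fin n)).ncard : ℝ) ≤
        (((Finset.univ : Finset κ).filter (fun k => A k ω)).card : ℝ) := by
    intro ω
    have hsub : ({x | ∃ l, RP (gr ω) v (x :: l) ∧ l.length < L} : Set (Fin n)) ⊆
        ((((Finset.univ : Finset κ).filter (fun k => A k ω)).image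
          (fun k => (List.ofFn k.2 ++ [v]).headD v) : Finset (Fin n)) : Set (Fin n)) := by
      rintro x ⟨l, hl, hlen⟩
      obtain ⟨l', hl'⟩ := PB_last hl
      have hlen' : l'.length < L := by
        have h2 := congrArg List.length hl'
        simp only [List.length_cons, List.length_append, List.length_nil] at h2
        omega
      rw [Finset.mem_coe, Finset.mem_image]
      have h3 : List.ofFn l'.get ++ [v] = x :: l := by
        rw [List.ofFn_get, hl']
      refine ⟨⟨⟨l'.length, hlen'⟩, l'.get⟩, ?_, ?_⟩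
      · rw [Finset.mem_filter]
        refine ⟨Finset.mem_univ _, ?_⟩
        change RP (gr ω) v (List.ofFn l'.get ++ [v])
        rw [h3]
        exact hl
      · change (List.ofFn l'.get ++ [v]).headD v = x
        rw [h3]
        rfl
    have h2 := Set.ncard_le_ncard hsub (Finset.finite_toSet _)
    rw [Set.ncard_coe_finset] at h2
    exact_mod_cast h2.trans Finset.card_image_le
  calc pr (C / n) (fun ω : Sym2 (Fin n) → Bool =>
        t ≤ (({x | ∃ l, RP (gr ω) v (x :: l) ∧ l.length < L} : Set (Fin n)).ncard : ℝ))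
      ≤ pr (C / n) (fun ω : Sym2 (Fin n) → Bool =>
          t ≤ (((Finset.univ : Finset κ).filter (fun k => A k ω)).card : ℝ)) :=
        pr_mono h0 h1 fun ω h => h.trans (hcard ω)
    _ ≤ (∑ k ∈ (Finset.univ : Finset κ), pr (C / n) (A k)) / t := by
        convert pr_markov h0 h1 (Finset.univ : Finset κ) A ht
    _ ≤ (∑ j : Fin L, C ^ (j : ℕ)) / t := by
        apply div_le_div_of_nonneg_right _ ht.le
        rw [Finset.univ_sigma_univ.symm, Finset.sum_sigma]
        apply Finset.sum_le_sum
        intro j _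
        calc ∑ f : Fin (j : ℕ) → Fin n, pr (C / n) (A ⟨j, f⟩)
            ≤ ∑ f : Fin (j : ℕ) → Fin n, (C / n) ^ (j : ℕ) :=
              Finset.sum_le_sum fun f _ => PB_one C hC hn hCn v j f
          _ = C ^ (j : ℕ) := by
            rw [Finset.sum_const, Finset.card_univ, Fintype.card_fun, Fintype.card_fin,
              Fintype.card_fin, nsmul_eq_mul, Nat.cast_pow, ← mul_pow, mul_div_cancel₀ _ hn'.ne']

end Pool.Agent.GRig
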