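import Pool.Agent.GRig.Pr
import Pool.Agent.GRig.Dense

/-!
PROOF. By `dense_of_not_UP` the event implies that there are `X ∋ v` with `j = X.card ≤ 2 L + 1`
and a set `F` of `j` pairs inside `X`, all of which are edges. Union bound (`pr_exists_le`,
`pr_all`): the number of `X ∋ v` with `X.card = j` is at most `n ^ (j - 1)` (`j ≥ 1`), the number
of `F` inside `X.sym2` is at most `2 ^ (j ^ 2)` (`X.sym2.card = (j+1).choose 2 ≤ j ^ 2` for `j ≥ 1`),
and each has probability `(C / n) ^ j`. So the probability is at most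
`(∑ j ∈ range (2 L + 2), 2 ^ (j ^ 2) * C ^ j) / n`.
-/

namespace Pool.Agent.GRig

open Finset

private theorem count_X {n : ℕ} (v : Fin n) (j : ℕ) (s : Finset (Finset (Fin n)))
    (hs : ∀ X ∈ s, v ∈ X ∧ X.card = j + 1) : s.card ≤ n ^ j := by
  classical
  have h1 : s.card ≤ ((Finset.univ : Finset (Fin n)).powersetCard j).card := by
    refine Finset.card_le_card_of_injOn (fun X => X.erase v) ?_ ?_
    · intro X hX
      rw [Finset.mem_coe] at hX ⊢
      rw [Finset.mem_powersetCard]
      refine ⟨Finset.subset_univ _, ?_⟩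
      rw [Finset.card_erase_of_mem (hs X hX).1, (hs X hX).2]
      simp
    · intro X hX Y hY hXY
      rw [Finset.mem_coe] at hX hY
      have e1 := Finset.insert_erase (hs X hX).1
      have e2 := Finset.insert_erase (hs Y hY).1
      simp only at hXY
      rw [← e1, ← e2, hXY]
  refine h1.trans ?_
  rw [Finset.card_powersetCard, Finset.card_univ, Fintype.card_fin]
  exact Nat.choose_le_pow n j

theorem pr_not_UP_le (C : ℝ) (hC : 0 ≤ C) (L : ℕ) : ∃ K : ℝ, 0 ≤ K ∧ ∀ n : ℕ, 0 < n → C ≤ n →
    ∀ v : Fin n, pr (C / n) (fun ω : Sym2 (Fin n) → Bool => ¬ UP (gr ω) v L) ≤ K / n := by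
  classical
  refine ⟨∑ j ∈ range (2 * L + 2), 2 ^ (j ^ 2) * C ^ j, by positivity, ?_⟩
  intro n hn hCn v
  have hn0 : (0 : ℝ) < n := by exact_mod_cast hn
  have hp0 : 0 ≤ C / n := by positivity
  have hp1 : C / n ≤ 1 := by
    rw [div_le_one hn0]
    exact hCn
  set s : Finset (Finset (Fin n)) :=
    (Finset.univ : Finset (Finset (Fin n))).filter (fun X => v ∈ X ∧ X.card ≤ 2 * L + 1) with hs
  have h1 : pr (C / n) (fun ω : Sym2 (Fin n) → Bool => ¬ UP (gr ω) v L) ≤
      pr (C / n) (fun ω : Sym2 (Fin n) → Bool => ∃ X ∈ s,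
        (fun (X : Finset (Fin n)) (ω : Sym2 (Fin n) → Bool) =>
          ∃ F ∈ X.sym2.powersetCard X.card, ∀ e ∈ F, ω e = true) X ω) := by
    refine pr_mono hp0 hp1 fun ω hω => ?_
    obtain ⟨X, hvX, hXc, F, hF, hFe⟩ := dense_of_not_UP (gr ω) v L hω
    refine ⟨X, ?_, F, ?_, ?_⟩
    · rw [hs, Finset.mem_filter]
      exact ⟨Finset.mem_univ _, hvX, hXc⟩
    · rw [Finset.mem_powersetCard]
      refine ⟨fun e he => ?_, hF⟩
      rw [Finset.mem_sym2_iff]
      exact (hFe e he).2
    · intro e he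
      have h2 := (hFe e he).1
      revert h2
      induction e using Sym2.ind with
      | _ x y =>
        intro h2
        rw [SimpleGraph.mem_edgeSet] at h2
        exact h2.2
  have h2 := pr_exists_le hp0 hp1 s (fun (X : Finset (Fin n)) (ω : Sym2 (Fin n) → Bool) =>
    ∃ F ∈ X.sym2.powersetCard X.card, ∀ e ∈ F, ω e = true)
  have h3 : ∀ X ∈ s, pr (C / n) ((fun (X : Finset (Fin n)) (ω : Sym2 (Fin n) → Bool) =>
      ∃ F ∈ X.sym2.powersetCard X.card, ∀ e ∈ F, ω e = true) X) ≤
      2 ^ (X.card ^ 2) * (C / n) ^ X.card := by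
    intro X hX
    have h4 := pr_exists_le hp0 hp1 (X.sym2.powersetCard X.card)
      (fun (F : Finset (Sym2 (Fin n))) (ω : Sym2 (Fin n) → Bool) => ∀ e ∈ F, ω e = true)
    refine h4.trans ?_
    have h5 : ∀ F ∈ X.sym2.powersetCard X.card,
        pr (C / n) ((fun (F : Finset (Sym2 (Fin n))) (ω : Sym2 (Fin n) → Bool) =>
          ∀ e ∈ F, ω e = true) F) = (C / n) ^ X.card := by
      intro F hF
      have h6 := pr_all (C / n) F
      rw [(Finset.mem_powersetCard.1 hF).2] at h6
      exact h6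
    rw [Finset.sum_congr rfl h5, Finset.sum_const, nsmul_eq_mul]
    refine mul_le_mul_of_nonneg_right ?_ (by positivity)
    have h7 : (X.sym2.powersetCard X.card).card ≤ 2 ^ (X.card ^ 2) := by
      calc (X.sym2.powersetCard X.card).card ≤ X.sym2.powerset.card :=
            Finset.card_le_card (fun F hF => Finset.mem_powerset.2 (Finset.mem_powersetCard.1 hF).1)
        _ = 2 ^ X.sym2.card := Finset.card_powerset _
        _ ≤ 2 ^ (X.card ^ 2) := by
            refine Nat.pow_le_pow_right (by norm_num) ?_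
            rw [Finset.card_sym2]
            have hc : 1 ≤ X.card := Finset.card_pos.2 ⟨v, (Finset.mem_filter.1 hX).2.1⟩
            rw [Nat.choose_two_right]
            have : (X.card + 1) * (X.card + 1 - 1) ≤ 2 * X.card ^ 2 := by
              have : X.card + 1 - 1 = X.card := by omega
              rw [this]
              nlinarith
            omega
    exact_mod_cast h7
  have h4 : ∑ X ∈ s, (2 ^ (X.card ^ 2) * (C / n) ^ X.card : ℝ) ≤
      (∑ j ∈ range (2 * L + 2), 2 ^ (j ^ 2) * C ^ j) / n := by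
    have hmap : ∀ X ∈ s, X.card ∈ range (2 * L + 2) := by
      intro X hX
      rw [Finset.mem_range]
      have := (Finset.mem_filter.1 hX).2.2
      omega
    rw [← Finset.sum_fiberwise_of_maps_to hmap, Finset.sum_div]
    refine Finset.sum_le_sum fun j _ => ?_
    have h5 : ∀ X ∈ s.filter (fun X => X.card = j),
        (2 ^ (X.card ^ 2) * (C / n) ^ X.card : ℝ) = 2 ^ (j ^ 2) * (C / n) ^ j := by
      intro X hX
      rw [(Finset.mem_filter.1 hX).2]
    rw [Finset.sum_congr rfl h5, Finset.sum_const, nsmul_eq_mul]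
    rcases Nat.eq_zero_or_pos j with hj | hj
    · subst hj
      have h6 : s.filter (fun X => X.card = 0) = ∅ := by
        rw [Finset.filter_eq_empty_iff]
        intro X hX h0
        have hc : 1 ≤ X.card := Finset.card_pos.2 ⟨v, (Finset.mem_filter.1 hX).2.1⟩
        omega
      rw [h6]
      simp only [Finset.card_empty, Nat.cast_zero, zero_mul]
      positivity
    · obtain ⟨i, rfl⟩ : ∃ i, j = i + 1 := ⟨j - 1, by omega⟩
      have h6 : ((s.filter (fun X => X.card = i + 1)).card : ℝ) ≤ (n : ℝ) ^ i := by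
        have := count_X v i (s.filter (fun X => X.card = i + 1)) (by
          intro X hX
          rw [Finset.mem_filter] at hX
          exact ⟨(Finset.mem_filter.1 hX.1).2.1, hX.2⟩)
        exact_mod_cast this
      calc ((s.filter (fun X => X.card = i + 1)).card : ℝ) *
            (2 ^ ((i + 1) ^ 2) * (C / n) ^ (i + 1)) ≤
            (n : ℝ) ^ i * (2 ^ ((i + 1) ^ 2) * (C / n) ^ (i + 1)) :=
            mul_le_mul_of_nonneg_right h6 (by positivity)
        _ = 2 ^ ((i + 1) ^ 2) * C ^ (i + 1) / n := by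
            rw [div_pow, pow_succ (n : ℝ) i]
            field_simp
  calc pr (C / n) (fun ω : Sym2 (Fin n) → Bool => ¬ UP (gr ω) v L) ≤ _ := h1
    _ ≤ _ := h2
    _ ≤ ∑ X ∈ s, (2 ^ (X.card ^ 2) * (C / n) ^ X.card : ℝ) := Finset.sum_le_sum h3
    _ ≤ _ := h4

end Pool.Agent.GRig
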