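import Pool.Agent.GRig.Defs

/-!
Numerics for `c₃`.

PROOF of `P2_mul_le`: `67/20 * P2 x ≤ x` for `x ≥ 0`. With `c = 67/20` this is
`F x := exp x * (x - c) + c * (1 + x) ≥ 0` (multiply by `exp x`). `F 0 = 0`,
`F' x = exp x * (x - c + 1) + c`, `F'' x = exp x * (x - c + 2)`: so `F` is concave on `[0, 1.35]` and
convex on `[1.35, ∞)`. On `[0, 1.35]` concavity gives `F ≥ min (F 0) (F 1.35) ≥ 0`
(`F 1.35 = 3.857 * (-2) + 7.8725 > 0`). For `x ≥ c` it is clear. On `[1.35, c]` the minimum is at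
about `1.792` and `F` is about `0.0029` there; the tangent line at `1.79` (`exp 1.79 = 5.98945..`,
`F 1.79 = 0.00295..`, `F' 1.79 = -0.00409..`) shows `F > 0` on `[1.35, 2.5]`, the tangent line at
`2.5` (`F 2.5 = 1.36..`, `F' 2.5 > 0`) shows it for `x ≥ 2.5`; or any other method. `P2 x > 0` for `x > 0` is `1 + x < exp x`.
-/

namespace Pool.Agent.GRig

/-- the cubic Taylor polynomial is a lower bound of the exponential on the whole line -/
theorem cubic_le_exp (s : ℝ) : 1 + s + s ^ 2 / 2 + s ^ 3 / 6 ≤ Real.exp s := by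
  have h1 : ∀ x : ℝ, HasDerivAt (fun x : ℝ => Real.exp x - (1 + x + x ^ 2 / 2))
      (Real.exp x - (1 + x)) x := by
    intro x
    have a1 : HasDerivAt (fun x : ℝ => 1 + x + x ^ 2 / 2) (1 + x) x := by
      have := ((hasDerivAt_id' x).const_add 1).add ((hasDerivAt_pow 2 x).div_const 2)
      refine this.congr_deriv ?_
      push_cast
      ring
    exact (Real.hasDerivAt_exp x).sub a1
  have h2 : Monotone (fun x : ℝ => Real.exp x - (1 + x + x ^ 2 / 2)) := by
    apply monotone_of_deriv_nonneg (fun x => (h1 x).differentiableAt)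
    intro x
    rw [(h1 x).deriv]
    have := Real.add_one_le_exp x
    linarith
  have h3 : ∀ x : ℝ, HasDerivAt (fun x : ℝ => Real.exp x - (1 + x + x ^ 2 / 2 + x ^ 3 / 6))
      (Real.exp x - (1 + x + x ^ 2 / 2)) x := by
    intro x
    have a1 : HasDerivAt (fun x : ℝ => 1 + x + x ^ 2 / 2 + x ^ 3 / 6) (1 + x + x ^ 2 / 2) x := by
      have := (((hasDerivAt_id' x).const_add 1).add ((hasDerivAt_pow 2 x).div_const 2)).add
        ((hasDerivAt_pow 3 x).div_const 6)
      refine this.congr_deriv ?_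
      push_cast
      ring
    exact (Real.hasDerivAt_exp x).sub a1
  have hc : ∀ S : Set ℝ, ContinuousOn
      (fun x : ℝ => Real.exp x - (1 + x + x ^ 2 / 2 + x ^ 3 / 6)) S :=
    fun S x _ => (h3 x).continuousAt.continuousWithinAt
  rcases le_total 0 s with hs | hs
  · have h4 : MonotoneOn (fun x : ℝ => Real.exp x - (1 + x + x ^ 2 / 2 + x ^ 3 / 6))
        (Set.Ici 0) := by
      apply monotoneOn_of_deriv_nonneg (convex_Ici 0) (hc _)
        (fun x _ => (h3 x).differentiableAt.differentiableWithinAt)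
      intro x hx
      rw [interior_Ici] at hx
      rw [(h3 x).deriv]
      have := h2 (le_of_lt (Set.mem_Ioi.1 hx))
      simp at this
      linarith
    have := h4 (Set.mem_Ici.2 le_rfl) (Set.mem_Ici.2 hs) hs
    simp at this
    linarith
  · have h4 : AntitoneOn (fun x : ℝ => Real.exp x - (1 + x + x ^ 2 / 2 + x ^ 3 / 6))
        (Set.Iic 0) := by
      apply antitoneOn_of_deriv_nonpos (convex_Iic 0) (hc _)
        (fun x _ => (h3 x).differentiableAt.differentiableWithinAt)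
      intro x hx
      rw [interior_Iic] at hx
      rw [(h3 x).deriv]
      have := h2 (le_of_lt (Set.mem_Iio.1 hx))
      simp at this
      linarith
    have := h4 (Set.mem_Iic.2 hs) (Set.mem_Iic.2 le_rfl) hs
    simp at this
    linarith

theorem exp_nine_fifths : Real.exp (9 / 5) ≤ 604965 / 100000 := by
  have h1 : Real.exp (9 / 5) ^ 5 = Real.exp 1 ^ 9 := by
    rw [← Real.exp_nat_mul, ← Real.exp_nat_mul]
    norm_num
  have h2 : Real.exp 1 ^ 9 ≤ (2.7182818286 : ℝ) ^ 9 :=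
    pow_le_pow_left₀ (Real.exp_pos 1).le (Real.exp_one_lt_d9.le) 9
  have h3 : (2.7182818286 : ℝ) ^ 9 ≤ (604965 / 100000 : ℝ) ^ 5 := by norm_num
  have h4 : Real.exp (9 / 5) ^ 5 ≤ (604965 / 100000 : ℝ) ^ 5 := by
    rw [h1]
    exact h2.trans h3
  exact le_of_pow_le_pow_left₀ (by norm_num) (by norm_num) h4

theorem P2_pos {x : ℝ} (hx : 0 < x) : 0 < P2 x := by
  unfold P2
  have h1 : x + 1 < Real.exp x := Real.add_one_lt_exp hx.ne'
  have h2 : Real.exp (-x) * (1 + x) < Real.exp (-x) * Real.exp x :=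
    mul_lt_mul_of_pos_left (by linarith) (Real.exp_pos _)
  rw [← Real.exp_add, neg_add_cancel, Real.exp_zero] at h2
  linarith

/-- the main inequality -/
theorem F_nonneg {x : ℝ} (hx : 0 ≤ x) :
    (67 / 20 : ℝ) - x ≤ 67 / 20 * (1 + x) * Real.exp (-x) := by
  rcases le_total (67 / 20) x with h | h
  · have : 0 ≤ 67 / 20 * (1 + x) * Real.exp (-x) := by positivity
    linarith
  rcases le_total x (4 / 5) with h8 | h8
  · have h1 := cubic_le_exp (-x)
    have h2 : (67 / 20 : ℝ) * (1 + x) * (1 + (-x) + (-x) ^ 2 / 2 + (-x) ^ 3 / 6) ≤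
        67 / 20 * (1 + x) * Real.exp (-x) :=
      mul_le_mul_of_nonneg_left h1 (by positivity)
    have h3 : (67 / 20 : ℝ) - x ≤
        (67 / 20 : ℝ) * (1 + x) * (1 + (-x) + (-x) ^ 2 / 2 + (-x) ^ 3 / 6) := by
      have h4 : 0 ≤ x * (1 - 67 / 40 * x + 67 / 60 * x ^ 2 - 67 / 120 * x ^ 3) := by
        apply mul_nonneg hx
        nlinarith [mul_nonneg hx (sub_nonneg.2 h8), mul_nonneg (sq_nonneg x) (sub_nonneg.2 h8),
          mul_nonneg hx (mul_nonneg (sub_nonneg.2 h8) (sub_nonneg.2 h8))]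
      nlinarith [h4]
    linarith
  · have h1 := cubic_le_exp (9 / 5 - x)
    have hE := exp_nine_fifths
    have h0 : 0 ≤ 67 / 20 - x := by linarith
    -- `exp (9/5 - x) = exp (9/5) * exp (-x)`
    have h2 : Real.exp (9 / 5 - x) = Real.exp (9 / 5) * Real.exp (-x) := by
      rw [← Real.exp_add]
      ring_nf
    have h3 : (604965 / 100000 : ℝ) * (67 / 20 - x) ≤ 67 / 20 * (1 + x) *
        (1 + (9 / 5 - x) + (9 / 5 - x) ^ 2 / 2 + (9 / 5 - x) ^ 3 / 6) := by
      obtain ⟨s, hs⟩ : ∃ s : ℝ, s = 9 / 5 - x := ⟨_, rfl⟩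
      have hx' : x = 9 / 5 - s := by linarith
      subst hx'
      have hs1 : s ≤ 1 := by linarith
      have hs2 : -(31 / 20) ≤ s := by linarith
      have e : (67 / 20 : ℝ) * (1 + (9 / 5 - s)) *
        (1 + (9 / 5 - (9 / 5 - s)) + (9 / 5 - (9 / 5 - s)) ^ 2 / 2 +
          (9 / 5 - (9 / 5 - s)) ^ 3 / 6) - (604965 / 100000 : ℝ) * (67 / 20 - (9 / 5 - s)) =
        (9.38 - 6.04965 * 1.55) + (6.03 - 6.04965) * s +
          s ^ 2 * (1.34 - 67 / 600 * s - 67 / 120 * s ^ 2) := by ring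
      have h5 : (17 / 100 : ℝ) ≤ 1.34 - 67 / 600 * s - 67 / 120 * s ^ 2 := by nlinarith
      have h6 : s ^ 2 * (17 / 100 : ℝ) ≤ s ^ 2 * (1.34 - 67 / 600 * s - 67 / 120 * s ^ 2) :=
        mul_le_mul_of_nonneg_left h5 (sq_nonneg s)
      have h7 : 0 ≤ (9.38 - 6.04965 * 1.55 : ℝ) + (6.03 - 6.04965) * s + s ^ 2 * (17 / 100) := by
        nlinarith [sq_nonneg (s - 1 / 17)]
      linarith
    have h4 : 67 / 20 * (1 + x) *
        (1 + (9 / 5 - x) + (9 / 5 - x) ^ 2 / 2 + (9 / 5 - x) ^ 3 / 6) ≤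
        67 / 20 * (1 + x) * (Real.exp (9 / 5) * Real.exp (-x)) := by
      rw [← h2]
      exact mul_le_mul_of_nonneg_left h1 (by positivity)
    have h5 : 67 / 20 * (1 + x) * (Real.exp (9 / 5) * Real.exp (-x)) ≤
        (604965 / 100000) * (67 / 20 * (1 + x) * Real.exp (-x)) := by
      have : 0 ≤ 67 / 20 * (1 + x) * Real.exp (-x) := by positivity
      nlinarith [mul_le_mul_of_nonneg_right hE this]
    nlinarith

theorem P2_mul_le {x : ℝ} (hx : 0 ≤ x) : (67 / 20 : ℝ) * P2 x ≤ x := by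
  have := F_nonneg hx
  unfold P2
  nlinarith

theorem le_c3 : (67 / 20 : ℝ) ≤ c3 := by
  unfold c3
  apply le_csInf
  · exact ⟨1 / P2 1, 1, one_pos, rfl⟩
  · rintro c ⟨x, hx, rfl⟩
    rw [le_div_iff₀ (P2_pos hx)]
    exact P2_mul_le hx.le

theorem c3_pos : 0 < c3 := by
  have := le_c3
  linarith

/-- from the definition of `c3` as an infimum -/
theorem c3_mul_P2_le {x : ℝ} (hx : 0 ≤ x) : c3 * P2 x ≤ x := by
  rcases hx.eq_or_lt with h | h
  · subst h
    simp [P2]
  · rw [← le_div_iff₀ (P2_pos h)]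
    unfold c3
    apply csInf_le
    · refine ⟨0, ?_⟩
      rintro c ⟨y, hy, rfl⟩
      exact (div_pos hy (P2_pos hy)).le
    · exact ⟨x, h, rfl⟩

/-- With `λ r = -log (1 - y r)` and `Λ = ∑ λ r`: `∏ (1 - y r) = exp (-Λ)`,
`∑ y r ∏_{s ≠ r} (1 - y s) = exp (-Λ) * ∑ y r / (1 - y r)`, `λ r ≤ y r / (1 - y r)` (from
`log t ≤ t - 1` at `t = 1 / (1 - y r)`), so the left side is at most `P2 Λ ≤ Λ / c3`. -/
theorem two_of_le {R : Type*} [Fintype R] [DecidableEq R] (y : R → ℝ) (h0 : ∀ r, 0 ≤ y r)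
    (h1 : ∀ r, y r < 1) :
    1 - ∏ r, (1 - y r) - ∑ r, y r * ∏ s ∈ Finset.univ.erase r, (1 - y s)
      ≤ (∑ r, y r / (1 - y r)) / c3 := by
  have hpos : ∀ r, 0 < 1 - y r := fun r => by linarith [h1 r]
  have e1 : ∀ r, y r * ∏ s ∈ Finset.univ.erase r, (1 - y s) =
      (∏ s, (1 - y s)) * (y r / (1 - y r)) := by
    intro r
    rw [← Finset.mul_prod_erase Finset.univ (fun s => 1 - y s) (Finset.mem_univ r)]
    field_simp [(hpos r).ne']
  have hS : 0 ≤ ∑ r, y r / (1 - y r) :=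
    Finset.sum_nonneg fun r _ => div_nonneg (h0 r) (hpos r).le
  have hQ : Real.exp (-(∑ r, y r / (1 - y r))) ≤ ∏ s, (1 - y s) := by
    rw [← Finset.sum_neg_distrib, Real.exp_sum]
    apply Finset.prod_le_prod
    · intro r _
      exact (Real.exp_pos _).le
    · intro r _
      have h2 : y r / (1 - y r) + 1 ≤ Real.exp (y r / (1 - y r)) := Real.add_one_le_exp _
      have h3 : y r / (1 - y r) + 1 = 1 / (1 - y r) := by
        field_simp [(hpos r).ne']
        ring
      rw [h3, div_le_iff₀ (hpos r)] at h2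
      rw [Real.exp_neg]
      rw [inv_le_comm₀ (Real.exp_pos _) (hpos r)] 
      rw [inv_le_iff_one_le_mul₀ (hpos r)]
      exact h2
  have h2 := c3_mul_P2_le hS
  rw [mul_comm, ← le_div_iff₀ c3_pos] at h2
  refine le_trans ?_ h2
  rw [Finset.sum_congr rfl (fun r _ => e1 r), ← Finset.mul_sum]
  unfold P2
  nlinarith [mul_le_mul_of_nonneg_right hQ (by linarith : 0 ≤ 1 + ∑ r, y r / (1 - y r))]

end Pool.Agent.GRig
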