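import Pool.Agent.GRig.Clone
import Pool.Agent.GRig.Indep
import Pool.Agent.GRig.Num
import Pool.Agent.GRig.Cut

/-!
The recursion for the probability of a binary tree.

PROOF of `rec_le`. If `v ∉ U` the event is empty. Otherwise put `W = U.erase v` and, for a role
`u : V`, `A u ω := u ∈ W ∧ ω s(v,u) = true ∧ HT (gr ω) L u W` (increasing in `ω`, by `HT_mono`).
`HT (gr ω) (L+1) v U` gives `u₁ ≠ u₂`, disjoint `U₁, U₂ ⊆ W`; let `α` be the bits of `ω` on the
pair `s(v,u₁)` and on the pairs inside `U₁`, `β` the same with `u₂`, `U₂`. They are disjoint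
(`s(v,u₁) ≠ s(v,u₂)`, `v ∉ U₁ ∪ U₂`, `U₁`, `U₂` disjoint; also diagonal pairs `s(x,x)` with
`x ∈ U₁` are not in `U₂`), `A u₁ α` and `A u₂ β` hold by `HT_mono` (first with the graph restricted
to `U₁`, then enlarging `U₁` to `W`; `u₁ ∈ U₁ ⊆ W` since `HT` at any level contains `u₁ ∈ U₁`). So
`clone_le` and `two_of` and `two_of_le` bound the probability by `(∑ u, y u / (1 - y u)) / c3` with
`y u = pr (A u) ≤ p * a` (`pr_bit` for the bit `s(v,u)`: `HT (gr ω) L u W` only depends on pairs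
inside `W` and `v ∉ W`), `y u = 0` for `u ∉ W`. As `p * a ≤ p < 1`, each term is at most
`p * a / (1 - p)`, and there are at most `Fintype.card V` of them.

`pr_HT_le` follows by induction on `L` (`a = θ ^ L ≤ 1`).
-/

namespace Pool.Agent.GRig

open Finset

private theorem HT_mem {V : Type*} [DecidableEq V] {G : SimpleGraph V} {L : ℕ} {v : V}
    {U : Finset V} (h : HT G L v U) : v ∈ U := by
  cases L with
  | zero => exact h
  | succ L => exact h.1

theorem rec_le {V : Type*} [Fintype V] [DecidableEq V] {p : ℝ} (hp0 : 0 ≤ p) (hp1 : p < 1)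
    (L : ℕ) {a : ℝ} (ha0 : 0 ≤ a) (ha1 : a ≤ 1)
    (h : ∀ (v : V) (U : Finset V), pr p (fun ω : Sym2 V → Bool => HT (gr ω) L v U) ≤ a)
    (v : V) (U : Finset V) :
    pr p (fun ω : Sym2 V → Bool => HT (gr ω) (L + 1) v U)
      ≤ (Fintype.card V * p / (1 - p) / c3) * a := by
  classical
  set W : Finset V := U.erase v with hW
  set A : V → (Sym2 V → Bool) → Prop :=
    fun u ω => u ∈ W ∧ ω s(v, u) = true ∧ HT (gr ω) L u W with hAdef
  have hvW : v ∉ W := Finset.notMem_erase v U
  have hmono : ∀ r (ω ω' : Sym2 V → Bool), (∀ i, ω i = true → ω' i = true) → A r ω → A r ω' := by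
    intro r ω ω' hle h
    refine ⟨h.1, hle _ h.2.1, HT_mono ?_ (Finset.Subset.refl _) h.2.2⟩
    intro x y _ _ hxy
    exact ⟨hxy.1, hle _ hxy.2⟩
  have hpa : p * a ≤ p := by nlinarith
  have hy0 : ∀ u, 0 ≤ pr p (A u) := fun u => pr_nonneg hp0 hp1.le _
  have hya : ∀ u, pr p (A u) ≤ p * a := by
    intro u
    have h1 : pr p (A u) ≤ pr p (fun ω : Sym2 V → Bool => ω s(v, u) = true ∧
        HT (gr ω) L u W) := pr_mono hp0 hp1.le (fun ω h => h.2)
    have h2 : pr p (fun ω : Sym2 V → Bool => ω s(v, u) = true ∧ HT (gr ω) L u W)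
        = p * pr p (fun ω : Sym2 V → Bool => HT (gr ω) L u W) := by
      refine pr_bit p s(v, u) _ ?_
      have hone : ∀ ω ω' : Sym2 V → Bool, (∀ j, j ≠ s(v, u) → ω j = ω' j) →
          HT (gr ω) L u W → HT (gr ω') L u W := by
        intro ω ω' hj h
        refine HT_mono ?_ (Finset.Subset.refl _) h
        intro x y hx hy hxy
        have hne : s(x, y) ≠ s(v, u) := by
          intro he
          have h3 : v ∈ s(x, y) := by
            rw [he]
            exact Sym2.mem_mk_left v u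
          rcases Sym2.mem_iff.1 h3 with h4 | h4
          · exact hvW (h4 ▸ hx)
          · exact hvW (h4 ▸ hy)
        exact ⟨hxy.1, by rw [← hj _ hne]; exact hxy.2⟩
      intro ω ω' hj
      exact ⟨hone ω ω' hj, hone ω' ω (fun j hne => (hj j hne).symm)⟩
    have h3 := h u W
    have h4 : p * pr p (fun ω : Sym2 V → Bool => HT (gr ω) L u W) ≤ p * a :=
      mul_le_mul_of_nonneg_left h3 hp0
    linarith
  have hy1 : ∀ u, pr p (A u) < 1 := fun u => by
    have := hya u
    linarith
  have hstep : pr p (fun ω : Sym2 V → Bool => HT (gr ω) (L + 1) v U) ≤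
      pr p (fun ω : Sym2 V → Bool => ∃ r s, r ≠ s ∧ ∃ α β : Sym2 V → Bool,
        (∀ i, α i = true → ω i = true) ∧ (∀ i, β i = true → ω i = true) ∧
        (∀ i, ¬ (α i = true ∧ β i = true)) ∧ A r α ∧ A s β) := by
    refine pr_mono hp0 hp1.le ?_
    rintro ω ⟨hvU, u₁, u₂, U₁, U₂, hne, h1, h2, hdis, ha1, ha2, ht1, ht2⟩
    have hconstr : ∀ (u : V) (T : Finset V), T ⊆ W → (gr ω).Adj v u → HT (gr ω) L u T →
        A u (fun e => decide ((e = s(v, u) ∨ ∀ z ∈ e, z ∈ T) ∧ ω e = true)) := by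
      intro u T hT hadj hht
      refine ⟨hT (HT_mem hht), ?_, ?_⟩
      · exact decide_eq_true ⟨Or.inl rfl, hadj.2⟩
      · refine HT_mono ?_ hT hht
        intro x y hx hy hxy
        refine ⟨hxy.1, decide_eq_true ⟨Or.inr ?_, hxy.2⟩⟩
        intro z hz
        rcases Sym2.mem_iff.1 hz with h4 | h4
        · exact h4 ▸ hx
        · exact h4 ▸ hy
    refine ⟨u₁, u₂, hne, (fun e => decide ((e = s(v, u₁) ∨ ∀ z ∈ e, z ∈ U₁) ∧ ω e = true)),
      (fun e => decide ((e = s(v, u₂) ∨ ∀ z ∈ e, z ∈ U₂) ∧ ω e = true)), ?_, ?_, ?_,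
      hconstr u₁ U₁ h1 ha1 ht1, hconstr u₂ U₂ h2 ha2 ht2⟩
    · intro e he
      exact (of_decide_eq_true he).2
    · intro e he
      exact (of_decide_eq_true he).2
    · rintro e ⟨he1, he2⟩
      have g1 := (of_decide_eq_true he1).1
      have g2 := (of_decide_eq_true he2).1
      rcases g1 with g1 | g1
      · rcases g2 with g2 | g2
        · rw [g1] at g2
          exact hne (Sym2.congr_right.1 g2)
        · exact hvW (h2 (g2 v (by rw [g1]; exact Sym2.mem_mk_left _ _)))
      · rcases g2 with g2 | g2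
        · exact hvW (h1 (g1 v (by rw [g2]; exact Sym2.mem_mk_left _ _)))
        · exact Finset.disjoint_left.1 hdis (g1 _ e.out_fst_mem) (g2 _ e.out_fst_mem)
  have hclone := clone_le hp0 hp1.le A hmono
  have htwo := two_of p A
  have hle := two_of_le (fun r => pr p (A r)) hy0 hy1
  have hc3 := c3_pos
  have h1p : 0 < 1 - p := by linarith
  have hsum : ∑ r, pr p (A r) / (1 - pr p (A r)) ≤ Fintype.card V * (p * a / (1 - p)) := by
    have h1 : ∑ r : V, pr p (A r) / (1 - pr p (A r)) ≤ ∑ _r : V, p * a / (1 - p) := by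
      refine Finset.sum_le_sum fun r _ => ?_
      refine div_le_div₀ (mul_nonneg hp0 ha0) (hya r) h1p ?_
      have := hya r
      linarith
    refine h1.trans (le_of_eq ?_)
    rw [Finset.sum_const, Finset.card_univ, nsmul_eq_mul]
  calc pr p (fun ω : Sym2 V → Bool => HT (gr ω) (L + 1) v U)
      ≤ _ := hstep
    _ ≤ _ := hclone
    _ = _ := htwo
    _ ≤ _ := hle
    _ ≤ (Fintype.card V * (p * a / (1 - p))) / c3 := div_le_div_of_nonneg_right hsum hc3.le
    _ = (Fintype.card V * p / (1 - p) / c3) * a := by ring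

theorem pr_HT_le {V : Type*} [Fintype V] [DecidableEq V] {p : ℝ} (hp0 : 0 ≤ p) (hp1 : p < 1)
    (hθ : Fintype.card V * p / (1 - p) / c3 ≤ 1) (L : ℕ) (v : V) (U : Finset V) :
    pr p (fun ω : Sym2 V → Bool => HT (gr ω) L v U)
      ≤ (Fintype.card V * p / (1 - p) / c3) ^ L := by
  have hc3 := c3_pos
  have h1p : 0 < 1 - p := by linarith
  have hθ0 : 0 ≤ Fintype.card V * p / (1 - p) / c3 := by positivity
  induction L generalizing v U with
  | zero =>
    rw [pow_zero]
    exact pr_le_one hp0 hp1.le _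
  | succ L ih =>
    have h1 := rec_le hp0 hp1 L (pow_nonneg hθ0 L) (pow_le_one₀ hθ0 hθ) ih v U
    rw [pow_succ']
    exact h1

end Pool.Agent.GRig
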