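import Pool.Agent.GRig.Rigid
import Pool.Agent.GRig.Cut
import Pool.Agent.GRig.ProbUP
import Pool.Agent.GRig.ProbBall
import Pool.Agent.GRig.Rec
import Pool.Agent.GRig.Conv

/-!
Assembly.

PROOF of `tendsto_zero`. Let `θ = C / c3 < 1`, fix `ε > 0`, take `L` with
`((1 + θ) / 2) ^ L ≤ ε δ / 4`. For `n` large `θ_n := n * (C/n) / (1 - C/n) / c3 ≤ (1 + θ)/2 < 1`.
Call `v` bad if `¬ UP (gr ω) v L`, or the ball `B_v = {x | ∃ l, RP (gr ω) v (x :: l) ∧ l.length < L}`
has at least `δ n / 2` elements, or `HT (gr ω) L v univ`. By `pr_not_UP_le`, `pr_ball_le`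
(`t = δ n / 2`) and `pr_HT_le` a vertex is bad with probability at most
`K / n + 2 K' / (δ n) + ε δ / 4 ≤ ε δ / 2` for `n` large. If `v ∈ V'` is not bad, `exists_cut` gives
`S ∋ v`, `S ⊆ B_v`, so `V' \ S` has more than `δ n / 2 ≥ 2` elements if `V'.ncard ≥ δ n`, and
`not_rigid_of_cut` shows that `V'` does not induce a rigid graph. Hence `HasRigid n δ` implies that
all vertices of `V'` are bad, so there are at least `δ n` bad vertices, which by `pr_markov` has
probability at most `n * (ε δ / 2) / (δ n) = ε / 2 < ε`. (`n` large also means `δ n ≥ 4`, `n > C`.)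

PROOF of `c3_le_Cstar`: let `Good C` with `0 < C`. If `C < c3` the probabilities tend to `0` and to
`1`, a contradiction; so `c3 ≤ C` and `ENNReal.ofReal c3 ≤ ENNReal.ofReal C`.
-/

namespace Pool.Agent.GRig

open Finset

/-- bad vertices -/
def Bad (n : ℕ) (δ : ℝ) (L : ℕ) (G : SimpleGraph (Fin n)) (v : Fin n) : Prop :=
  ¬ UP G v L ∨ δ * n / 2 ≤ (({x | ∃ l, RP G v (x :: l) ∧ l.length < L} : Set (Fin n)).ncard : ℝ) ∨
    HT G L v Finset.univ

open Classical in
theorem bad_of_rigid {n : ℕ} {δ : ℝ} {L : ℕ} (hδ : 4 ≤ δ * n) {G : SimpleGraph (Fin n)}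
    (h : HasRigid n δ G) : δ * n ≤ ((Finset.univ.filter (fun v => Bad n δ L G v)).card : ℝ) := by
  obtain ⟨V', hcard, hrig⟩ := h
  have key : ∀ v ∈ V', Bad n δ L G v := by
    intro v hv
    by_contra hb
    unfold Bad at hb
    push Not at hb
    obtain ⟨hU, hball, hT⟩ := hb
    obtain ⟨S, hvS, hSb, h1, h2⟩ := exists_cut G v L hU hT
    have hsub : S ⊆ {x | ∃ l, RP G v (x :: l) ∧ l.length < L} := fun x hx => hSb x hx
    have hS : (S.ncard : ℝ) < δ * n / 2 :=
      lt_of_le_of_lt (by exact_mod_cast Set.ncard_le_ncard hsub (Set.toFinite _)) hball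
    have hdiff : V'.ncard ≤ (V' \ S).ncard + S.ncard := by
      have := Set.le_ncard_sdiff S V' (Set.toFinite _)
      omega
    have hdiff' : (V'.ncard : ℝ) ≤ (V' \ S).ncard + S.ncard := by exact_mod_cast hdiff
    have h2' : (1 : ℝ) < (V' \ S).ncard := by linarith
    have h3 : 1 < (V' \ S).ncard := by exact_mod_cast h2'
    obtain ⟨a, b, ha, hb, hab⟩ := (Set.one_lt_ncard_iff (Set.toFinite _)).1 h3
    exact not_rigid_of_cut G S V' h1 h2 ⟨v, hv, hvS⟩ ⟨a, ha.1, b, hb.1, ha.2, hb.2, hab⟩ hrig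
  refine le_trans hcard ?_
  have : V' ⊆ ((Finset.univ.filter (fun v => Bad n δ L G v) : Finset (Fin n)) : Set (Fin n)) := by
    intro v hv
    simpa using key v hv
  have h2 := Set.ncard_le_ncard this (Set.toFinite _)
  rw [Set.ncard_coe_finset] at h2
  exact_mod_cast h2

theorem pr_bad_le {C : ℝ} (hC : 0 < C) (L : ℕ) {δ : ℝ} (hδ : 0 < δ) :
    ∃ K : ℝ, 0 ≤ K ∧ ∀ n : ℕ, 0 < n → C < n → n * (C / n) / (1 - C / n) / c3 ≤ 1 → ∀ v : Fin n,
      pr (C / n) (fun ω : Sym2 (Fin n) → Bool => Bad n δ L (gr ω) v)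
        ≤ K / n + (n * (C / n) / (1 - C / n) / c3) ^ L := by
  obtain ⟨K₁, hK₁, h₁⟩ := pr_not_UP_le C hC.le L
  obtain ⟨K₂, hK₂, h₂⟩ := pr_ball_le C hC.le L
  refine ⟨K₁ + 2 * K₂ / δ, by positivity, ?_⟩
  intro n hn hCn hθ v
  have hn' : (0 : ℝ) < n := by exact_mod_cast hn
  have hp0 : 0 ≤ C / n := by positivity
  have hp1 : C / n < 1 := by rw [div_lt_one hn']; exact hCn
  have hpos : 0 < δ * n / 2 := by positivity
  have e1 := h₁ n hn hCn.le v
  have e2 := h₂ n hn hCn.le v (δ * n / 2) hpos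
  have e3 := pr_HT_le (V := Fin n) hp0 hp1 (by simpa using hθ) L v Finset.univ
  have e4 : pr (C / n) (fun ω : Sym2 (Fin n) → Bool => Bad n δ L (gr ω) v) ≤
      pr (C / n) (fun ω : Sym2 (Fin n) → Bool => ¬ UP (gr ω) v L) +
      pr (C / n) (fun ω : Sym2 (Fin n) → Bool =>
        (δ * n / 2 ≤ (({x | ∃ l, RP (gr ω) v (x :: l) ∧ l.length < L} : Set (Fin n)).ncard : ℝ)) ∨
          HT (gr ω) L v Finset.univ) :=
    pr_or_le hp0 hp1.le _ _
  have e5 := pr_or_le hp0 hp1.le
    (fun ω : Sym2 (Fin n) → Bool =>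
        (δ * n / 2 ≤ (({x | ∃ l, RP (gr ω) v (x :: l) ∧ l.length < L} : Set (Fin n)).ncard : ℝ)))
    (fun ω => HT (gr ω) L v Finset.univ)
  simp only [Fintype.card_fin] at e3
  have e6 : K₂ / (δ * n / 2) = 2 * K₂ / δ / n := by
    field_simp
  rw [e6] at e2
  have e7 : (K₁ + 2 * K₂ / δ) / n = K₁ / n + 2 * K₂ / δ / n := by
    rw [add_div]
  rw [e7]
  linarith

theorem theta_tendsto {C : ℝ} :
    Filter.Tendsto (fun n : ℕ => (n : ℝ) * (C / n) / (1 - C / n) / c3) Filter.atTop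
      (nhds (C / c3)) := by
  have h0 : Filter.Tendsto (fun n : ℕ => C / (n : ℝ)) Filter.atTop (nhds 0) :=
    tendsto_const_div_atTop_nhds_zero_nat C
  have h1 : Filter.Tendsto (fun n : ℕ => C / (1 - C / (n : ℝ)) / c3) Filter.atTop
      (nhds (C / (1 - 0) / c3)) :=
    ((tendsto_const_nhds.div (tendsto_const_nhds.sub h0) (by norm_num))).div_const _
  rw [sub_zero, div_one] at h1
  refine h1.congr' ?_
  filter_upwards [Filter.eventually_gt_atTop 0] with n hn
  have hn' : (n : ℝ) ≠ 0 := by exact_mod_cast hn.ne'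
  rw [mul_div_cancel₀ _ hn']

theorem tendsto_zero {C : ℝ} (hC : 0 < C) (h : C < c3) {δ : ℝ} (hδ : 0 < δ) :
    Filter.Tendsto (fun n : ℕ => prob n (C / n) (HasRigid n δ)) Filter.atTop (nhds 0) := by
  have hc3 : 0 < c3 := c3_pos
  rw [tendsto_order]
  constructor
  · intro a ha
    filter_upwards [Filter.eventually_gt_atTop (Nat.ceil C)] with n hn
    have hCn : C < n := lt_of_le_of_lt (Nat.le_ceil C) (by exact_mod_cast hn)
    have hn0 : (0 : ℝ) < n := lt_trans hC hCn
    rw [prob_eq]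
    exact lt_of_lt_of_le ha (pr_nonneg (by positivity) (by rw [div_le_one hn0]; exact hCn.le) _)
  · intro ε hε
    set θ : ℝ := (1 + C / c3) / 2 with hθ
    have hCc : C / c3 < 1 := by rw [div_lt_one hc3]; exact h
    have hCc0 : 0 < C / c3 := by positivity
    have hθ1 : θ < 1 := by rw [hθ]; linarith
    have hθ0 : 0 < θ := by rw [hθ]; linarith
    have hθC : C / c3 < θ := by rw [hθ]; linarith
    obtain ⟨L, hL⟩ := exists_pow_lt_of_lt_one (show 0 < ε * δ / 4 by positivity) hθ1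
    obtain ⟨K, hK0, hK⟩ := pr_bad_le hC L hδ
    have ev1 : ∀ᶠ n : ℕ in Filter.atTop, (n : ℝ) * (C / n) / (1 - C / n) / c3 < θ :=
      (theta_tendsto (C := C)).eventually_lt_const hθC
    have ev2 : ∀ᶠ n : ℕ in Filter.atTop, K / (n : ℝ) < ε * δ / 4 :=
      (tendsto_const_div_atTop_nhds_zero_nat K).eventually_lt_const (by positivity)
    have ev3 : ∀ᶠ n : ℕ in Filter.atTop, (4 : ℝ) / (n : ℝ) < δ :=
      (tendsto_const_div_atTop_nhds_zero_nat (4 : ℝ)).eventually_lt_const hδ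
    filter_upwards [Filter.eventually_gt_atTop (Nat.ceil C), ev1, ev2, ev3] with n hn h1 h2 h3
    have hCn : C < n := lt_of_le_of_lt (Nat.le_ceil C) (by exact_mod_cast hn)
    have hn0 : (0 : ℝ) < n := lt_trans hC hCn
    have hnn : 0 < n := by exact_mod_cast hn0
    have hp0 : 0 ≤ C / n := by positivity
    have hp1 : C / n < 1 := by rw [div_lt_one hn0]; exact hCn
    have hδn : 4 ≤ δ * n := by
      rw [div_lt_iff₀ hn0] at h3
      exact h3.le
    have hθn0 : 0 ≤ (n : ℝ) * (C / n) / (1 - C / n) / c3 := by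
      have : 0 < 1 - C / n := by linarith
      positivity
    rw [prob_eq]
    classical
    have s1 : pr (C / n) (fun ω : Sym2 (Fin n) → Bool => HasRigid n δ (gr ω)) ≤
        pr (C / n) (fun ω : Sym2 (Fin n) → Bool =>
          δ * n ≤ ((Finset.univ.filter (fun v => Bad n δ L (gr ω) v)).card : ℝ)) :=
      pr_mono hp0 hp1.le (fun ω hω => bad_of_rigid hδn hω)
    have s2 := pr_markov (ι := Sym2 (Fin n)) hp0 hp1.le (Finset.univ : Finset (Fin n))
      (fun v ω => Bad n δ L (gr ω) v) (show 0 < δ * n by positivity)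
    have s3 : ∑ v : Fin n, pr (C / n) (fun ω : Sym2 (Fin n) → Bool => Bad n δ L (gr ω) v) ≤
        n * (ε * δ / 2) := by
      calc ∑ v : Fin n, pr (C / n) (fun ω : Sym2 (Fin n) → Bool => Bad n δ L (gr ω) v)
          ≤ ∑ v : Fin n, (ε * δ / 2) := by
            apply Finset.sum_le_sum
            intro v _
            have := hK n hnn hCn (h1.le.trans hθ1.le) v
            have h4 : ((n : ℝ) * (C / n) / (1 - C / n) / c3) ^ L ≤ θ ^ L :=
              pow_le_pow_left₀ hθn0 h1.le L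
            linarith
        _ = n * (ε * δ / 2) := by simp
    have s4 : (∑ v : Fin n, pr (C / n) (fun ω : Sym2 (Fin n) → Bool => Bad n δ L (gr ω) v)) /
        (δ * n) ≤ ε / 2 := by
      rw [div_le_iff₀ (by positivity)]
      refine s3.trans (le_of_eq ?_)
      ring
    refine lt_of_le_of_lt (s1.trans ?_) (show ε / 2 < ε by linarith)
    refine le_trans ?_ s4
    convert s2 using 3

theorem c3_le_Cstar : ENNReal.ofReal c3 ≤ Cstar := by
  unfold Cstar
  apply le_sInf
  rintro c ⟨C, hC, ⟨δ, hδ, hlim⟩, rfl⟩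
  apply ENNReal.ofReal_le_ofReal
  by_contra hlt
  push Not at hlt
  have h0 := tendsto_zero hC hlt hδ
  have := tendsto_nhds_unique h0 hlim
  norm_num at this

end Pool.Agent.GRig
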