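import Pool.Agent.GRig.Defs

/-!
Basic facts on the product probability `pr` (independent bits with success probability `p`).
-/

namespace Pool.Agent.GRig

open Finset

variable {ι : Type*} [Fintype ι] [DecidableEq ι]

theorem wt_nonneg {p : ℝ} (h0 : 0 ≤ p) (h1 : p ≤ 1) (ω : ι → Bool) : 0 ≤ wt p ω := by
  unfold wt
  refine Finset.prod_nonneg fun i _ => ?_
  unfold bw
  split_ifs <;> linarith

theorem pr_true (p : ℝ) : pr p (fun _ : ι → Bool => True) = 1 := by
  unfold pr
  simp only [if_true]
  unfold wt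
  have h := Finset.prod_univ_sum (fun _ : ι => (Finset.univ : Finset Bool)) (fun _ b => bw p b)
  rw [Fintype.piFinset_univ] at h
  rw [← h]
  have h2 : (∑ b : Bool, bw p b) = 1 := by
    simp [bw]
  rw [Finset.prod_congr rfl (fun i _ => h2)]
  simp

theorem pr_false (p : ℝ) : pr p (fun _ : ι → Bool => False) = 0 := by
  unfold pr
  simp

theorem pr_nonneg {p : ℝ} (h0 : 0 ≤ p) (h1 : p ≤ 1) (A : (ι → Bool) → Prop) : 0 ≤ pr p A := by
  unfold pr
  refine Finset.sum_nonneg fun ω _ => ?_
  split_ifs
  · exact wt_nonneg h0 h1 ω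
  · exact le_rfl

theorem pr_mono {p : ℝ} (h0 : 0 ≤ p) (h1 : p ≤ 1) {A B : (ι → Bool) → Prop}
    (h : ∀ ω, A ω → B ω) : pr p A ≤ pr p B := by
  unfold pr
  refine Finset.sum_le_sum fun ω _ => ?_
  by_cases hA : A ω
  · simp [hA, h ω hA]
  · by_cases hB : B ω
    · simp [hA, hB, wt_nonneg h0 h1 ω]
    · simp [hA, hB]

theorem pr_le_one {p : ℝ} (h0 : 0 ≤ p) (h1 : p ≤ 1) (A : (ι → Bool) → Prop) : pr p A ≤ 1 := by
  rw [← pr_true (ι := ι) p]
  exact pr_mono h0 h1 (fun _ _ => trivial)

theorem pr_or_le {p : ℝ} (h0 : 0 ≤ p) (h1 : p ≤ 1) (A B : (ι → Bool) → Prop) :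
    pr p (fun ω => A ω ∨ B ω) ≤ pr p A + pr p B := by
  unfold pr
  rw [← Finset.sum_add_distrib]
  refine Finset.sum_le_sum fun ω _ => ?_
  have hw := wt_nonneg h0 h1 ω
  by_cases hA : A ω <;> by_cases hB : B ω <;> simp [hA, hB, hw]

theorem pr_exists_le {p : ℝ} (h0 : 0 ≤ p) (h1 : p ≤ 1) {κ : Type*} (s : Finset κ)
    (A : κ → (ι → Bool) → Prop) :
    pr p (fun ω => ∃ k ∈ s, A k ω) ≤ ∑ k ∈ s, pr p (A k) := by
  classical
  induction s using Finset.induction_on with
  | empty => simp [pr_false]
  | insert a s ha ih =>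
    rw [Finset.sum_insert ha]
    have h2 : pr p (fun ω => ∃ k ∈ insert a s, A k ω) ≤
        pr p (fun ω => A a ω ∨ ∃ k ∈ s, A k ω) := by
      refine pr_mono h0 h1 fun ω hω => ?_
      obtain ⟨k, hk, hk2⟩ := hω
      rcases Finset.mem_insert.mp hk with h | h
      · left; rw [← h]; exact hk2
      · right; exact ⟨k, h, hk2⟩
    have h3 := pr_or_le h0 h1 (A a) (fun ω => ∃ k ∈ s, A k ω)
    linarith only [h2, h3, ih]

theorem pr_not (p : ℝ) (A : (ι → Bool) → Prop) : pr p (fun ω => ¬ A ω) = 1 - pr p A := by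
  have h : pr p (fun ω => ¬ A ω) + pr p A = pr p (fun _ : ι → Bool => True) := by
    unfold pr
    rw [← Finset.sum_add_distrib]
    refine Finset.sum_congr rfl fun ω _ => ?_
    by_cases hA : A ω <;> simp [hA]
  rw [pr_true] at h
  linarith only [h]

/-- `p ≤ 1` is not needed -/
theorem pr_all (p : ℝ) (F : Finset ι) : pr p (fun ω => ∀ e ∈ F, ω e = true) = p ^ F.card := by
  classical
  have h := Finset.prod_univ_sum (fun _ : ι => (Finset.univ : Finset Bool))
    (fun i b => if i ∈ F then (if b = true then p else 0) else bw p b)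
  rw [Fintype.piFinset_univ] at h
  have h2 : ∀ i : ι, (∑ b : Bool, if i ∈ F then (if b = true then p else 0) else bw p b) =
      if i ∈ F then p else 1 := by
    intro i
    by_cases hi : i ∈ F <;> simp [hi, bw]
  rw [Finset.prod_congr rfl (fun i _ => h2 i)] at h
  have h3 : (∏ i : ι, if i ∈ F then p else 1) = p ^ F.card := by
    rw [Finset.prod_ite_mem]
    simp
  rw [h3] at h
  rw [h]
  unfold pr
  refine Finset.sum_congr rfl fun ω _ => ?_
  by_cases hA : ∀ e ∈ F, ω e = true
  · rw [if_pos hA]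
    unfold wt
    refine Finset.prod_congr rfl fun i _ => ?_
    by_cases hi : i ∈ F
    · simp [hi, hA i hi, bw]
    · simp [hi]
  · rw [if_neg hA]
    push Not at hA
    obtain ⟨e, he, he2⟩ := hA
    symm
    refine Finset.prod_eq_zero (Finset.mem_univ e) ?_
    simp [he, he2]

open Classical in
/-- Markov's inequality for a number of events -/
theorem pr_markov {p : ℝ} (h0 : 0 ≤ p) (h1 : p ≤ 1) {κ : Type*} (s : Finset κ)
    (A : κ → (ι → Bool) → Prop) {t : ℝ} (ht : 0 < t) :
    pr p (fun ω => t ≤ ((s.filter (fun k => A k ω)).card : ℝ)) ≤ (∑ k ∈ s, pr p (A k)) / t := by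
  rw [le_div_iff₀ ht]
  unfold pr
  rw [Finset.sum_mul, Finset.sum_comm]
  refine Finset.sum_le_sum fun ω _ => ?_
  have hw := wt_nonneg h0 h1 ω
  have e1 : (∑ k ∈ s, if A k ω then wt p ω else 0) =
      ((s.filter (fun k => A k ω)).card : ℝ) * wt p ω := by
    rw [← Finset.sum_filter, Finset.sum_const, nsmul_eq_mul]
  rw [e1]
  split_ifs with h
  · rw [mul_comm]
    exact mul_le_mul_of_nonneg_right h hw
  · rw [zero_mul]
    positivity

/-- an event that does not depend on bit `i` is independent of bit `i` -/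
theorem pr_bit (p : ℝ) (i : ι) (A : (ι → Bool) → Prop)
    (hA : ∀ ω ω' : ι → Bool, (∀ j, j ≠ i → ω j = ω' j) → (A ω ↔ A ω')) :
    pr p (fun ω => ω i = true ∧ A ω) = p * pr p A := by
  classical
  set F : (ι → Bool) → ℝ := fun ω => if A ω then ∏ j ∈ Finset.univ.erase i, bw p (ω j) else 0
    with hF
  have hwt : ∀ ω : ι → Bool, wt p ω = bw p (ω i) * ∏ j ∈ Finset.univ.erase i, bw p (ω j) := by
    intro ω
    unfold wt
    rw [Finset.mul_prod_erase Finset.univ (fun j => bw p (ω j)) (Finset.mem_univ i)]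
  have hinv : Function.Involutive (fun ω : ι → Bool => Function.update ω i (!ω i)) := by
    intro ω
    funext j
    by_cases hj : j = i
    · subst hj; simp
    · simp [Function.update_of_ne hj]
  have hFinv : ∀ ω : ι → Bool, F (Function.update ω i (!ω i)) = F ω := by
    intro ω
    have h1 : A (Function.update ω i (!ω i)) ↔ A ω :=
      hA _ _ (fun j hj => by simp [Function.update_of_ne hj])
    have h2 : ∏ j ∈ Finset.univ.erase i, bw p (Function.update ω i (!ω i) j) =
        ∏ j ∈ Finset.univ.erase i, bw p (ω j) := by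
      refine Finset.prod_congr rfl fun j hj => ?_
      rw [Function.update_of_ne (Finset.ne_of_mem_erase hj)]
    simp only [hF, h1, h2]
  have key : ∀ g : Bool → ℝ, 2 * ∑ ω : ι → Bool, g (ω i) * F ω =
      (g true + g false) * ∑ ω : ι → Bool, F ω := by
    intro g
    have h1 : ∑ ω : ι → Bool, g (ω i) * F ω = ∑ ω : ι → Bool, g (!ω i) * F ω := by
      rw [← Equiv.sum_comp (hinv.toPerm _) (fun ω : ι → Bool => g (ω i) * F ω)]
      refine Finset.sum_congr rfl fun ω _ => ?_
      have e1 : (hinv.toPerm _) ω = Function.update ω i (!ω i) := rfl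
      rw [e1, hFinv, Function.update_self]
    rw [two_mul]
    nth_rewrite 2 [h1]
    rw [← Finset.sum_add_distrib, Finset.mul_sum]
    refine Finset.sum_congr rfl fun ω _ => ?_
    cases ω i <;> simp <;> ring
  have hk1 := key (bw p)
  have hk2 := key (fun b => if b = true then p else 0)
  have e1 : pr p A = ∑ ω : ι → Bool, bw p (ω i) * F ω := by
    unfold pr
    refine Finset.sum_congr rfl fun ω _ => ?_
    by_cases h : A ω
    · simp only [hF, h, if_true]; rw [hwt ω]
    · simp [hF, h]
  have e2 : pr p (fun ω => ω i = true ∧ A ω) =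
      ∑ ω : ι → Bool, (if ω i = true then p else 0) * F ω := by
    unfold pr
    refine Finset.sum_congr rfl fun ω _ => ?_
    by_cases h : A ω
    · by_cases h2 : ω i = true
      · simp only [hF, h, h2, and_self, if_true]; rw [hwt ω, h2]; simp [bw]
      · simp [h2]
    · simp [hF, h]
  have hb : bw p true + bw p false = 1 := by simp [bw]
  rw [hb, one_mul] at hk1
  simp only [if_true, Bool.false_eq_true, if_false, add_zero] at hk2
  rw [e1, e2]
  have h3 : 2 * (∑ ω : ι → Bool, (if ω i = true then p else 0) * F ω) =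
      2 * (p * ∑ ω : ι → Bool, bw p (ω i) * F ω) := by
    rw [hk2, ← hk1]; ring
  linarith only [h3]

/-- events that depend on one block each of a family of independent blocks -/
theorem pr_blocks (p : ℝ) {R : Type*} [Fintype R] [DecidableEq R]
    (A : R → (ι → Bool) → Prop) :
    pr p (fun η : ι × R → Bool => ∀ r, A r (fun i => η (i, r))) = ∏ r, pr p (A r) := by
  classical
  unfold pr
  have h := Finset.prod_univ_sum (fun _ : R => (Finset.univ : Finset (ι → Bool)))
    (fun r ω => if A r ω then wt p ω else 0)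
  rw [Fintype.piFinset_univ] at h
  rw [h]
  let e : (ι × R → Bool) ≃ (R → ι → Bool) :=
    { toFun := fun η r i => η (i, r)
      invFun := fun θ q => θ q.2 q.1
      left_inv := fun η => by funext q; rfl
      right_inv := fun θ => by funext r i; rfl }
  rw [← Equiv.sum_comp e]
  refine Finset.sum_congr rfl fun η _ => ?_
  have e1 : ∀ r, e η r = fun i => η (i, r) := fun r => rfl
  simp only [e1]
  by_cases hA : ∀ r, A r (fun i => η (i, r))
  · rw [if_pos hA]
    have h2 : ∀ r : R, (if A r (fun i => η (i, r)) then wt p (fun i => η (i, r)) else 0) =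
        wt p (fun i => η (i, r)) := fun r => if_pos (hA r)
    rw [Finset.prod_congr rfl (fun r _ => h2 r)]
    unfold wt
    rw [Fintype.prod_prod_type, Finset.prod_comm]
  · rw [if_neg hA]
    push Not at hA
    obtain ⟨r, hr⟩ := hA
    symm
    refine Finset.prod_eq_zero (Finset.mem_univ r) ?_
    rw [if_neg hr]

end Pool.Agent.GRig
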