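import Pool.Agent.GRig.Defs

/-!
Matching cuts are an obstruction.

PROOF of `not_rigid_of_cut`. `V` is finite, so there is an injection `i : V → ℕ` (use
`Fintype.equivFin` or `Finite.exists_equiv_fin`, or `Encodable`/`Countable`). For `x ∈ S` call `x`
matched if some `y ∈ V'`, `y ∉ S`, is adjacent to `x`; then this `y =: m x` is unique by `h1`, and
different matched `x` have different `m x` by `h2`. On `V'` put
`f y = 8 * i y` for `y ∉ S`, `f x = 8 * i (m x) + 1` for matched `x ∈ S`, `f x = 8 * i x + 3` for
unmatched `x ∈ S`, and `g = f` off `S`, `g = f - 2` on `S`. Both are injective (values mod 8: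
`0, 1, 3`, resp. `0, -1, 1`). Edges inside `S` or inside the complement keep their length, a cut
edge `x y` has `y = m x`, so `f x - f y = 1` and `g x - g y = -1`. Finally take `x ∈ V' ∩ S` and
`y ∈ V' \ S` with `y` not the partner of `x` (one of `a`, `b`): then `f x - f y ≠ 1`
(it is `8 * (i (m x) - i y) + 1` or `8 * (..) + 3`), while `|t| = |t - 2|` forces `t = 1`.
-/

namespace Pool.Agent.GRig

theorem not_rigid_of_cut {V : Type*} [Finite V] (G : SimpleGraph V) (S V' : Set V)
    (h1 : ∀ x ∈ S, ∀ y z, y ∉ S → z ∉ S → G.Adj x y → G.Adj x z → y = z)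
    (h2 : ∀ y, y ∉ S → ∀ x z, x ∈ S → z ∈ S → G.Adj y x → G.Adj y z → x = z)
    (hv : ∃ v ∈ V', v ∈ S) (hab : ∃ a ∈ V', ∃ b ∈ V', a ∉ S ∧ b ∉ S ∧ a ≠ b) :
    ¬ GloballyRigid (G.induce V') := by
  classical
  intro hG
  let i : V → ℤ := fun v => ((Finite.equivFin V v : ℕ) : ℤ)
  have hi : ∀ u v, i u = i v → u = v := by
    intro u v h
    have h3 : (Finite.equivFin V u : ℕ) = (Finite.equivFin V v : ℕ) := Int.ofNat.inj h
    exact (Finite.equivFin V).injective (Fin.ext h3)
  let Q : V → Prop := fun x => ∃ y, y ∉ S ∧ y ∈ V' ∧ G.Adj x y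
  let mt : V → V := fun x => if h : Q x then h.choose else x
  have hmt : ∀ x, Q x → mt x ∉ S ∧ mt x ∈ V' ∧ G.Adj x (mt x) := by
    intro x h
    have h3 := h.choose_spec
    show (if h : Q x then h.choose else x) ∉ S ∧ (if h : Q x then h.choose else x) ∈ V' ∧
      G.Adj x (if h : Q x then h.choose else x)
    rw [dif_pos h]
    exact h3
  let F : V → ℤ := fun v => if v ∉ S then 8 * i v else if Q v then 8 * i (mt v) + 1 else 8 * i v + 3
  let K : V → ℤ := fun v => if v ∉ S then 8 * i v else if Q v then 8 * i (mt v) - 1 else 8 * i v + 1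
  have F0 : ∀ v, v ∉ S → F v = 8 * i v := fun v h => if_pos h
  have F1 : ∀ v, v ∈ S → Q v → F v = 8 * i (mt v) + 1 := by
    intro v h h'
    show (if v ∉ S then 8 * i v else if Q v then 8 * i (mt v) + 1 else 8 * i v + 3) = _
    rw [if_neg (not_not.2 h), if_pos h']
  have F2 : ∀ v, v ∈ S → ¬ Q v → F v = 8 * i v + 3 := by
    intro v h h'
    show (if v ∉ S then 8 * i v else if Q v then 8 * i (mt v) + 1 else 8 * i v + 3) = _
    rw [if_neg (not_not.2 h), if_neg h']
  have K0 : ∀ v, v ∉ S → K v = 8 * i v := fun v h => if_pos h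
  have K1 : ∀ v, v ∈ S → K v = F v - 2 := by
    intro v h
    by_cases h' : Q v
    · rw [F1 v h h']
      show (if v ∉ S then 8 * i v else if Q v then 8 * i (mt v) - 1 else 8 * i v + 1) = _
      rw [if_neg (not_not.2 h), if_pos h']
      ring
    · rw [F2 v h h']
      show (if v ∉ S then 8 * i v else if Q v then 8 * i (mt v) - 1 else 8 * i v + 1) = _
      rw [if_neg (not_not.2 h), if_neg h']
      ring
  have hmtinj : ∀ u v, u ∈ S → v ∈ S → Q u → Q v → mt u = mt v → u = v := by
    intro u v hu hv hQu hQv h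
    have a1 := hmt u hQu
    have a2 := hmt v hQv
    rw [← h] at a2
    exact h2 (mt u) a1.1 u v hu hv a1.2.2.symm a2.2.2.symm
  have hFinj : ∀ u v, F u = F v → u = v := by
    intro u v h
    by_cases hu : u ∈ S
    · by_cases hv : v ∈ S
      · by_cases hQu : Q u
        · by_cases hQv : Q v
          · rw [F1 u hu hQu, F1 v hv hQv] at h
            exact hmtinj u v hu hv hQu hQv (hi _ _ (by omega))
          · rw [F1 u hu hQu, F2 v hv hQv] at h
            omega
        · by_cases hQv : Q v
          · rw [F2 u hu hQu, F1 v hv hQv] at h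
            omega
          · rw [F2 u hu hQu, F2 v hv hQv] at h
            exact hi _ _ (by omega)
      · rw [F0 v hv] at h
        by_cases hQu : Q u
        · rw [F1 u hu hQu] at h
          omega
        · rw [F2 u hu hQu] at h
          omega
    · rw [F0 u hu] at h
      by_cases hv : v ∈ S
      · by_cases hQv : Q v
        · rw [F1 v hv hQv] at h
          omega
        · rw [F2 v hv hQv] at h
          omega
      · rw [F0 v hv] at h
        exact hi _ _ (by omega)
  have hKinj : ∀ u v, K u = K v → u = v := by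
    intro u v h
    by_cases hu : u ∈ S
    · rw [K1 u hu] at h
      by_cases hv : v ∈ S
      · rw [K1 v hv] at h
        exact hFinj u v (by omega)
      · rw [K0 v hv] at h
        by_cases hQu : Q u
        · rw [F1 u hu hQu] at h
          omega
        · rw [F2 u hu hQu] at h
          omega
    · rw [K0 u hu] at h
      by_cases hv : v ∈ S
      · rw [K1 v hv] at h
        by_cases hQv : Q v
        · rw [F1 v hv hQv] at h
          omega
        · rw [F2 v hv hQv] at h
          omega
      · rw [K0 v hv] at h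
        exact hi _ _ (by omega)
  have hcut : ∀ x y, x ∈ S → y ∉ S → y ∈ V' → G.Adj x y → F x - F y = 1 := by
    intro x y hx hy hyV hxy
    have hQ : Q x := ⟨y, hy, hyV, hxy⟩
    have h3 := hmt x hQ
    have h4 : y = mt x := h1 x hx y (mt x) hy h3.1 hxy h3.2.2
    rw [F1 x hx hQ, F0 y hy, ← h4]
    ring
  have hmain := hG (fun v => (F v : ℝ)) (fun v => (K v : ℝ))
    (by
      intro u v h
      have h3 : F u = F v := Int.cast_injective (α := ℝ) h
      exact Subtype.ext (hFinj _ _ h3))
    (by
      intro u v h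
      have h3 : K u = K v := Int.cast_injective (α := ℝ) h
      exact Subtype.ext (hKinj _ _ h3))
    (by
      rintro ⟨x, hx⟩ ⟨y, hy⟩ hxy
      have hxy' : G.Adj x y := hxy
      show |(F x : ℝ) - F y| = |(K x : ℝ) - K y|
      have h3 : |F x - F y| = |K x - K y| := by
        by_cases hxS : x ∈ S
        · rw [K1 x hxS]
          by_cases hyS : y ∈ S
          · rw [K1 y hyS]
            congr 1
            ring
          · rw [K0 y hyS]
            have h4 := hcut x y hxS hyS hy hxy'
            rw [F0 y hyS] at h4 ⊢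
            have h5 : F x - 2 - 8 * i y = -1 := by omega
            rw [h4, h5]
            norm_num
        · by_cases hyS : y ∈ S
          · rw [K1 y hyS, K0 x hxS]
            have h4 := hcut y x hyS hxS hx hxy'.symm
            rw [F0 x hxS] at h4 ⊢
            have h5 : 8 * i x - F y = -1 := by omega
            have h6 : 8 * i x - (F y - 2) = 1 := by omega
            rw [h5, h6]
            norm_num
          · rw [K0 x hxS, K0 y hyS, F0 x hxS, F0 y hyS]
      exact_mod_cast h3)
  obtain ⟨v, hvV, hvS⟩ := hv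
  obtain ⟨a, haV, b, hbV, haS, hbS, hab'⟩ := hab
  obtain ⟨y, hyV, hyS, hy⟩ : ∃ y ∈ V', y ∉ S ∧ (Q v → mt v ≠ y) := by
    by_cases h : mt v = a
    · exact ⟨b, hbV, hbS, fun _ h' => hab' (h.symm.trans h')⟩
    · exact ⟨a, haV, haS, fun _ h' => h h'⟩
  have h3 := hmain ⟨v, hvV⟩ ⟨y, hyV⟩
  have h4 : |F v - F y| = |K v - K y| := by
    have h5 : |(F v : ℝ) - F y| = |(K v : ℝ) - K y| := h3
    exact_mod_cast h5
  rw [K1 v hvS, K0 y hyS, F0 y hyS] at h4
  have h5 : F v - 8 * i y = 1 := by
    rcases abs_eq_abs.1 h4 with h | h <;> omega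
  by_cases hQ : Q v
  · rw [F1 v hvS hQ] at h5
    exact hy hQ (hi _ _ (by omega))
  · rw [F2 v hvS hQ] at h5
    omega

end Pool.Agent.GRig
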