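import Pool.Agent.GRig.Defs

/-!
Upper bound for `C*` (MP_1f4999_co): definitions and the deterministic part.
-/

namespace Pool.Agent.GRig

open Finset

open Classical in
/-- number of edges of `G` with both ends in `X` -/
noncomputable def ec {V : Type*} [Fintype V] (G : SimpleGraph V) (X : Finset V) : ℕ :=
  (Finset.univ.filter (fun e : Sym2 V => e ∈ G.edgeSet ∧ ∀ x ∈ e, x ∈ X)).card

end Pool.Agent.GRig
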