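import Pool.Agent.GRig.UGrid

/-!
The deterministic part of the upper bound `C* ≤ 17`.

PROOF. Let `V'` maximise `ec G X - 3 |X|` (as an integer) over all `X : Finset (Fin n)`, and
`W = V'ᶜ`. Comparison with `univ` gives `ec G univ ≤ 3 |W| + ec G V'`, so `|W| < 3n/2000` by
`hA`; hence `|V'| ≥ 9n/10`. Claim: `G.induce V'` is globally rigid. Otherwise take `a`, `b` from
`grid_of_not_rigid`. The rows are the classes of `b`, the columns the classes of `a` in `V'`; every
edge inside `V'` lies in a row or in a column.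
(1) Some row or column `R` has more than `68 n/1000` elements: otherwise `ec G ℓ < 4 |ℓ|` for all
nonempty rows and columns `ℓ` by `hD`, and summing over the rows and the columns
`ec G V' < 8 |V'| ≤ 8 n`, but `ec G V' ≥ ec G univ - 3 |W| ≥ 8.1 n - 0.0045 n` by `hG`.
(2) Say `R` is a row (columns are symmetric: exchange `a` and `b`), `B = V' \ R`. `B` is not empty
(two elements of `V'` have different `b`). A vertex `y ∈ B` has at most one neighbour in `R`: such
neighbours are in the column of `y`, and a row and a column share at most one vertex. Comparison of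
`V'` with `R`: `ec G V' ≥ ec G R + 3 |B|`, and `ec G V' ≤ ec G R + ec G B + |B|` (edges between
`B` and `R`). So `ec G B ≥ 2 |B|` and `|B| > 27 n/10000` by `hB`. As `|R| + |B| = |V'| > (1 - 3/2000) n`,
`hC` gives a vertex of `B` with two neighbours in `R`, a contradiction.
-/

namespace Pool.Agent.GRig

open Finset

open Classical in
/-- edges inside `X` as a finset -/
private theorem UDet_mem {V : Type*} [Fintype V] (G : SimpleGraph V) (X : Finset V) (e : Sym2 V) :
    e ∈ (Finset.univ.filter (fun e : Sym2 V => e ∈ G.edgeSet ∧ ∀ x ∈ e, x ∈ X)) ↔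
      e ∈ G.edgeSet ∧ ∀ x ∈ e, x ∈ X := by
  simp

open Classical in
private theorem UDet_lines {V : Type*} [Fintype V] (G : SimpleGraph V) (X : Finset V)
    (a b : V → ℝ) (h : ∀ x ∈ X, ∀ y ∈ X, G.Adj x y → a x = a y ∨ b x = b y) :
    ec G X ≤ ∑ t ∈ X.image a, ec G (X.filter (fun x => a x = t)) +
      ∑ t ∈ X.image b, ec G (X.filter (fun x => b x = t)) := by
  have hsub : (Finset.univ.filter (fun e : Sym2 V => e ∈ G.edgeSet ∧ ∀ x ∈ e, x ∈ X)) ⊆
      (X.image a).biUnion (fun t => Finset.univ.filter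
        (fun e : Sym2 V => e ∈ G.edgeSet ∧ ∀ x ∈ e, x ∈ X.filter (fun x => a x = t))) ∪
      (X.image b).biUnion (fun t => Finset.univ.filter
        (fun e : Sym2 V => e ∈ G.edgeSet ∧ ∀ x ∈ e, x ∈ X.filter (fun x => b x = t))) := by
    intro e
    induction e using Sym2.ind with
    | _ x y =>
      intro he
      rw [UDet_mem] at he
      obtain ⟨he, hX⟩ := he
      rw [SimpleGraph.mem_edgeSet] at he
      have hx : x ∈ X := hX x (Sym2.mem_mk_left x y)
      have hy : y ∈ X := hX y (Sym2.mem_mk_right x y)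
      rw [Finset.mem_union, Finset.mem_biUnion, Finset.mem_biUnion]
      rcases h x hx y hy he with h1 | h1
      · left
        refine ⟨a x, Finset.mem_image_of_mem a hx, ?_⟩
        rw [UDet_mem]
        refine ⟨he, ?_⟩
        intro z hz
        rw [Sym2.mem_iff] at hz
        rcases hz with rfl | rfl
        · exact Finset.mem_filter.2 ⟨hx, rfl⟩
        · exact Finset.mem_filter.2 ⟨hy, h1.symm⟩
      · right
        refine ⟨b x, Finset.mem_image_of_mem b hx, ?_⟩
        rw [UDet_mem]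
        refine ⟨he, ?_⟩
        intro z hz
        rw [Sym2.mem_iff] at hz
        rcases hz with rfl | rfl
        · exact Finset.mem_filter.2 ⟨hx, rfl⟩
        · exact Finset.mem_filter.2 ⟨hy, h1.symm⟩
  calc ec G X ≤ _ := Finset.card_le_card hsub
    _ ≤ _ := Finset.card_union_le _ _
    _ ≤ _ := Nat.add_le_add Finset.card_biUnion_le Finset.card_biUnion_le

open Classical in
private theorem UDet_split {V : Type*} [Fintype V] (G : SimpleGraph V) (X R B : Finset V)
    (hX : ∀ x ∈ X, x ∈ R ∨ x ∈ B)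
    (h : ∀ y ∈ B, ∀ x₁ ∈ R, ∀ x₂ ∈ R, G.Adj y x₁ → G.Adj y x₂ → x₁ = x₂) :
    ec G X ≤ ec G R + ec G B + B.card := by
  have hsub : (Finset.univ.filter (fun e : Sym2 V => e ∈ G.edgeSet ∧ ∀ x ∈ e, x ∈ X)) ⊆
      ((Finset.univ.filter (fun e : Sym2 V => e ∈ G.edgeSet ∧ ∀ x ∈ e, x ∈ R)) ∪
      (Finset.univ.filter (fun e : Sym2 V => e ∈ G.edgeSet ∧ ∀ x ∈ e, x ∈ B))) ∪
      B.biUnion (fun y => (R.filter (fun x => G.Adj y x)).image (fun x => s(y, x))) := by
    intro e
    induction e using Sym2.ind with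
    | _ x y =>
      intro he
      rw [UDet_mem] at he
      obtain ⟨he, hXe⟩ := he
      rw [SimpleGraph.mem_edgeSet] at he
      have hx := hX x (hXe x (Sym2.mem_mk_left x y))
      have hy := hX y (hXe y (Sym2.mem_mk_right x y))
      rw [Finset.mem_union, Finset.mem_union, Finset.mem_biUnion]
      rcases hx with hx | hx
      · rcases hy with hy | hy
        · left; left
          rw [UDet_mem]
          refine ⟨he, ?_⟩
          intro z hz
          rw [Sym2.mem_iff] at hz
          rcases hz with rfl | rfl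
          · exact hx
          · exact hy
        · right
          refine ⟨y, hy, ?_⟩
          rw [Finset.mem_image]
          exact ⟨x, Finset.mem_filter.2 ⟨hx, he.symm⟩, Sym2.eq_swap⟩
      · rcases hy with hy | hy
        · right
          refine ⟨x, hx, ?_⟩
          rw [Finset.mem_image]
          exact ⟨y, Finset.mem_filter.2 ⟨hy, he⟩, rfl⟩
        · left; right
          rw [UDet_mem]
          refine ⟨he, ?_⟩
          intro z hz
          rw [Sym2.mem_iff] at hz
          rcases hz with rfl | rfl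
          · exact hx
          · exact hy
  have hone : ∀ y ∈ B, ((R.filter (fun x => G.Adj y x)).image (fun x => s(y, x))).card ≤ 1 := by
    intro y hy
    refine le_trans Finset.card_image_le ?_
    rw [Finset.card_le_one]
    intro x₁ h₁ x₂ h₂
    rw [Finset.mem_filter] at h₁ h₂
    exact h y hy x₁ h₁.1 x₂ h₂.1 h₁.2 h₂.2
  have h3 := Finset.card_biUnion_le_card_mul B
    (fun y => (R.filter (fun x => G.Adj y x)).image (fun x => s(y, x))) 1 hone
  rw [mul_one] at h3
  calc ec G X ≤ _ := Finset.card_le_card hsub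
    _ ≤ _ := Finset.card_union_le _ _
    _ ≤ _ := Nat.add_le_add (Finset.card_union_le _ _) h3

open Classical in
private theorem UDet_core {n : ℕ} (G : SimpleGraph (Fin n))
    (hB : ∀ X : Finset (Fin n), X.Nonempty → (X.card : ℝ) ≤ 27 / 10000 * n → ec G X < 2 * X.card)
    (hC : ∀ R B : Finset (Fin n), Disjoint R B → (68 / 1000 : ℝ) * n < R.card →
      (27 / 10000 : ℝ) * n < B.card → (1 - 3 / 2000 : ℝ) * n < R.card + B.card →
      ∃ y ∈ B, ∃ x₁ ∈ R, ∃ x₂ ∈ R, x₁ ≠ x₂ ∧ G.Adj y x₁ ∧ G.Adj y x₂)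
    (X : Finset (Fin n))
    (hmax : ∀ Y : Finset (Fin n), (ec G Y : ℤ) - 3 * Y.card ≤ (ec G X : ℤ) - 3 * X.card)
    (hXc : (1 - 3 / 2000 : ℝ) * n < X.card)
    (a b : Fin n → ℝ)
    (h1 : ∀ x ∈ X, ∀ y ∈ X, a x = a y → b x = b y → x = y)
    (h2 : ∀ x ∈ X, ∀ y ∈ X, G.Adj x y → a x = a y ∨ b x = b y)
    (h3 : ∃ x ∈ X, ∃ y ∈ X, b x ≠ b y) (t : ℝ)
    (ht : (68 / 1000 : ℝ) * n < (X.filter (fun x => b x = t)).card) : False := by
  set R := X.filter (fun x => b x = t) with hR
  set B := X.filter (fun x => ¬ b x = t) with hBd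
  have hcard : R.card + B.card = X.card := by
    rw [hR, hBd]
    exact Finset.card_filter_add_card_filter_not _
  have hBne : B.Nonempty := by
    obtain ⟨x, hx, y, hy, hxy⟩ := h3
    by_cases h : b x = t
    · refine ⟨y, Finset.mem_filter.2 ⟨hy, ?_⟩⟩
      intro h'
      exact hxy (h.trans h'.symm)
    · exact ⟨x, Finset.mem_filter.2 ⟨hx, h⟩⟩
  have hone : ∀ y ∈ B, ∀ x₁ ∈ R, ∀ x₂ ∈ R, G.Adj y x₁ → G.Adj y x₂ → x₁ = x₂ := by
    intro y hy x₁ hx₁ x₂ hx₂ ha₁ ha₂
    rw [hBd, Finset.mem_filter] at hy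
    rw [hR, Finset.mem_filter] at hx₁ hx₂
    have e1 : a y = a x₁ := by
      rcases h2 y hy.1 x₁ hx₁.1 ha₁ with h | h
      · exact h
      · exact absurd (h.trans hx₁.2) hy.2
    have e2 : a y = a x₂ := by
      rcases h2 y hy.1 x₂ hx₂.1 ha₂ with h | h
      · exact h
      · exact absurd (h.trans hx₂.2) hy.2
    exact h1 x₁ hx₁.1 x₂ hx₂.1 (e1.symm.trans e2) (hx₁.2.trans hx₂.2.symm)
  have hs := UDet_split G X R B (by
    intro x hx
    by_cases h : b x = t
    · exact Or.inl (Finset.mem_filter.2 ⟨hx, h⟩)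
    · exact Or.inr (Finset.mem_filter.2 ⟨hx, h⟩)) hone
  have hm := hmax R
  have hge : 2 * B.card ≤ ec G B := by
    zify at hs hcard ⊢
    linarith
  have hBc : (27 / 10000 : ℝ) * n < B.card := by
    by_contra hcon
    have := hB B hBne (not_lt.1 hcon)
    omega
  have hsum : (1 - 3 / 2000 : ℝ) * n < R.card + B.card := by
    have : (R.card : ℝ) + B.card = X.card := by exact_mod_cast hcard
    rw [this]
    exact hXc
  have hdis : Disjoint R B := by
    rw [hR, hBd]
    exact Finset.disjoint_filter_filter_not _ _ _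
  obtain ⟨y, hy, x₁, hx₁, x₂, hx₂, hne, ha₁, ha₂⟩ := hC R B hdis ht hBc hsum
  exact hne (hone y hy x₁ hx₁ x₂ hx₂ ha₁ ha₂)

open Classical in
private theorem UDet_sum {n : ℕ} (G : SimpleGraph (Fin n))
    (hD : ∀ X : Finset (Fin n), X.Nonempty → (X.card : ℝ) ≤ 68 / 1000 * n → ec G X < 4 * X.card)
    (X : Finset (Fin n)) (a : Fin n → ℝ)
    (h : ∀ t, ((X.filter (fun x => a x = t)).card : ℝ) ≤ (68 / 1000 : ℝ) * n) :
    ∑ t ∈ X.image a, ec G (X.filter (fun x => a x = t)) ≤ 4 * X.card := by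
  rw [Finset.card_eq_sum_card_image a X, Finset.mul_sum]
  refine Finset.sum_le_sum ?_
  intro t ht
  refine (hD _ ?_ (h t)).le
  rw [Finset.mem_image] at ht
  obtain ⟨x, hx, rfl⟩ := ht
  exact ⟨x, Finset.mem_filter.2 ⟨hx, rfl⟩⟩

theorem hasRigid_of {n : ℕ} (hn : 0 < n) (G : SimpleGraph (Fin n))
    (hA : ∀ W : Finset (Fin n), (3 / 2000 : ℝ) * n ≤ W.card →
      3 * W.card + ec G Wᶜ < ec G Finset.univ)
    (hB : ∀ X : Finset (Fin n), X.Nonempty → (X.card : ℝ) ≤ 27 / 10000 * n → ec G X < 2 * X.card)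
    (hD : ∀ X : Finset (Fin n), X.Nonempty → (X.card : ℝ) ≤ 68 / 1000 * n → ec G X < 4 * X.card)
    (hC : ∀ R B : Finset (Fin n), Disjoint R B → (68 / 1000 : ℝ) * n < R.card →
      (27 / 10000 : ℝ) * n < B.card → (1 - 3 / 2000 : ℝ) * n < R.card + B.card →
      ∃ y ∈ B, ∃ x₁ ∈ R, ∃ x₂ ∈ R, x₁ ≠ x₂ ∧ G.Adj y x₁ ∧ G.Adj y x₂)
    (hG : (81 / 10 : ℝ) * n ≤ ec G Finset.univ) :
    HasRigid n (9 / 10) G := by
  classical
  have hn' : (0 : ℝ) < n := by exact_mod_cast hn
  obtain ⟨X, -, hmax⟩ := Finset.exists_max_image (Finset.univ : Finset (Finset (Fin n)))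
    (fun Y => (ec G Y : ℤ) - 3 * Y.card) ⟨Finset.univ, Finset.mem_univ _⟩
  have hmax' : ∀ Y : Finset (Fin n), (ec G Y : ℤ) - 3 * Y.card ≤ (ec G X : ℤ) - 3 * X.card :=
    fun Y => hmax Y (Finset.mem_univ _)
  have hXle : X.card ≤ n := by
    have := Finset.card_le_univ X
    rwa [Fintype.card_fin] at this
  have hWc : Xᶜ.card + X.card = n := by
    have := Finset.card_compl_add_card X
    rwa [Fintype.card_fin] at this
  have hcmp := hmax' Finset.univ
  rw [Finset.card_univ, Fintype.card_fin] at hcmp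
  have hle : ec G Finset.univ ≤ 3 * Xᶜ.card + ec G X := by
    zify at hWc ⊢
    linarith
  have hW : (Xᶜ.card : ℝ) < 3 / 2000 * n := by
    by_contra hcon
    have := hA Xᶜ (not_lt.1 hcon)
    rw [compl_compl] at this
    omega
  have hXR : (X.card : ℝ) = n - Xᶜ.card := by
    have : ((Xᶜ.card : ℝ)) + X.card = n := by exact_mod_cast hWc
    linarith
  have hXc : (1 - 3 / 2000 : ℝ) * n < X.card := by
    rw [hXR]
    linarith
  have hXbig : (8 : ℝ) * X.card < ec G X := by
    have h1 : (ec G Finset.univ : ℝ) ≤ 3 * Xᶜ.card + ec G X := by exact_mod_cast hle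
    have h2 : (X.card : ℝ) ≤ n := by exact_mod_cast hXle
    linarith
  refine ⟨(X : Set (Fin n)), ?_, ?_⟩
  · rw [Set.ncard_coe_finset]
    linarith
  · by_contra hnr
    obtain ⟨a, b, h1, h2, x₀, hx₀, y₀, hy₀, hane, hbne⟩ := grid_of_not_rigid G _ hnr
    have h1' : ∀ x ∈ X, ∀ y ∈ X, a x = a y → b x = b y → x = y :=
      fun x hx y hy => h1 x (Finset.mem_coe.2 hx) y (Finset.mem_coe.2 hy)
    have h2' : ∀ x ∈ X, ∀ y ∈ X, G.Adj x y → a x = a y ∨ b x = b y :=
      fun x hx y hy => h2 x (Finset.mem_coe.2 hx) y (Finset.mem_coe.2 hy)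
    have hrow : ∀ t, ((X.filter (fun x => b x = t)).card : ℝ) ≤ (68 / 1000 : ℝ) * n := by
      intro t
      by_contra hcon
      exact UDet_core G hB hC X hmax' hXc a b h1' h2'
        ⟨x₀, Finset.mem_coe.1 hx₀, y₀, Finset.mem_coe.1 hy₀, hbne⟩ t (not_le.1 hcon)
    have hcol : ∀ t, ((X.filter (fun x => a x = t)).card : ℝ) ≤ (68 / 1000 : ℝ) * n := by
      intro t
      by_contra hcon
      exact UDet_core G hB hC X hmax' hXc b a (fun x hx y hy e1 e2 => h1' x hx y hy e2 e1)
        (fun x hx y hy hadj => (h2' x hx y hy hadj).symm)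
        ⟨x₀, Finset.mem_coe.1 hx₀, y₀, Finset.mem_coe.1 hy₀, hane⟩ t (not_le.1 hcon)
    have hl := UDet_lines G X a b h2'
    have hs1 := UDet_sum G hD X a hcol
    have hs2 := UDet_sum G hD X b hrow
    have hfin : ec G X ≤ 8 * X.card := by omega
    have : (ec G X : ℝ) ≤ 8 * X.card := by exact_mod_cast hfin
    linarith

end Pool.Agent.GRig
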