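import Pool.Agent.GRig.UDefs

/-!
PROOF of `grid_of_not_rigid`: `f`, `g` injective with equal distances on the edges of the induced
graph and `|f x - f y| ≠ |g x - g y|` for some pair. Put `a = (f + g)/2`, `b = (f - g)/2` on `V'`
(and `0` outside): `|s| = |t|` iff `s = t` or `s = -t`, i.e. `b x = b y` or `a x = a y`.
-/

namespace Pool.Agent.GRig

open Classical in
/-- a graph that is not injectively globally rigid is drawn injectively in a grid with horizontal
and vertical edges, and not on one line -/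
theorem grid_of_not_rigid {V : Type*} (G : SimpleGraph V) (V' : Set V)
    (h : ¬ GloballyRigid (G.induce V')) :
    ∃ a b : V → ℝ, (∀ x ∈ V', ∀ y ∈ V', a x = a y → b x = b y → x = y) ∧
      (∀ x ∈ V', ∀ y ∈ V', G.Adj x y → a x = a y ∨ b x = b y) ∧
      ∃ x ∈ V', ∃ y ∈ V', a x ≠ a y ∧ b x ≠ b y := by
  unfold GloballyRigid at h
  push Not at h
  obtain ⟨f, g, hf, hg, hadj, x₀, y₀, hne⟩ := h
  refine ⟨fun v => if hv : v ∈ V' then (f ⟨v, hv⟩ + g ⟨v, hv⟩) / 2 else 0,
    fun v => if hv : v ∈ V' then (f ⟨v, hv⟩ - g ⟨v, hv⟩) / 2 else 0, ?_, ?_, ?_⟩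
  · intro x hx y hy ha hb
    simp only [hx, hy, dif_pos] at ha hb
    have : f ⟨x, hx⟩ = f ⟨y, hy⟩ := by linarith
    have h2 := hf this
    exact congrArg Subtype.val h2
  · intro x hx y hy hxy
    simp only [hx, hy, dif_pos]
    have h1 := hadj ⟨x, hx⟩ ⟨y, hy⟩ hxy
    rcases abs_eq_abs.mp h1 with h2 | h2
    · right; linarith
    · left; linarith
  · refine ⟨x₀.1, x₀.2, y₀.1, y₀.2, ?_, ?_⟩
    · simp only [x₀.2, y₀.2, dif_pos]
      intro h2
      apply hne
      rw [abs_eq_abs]
      right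
      linarith
    · simp only [x₀.2, y₀.2, dif_pos]
      intro h2
      apply hne
      rw [abs_eq_abs]
      left
      linarith

end Pool.Agent.GRig
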