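import Pool.Agent.GRig.Pr

/-!
Lower tails.

PROOF of `pr_count_le`: the expectation of `z ^ (number of true bits in F)` is
`(1 - p (1 - z)) ^ |F|` (product formula), and on the event `z ^ (number) ≥ z ^ k` as `0 < z ≤ 1`.

PROOF of `pr_count_le_one`: for a set `F` of `r` bits, no bit is true with probability `(1-p)^r`,
exactly one with probability `r p (1-p)^(r-1)`; together
`(1-p)^(r-1) (1 + (r-1) p) ≤ exp (-p (r-1)) * (1 + p (r-1))` (`r ≥ 1`).

PROOF of `pr_family`: disjoint sets of bits are independent.
-/

namespace Pool.Agent.GRig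

open Finset

variable {ι : Type*} [Fintype ι] [DecidableEq ι]

private theorem ULow_indep (p : ℝ) (S : Finset ι) (A B : (ι → Bool) → Prop)
    (hA : ∀ ω ω' : ι → Bool, (∀ i ∈ S, ω i = ω' i) → (A ω ↔ A ω'))
    (hB : ∀ ω ω' : ι → Bool, (∀ i, i ∉ S → ω i = ω' i) → (B ω ↔ B ω')) :
    pr p (fun ω => A ω ∧ B ω) = pr p A * pr p B := by
  classical
  obtain ⟨mix, hmix⟩ : ∃ mix : (ι → Bool) × (ι → Bool) → (ι → Bool) × (ι → Bool), mix = fun q =>
    (fun i => if i ∈ S then q.1 i else q.2 i, fun i => if i ∈ S then q.2 i else q.1 i) := ⟨_, rfl⟩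
  have hm1 : ∀ q i, (mix q).1 i = if i ∈ S then q.1 i else q.2 i := by
    intro q i
    rw [hmix]
  have hm2 : ∀ q i, (mix q).2 i = if i ∈ S then q.2 i else q.1 i := by
    intro q i
    rw [hmix]
  have hinv : Function.Involutive mix := by
    intro q
    refine Prod.ext ?_ ?_
    · funext i
      rw [hm1, hm1, hm2]
      split_ifs <;> rfl
    · funext i
      rw [hm2, hm1, hm2]
      split_ifs <;> rfl
  have hwt : ∀ q, wt p (mix q).1 * wt p (mix q).2 = wt p q.1 * wt p q.2 := by
    intro q
    unfold wt
    rw [← Finset.prod_mul_distrib, ← Finset.prod_mul_distrib]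
    refine Finset.prod_congr rfl fun i _ => ?_
    rw [hm1, hm2]
    split_ifs
    · rfl
    · rw [mul_comm]
  have h1 : pr p A * pr p B = ∑ q : (ι → Bool) × (ι → Bool),
      if A q.1 ∧ B q.2 then wt p q.1 * wt p q.2 else 0 := by
    unfold pr
    rw [Finset.sum_mul_sum, Fintype.sum_prod_type]
    refine Finset.sum_congr rfl fun ω _ => Finset.sum_congr rfl fun ω' _ => ?_
    by_cases h1 : A ω <;> by_cases h2 : B ω' <;> simp [h1, h2]
  have h2 : pr p (fun ω => A ω ∧ B ω) * pr p (fun _ : ι → Bool => True) =
      ∑ q : (ι → Bool) × (ι → Bool), if A q.1 ∧ B q.1 then wt p q.1 * wt p q.2 else 0 := by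
    unfold pr
    rw [Finset.sum_mul_sum, Fintype.sum_prod_type]
    refine Finset.sum_congr rfl fun ω _ => Finset.sum_congr rfl fun ω' _ => ?_
    by_cases h1 : A ω <;> by_cases h2 : B ω <;> simp [h1, h2]
  rw [pr_true, mul_one] at h2
  rw [h2, h1, ← Equiv.sum_comp (hinv.toPerm mix)]
  refine Finset.sum_congr rfl fun q _ => ?_
  have e0 : (hinv.toPerm mix) q = mix q := rfl
  rw [e0, hwt]
  have e1 : A (mix q).1 ↔ A q.1 := hA _ _ fun i hi => by rw [hm1, if_pos hi]
  have e2 : B (mix q).1 ↔ B q.2 := hB _ _ fun i hi => by rw [hm1, if_neg hi]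
  simp only [e1, e2]

theorem pr_count_le {p : ℝ} (h0 : 0 ≤ p) (h1 : p ≤ 1) (F : Finset ι) {z : ℝ} (hz0 : 0 < z)
    (hz1 : z ≤ 1) (k : ℕ) :
    pr p (fun ω : ι → Bool => (F.filter (fun i => ω i = true)).card ≤ k)
      ≤ (1 - p * (1 - z)) ^ F.card / z ^ k := by
  classical
  rw [le_div_iff₀ (pow_pos hz0 k)]
  have h := Finset.prod_univ_sum (fun _ : ι => (Finset.univ : Finset Bool))
    (fun i b => bw p b * if i ∈ F ∧ b = true then z else 1)
  rw [Fintype.piFinset_univ] at h
  have h2 : ∀ i : ι, (∑ b : Bool, bw p b * if i ∈ F ∧ b = true then z else 1) =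
      if i ∈ F then 1 - p * (1 - z) else 1 := by
    intro i
    by_cases hi : i ∈ F
    · simp [hi, bw]
      ring
    · simp [hi, bw]
  rw [Finset.prod_congr rfl (fun i _ => h2 i)] at h
  have h3 : (∏ i : ι, if i ∈ F then (1 - p * (1 - z)) else 1) = (1 - p * (1 - z)) ^ F.card := by
    rw [Finset.prod_ite_mem]
    simp
  rw [h3] at h
  rw [h]
  unfold pr
  rw [Finset.sum_mul]
  refine Finset.sum_le_sum fun ω _ => ?_
  have h4 : ∏ i : ι, (bw p (ω i) * if i ∈ F ∧ ω i = true then z else 1) =
      wt p ω * z ^ (F.filter (fun i => ω i = true)).card := by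
    rw [Finset.prod_mul_distrib]
    congr 1
    have h5 : ∀ i : ι, (if i ∈ F ∧ ω i = true then z else 1) =
        if i ∈ F.filter (fun i => ω i = true) then z else 1 := by
      intro i
      simp only [Finset.mem_filter]
    rw [Finset.prod_congr rfl (fun i _ => h5 i), Finset.prod_ite_mem]
    simp
  rw [h4]
  have hw := wt_nonneg h0 h1 ω
  split_ifs with h5
  · exact mul_le_mul_of_nonneg_left (pow_le_pow_of_le_one hz0.le hz1 h5) hw
  · rw [zero_mul]
    positivity

private theorem ULow_false (p : ℝ) (i : ι) (A : (ι → Bool) → Prop)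
    (hA : ∀ ω ω' : ι → Bool, (∀ j, j ≠ i → ω j = ω' j) → (A ω ↔ A ω')) :
    pr p (fun ω => ω i = false ∧ A ω) = (1 - p) * pr p A := by
  have h1 := pr_bit p i A hA
  have h2 : pr p (fun ω => ω i = true ∧ A ω) + pr p (fun ω => ω i = false ∧ A ω) = pr p A := by
    unfold pr
    rw [← Finset.sum_add_distrib]
    refine Finset.sum_congr rfl fun ω _ => ?_
    by_cases hA : A ω <;> by_cases hi : ω i = true <;> simp [hA, hi]
  linarith only [h1, h2]

private theorem ULow_zero (p : ℝ) (F : Finset ι) :
    pr p (fun ω : ι → Bool => (F.filter (fun i => ω i = true)).card = 0) = (1 - p) ^ F.card := by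
  classical
  induction F using Finset.induction_on with
  | empty =>
    simp only [Finset.filter_empty, Finset.card_empty, pow_zero]
    exact pr_true p
  | insert a F ha ih =>
    rw [Finset.card_insert_of_notMem ha, pow_succ, mul_comm, ← ih, ← ULow_false p a]
    · congr 1
      funext ω
      rw [Finset.filter_insert]
      by_cases h : ω a = true
      · rw [if_pos h]
        simp [h]
      · rw [if_neg h]
        simp only [Bool.not_eq_true] at h
        simp [h]
    · intro ω ω' h
      have h1 : F.filter (fun i => ω i = true) = F.filter (fun i => ω' i = true) := by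
        refine Finset.filter_congr fun i hi => ?_
        rw [h i (fun h2 => ha (h2 ▸ hi))]
      rw [h1]

private theorem ULow_one (p : ℝ) (F : Finset ι) :
    pr p (fun ω : ι → Bool => (F.filter (fun i => ω i = true)).card ≤ 1) =
      (1 - p) ^ F.card + F.card * p * (1 - p) ^ (F.card - 1) := by
  classical
  induction F using Finset.induction_on with
  | empty =>
    simp only [Finset.filter_empty, Finset.card_empty, pow_zero, zero_le, Nat.cast_zero, zero_mul,
      add_zero]
    exact pr_true p
  | insert a F ha ih =>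
    have hdep : ∀ ω ω' : ι → Bool, (∀ j, j ≠ a → ω j = ω' j) →
        F.filter (fun i => ω i = true) = F.filter (fun i => ω' i = true) := by
      intro ω ω' h
      refine Finset.filter_congr fun i hi => ?_
      rw [h i (fun h2 => ha (h2 ▸ hi))]
    have h1 := ULow_false p a (fun ω => (F.filter (fun i => ω i = true)).card ≤ 1)
      (fun ω ω' h => by rw [hdep ω ω' h])
    have h2 := pr_bit p a (fun ω => (F.filter (fun i => ω i = true)).card = 0)
      (fun ω ω' h => by rw [hdep ω ω' h])
    have h3 : pr p (fun ω : ι → Bool => ((insert a F).filter (fun i => ω i = true)).card ≤ 1) =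
        pr p (fun ω => ω a = false ∧ (F.filter (fun i => ω i = true)).card ≤ 1) +
        pr p (fun ω => ω a = true ∧ (F.filter (fun i => ω i = true)).card = 0) := by
      unfold pr
      rw [← Finset.sum_add_distrib]
      refine Finset.sum_congr rfl fun ω _ => ?_
      beta_reduce
      rw [Finset.filter_insert]
      by_cases h : ω a = true
      · have h4 : a ∉ F.filter (fun i => ω i = true) := fun h5 => ha (Finset.mem_filter.1 h5).1
        rw [if_pos h, Finset.card_insert_of_notMem h4]
        by_cases h5 : (F.filter (fun i => ω i = true)).card = 0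
        · simp [h, h5]
        · have h6 : ¬ (F.filter (fun i => ω i = true)).card + 1 ≤ 1 := by omega
          simp only [h, h5, h6, Bool.true_eq_false, false_and, and_false, if_false, add_zero]
      · rw [if_neg h]
        have h' : ω a = false := by simpa using h
        simp [h']
    rw [h3, h1, h2, ih, ULow_zero, Finset.card_insert_of_notMem ha, Nat.add_sub_cancel]
    rcases Nat.eq_zero_or_pos F.card with h4 | h4
    · rw [h4]
      push_cast
      ring
    · obtain ⟨r, hr⟩ : ∃ r, F.card = r + 1 := ⟨F.card - 1, by omega⟩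
      rw [hr, Nat.add_sub_cancel]
      push_cast
      ring

theorem pr_count_le_one {p : ℝ} (h0 : 0 ≤ p) (h1 : p ≤ 1) (F : Finset ι) (hF : 1 ≤ F.card) :
    pr p (fun ω : ι → Bool => (F.filter (fun i => ω i = true)).card ≤ 1)
      ≤ Real.exp (-(p * (F.card - 1))) * (1 + p * (F.card - 1)) := by
  rw [ULow_one]
  obtain ⟨r, hr⟩ : ∃ r, F.card = r + 1 := ⟨F.card - 1, by omega⟩
  rw [hr, Nat.add_sub_cancel]
  push_cast
  have h2 : (1 - p) ^ (r + 1) + ((r : ℝ) + 1) * p * (1 - p) ^ r = (1 - p) ^ r * (1 + p * r) := by
    ring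
  have h3 : (r : ℝ) + 1 - 1 = r := by ring
  rw [h2, h3]
  have h4 : (1 - p) ^ r ≤ Real.exp (-(p * r)) := by
    have h5 : 1 - p ≤ Real.exp (-p) := by
      have := Real.add_one_le_exp (-p)
      linarith
    calc (1 - p) ^ r ≤ Real.exp (-p) ^ r := pow_le_pow_left₀ (by linarith) h5 r
      _ = Real.exp (-(p * r)) := by
        rw [← Real.exp_nat_mul]
        congr 1
        ring
  exact mul_le_mul_of_nonneg_right h4 (by positivity)

/-- independence for disjoint sets of bits -/
theorem pr_family (p : ℝ) {κ : Type*} [DecidableEq κ] (s : Finset κ) (F : κ → Finset ι)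
    (hF : ∀ i ∈ s, ∀ j ∈ s, i ≠ j → Disjoint (F i) (F j)) (P : κ → ℕ → Prop) :
    pr p (fun ω : ι → Bool => ∀ i ∈ s, P i ((F i).filter (fun e => ω e = true)).card)
      = ∏ i ∈ s, pr p (fun ω : ι → Bool => P i ((F i).filter (fun e => ω e = true)).card) := by
  classical
  induction s using Finset.induction_on with
  | empty =>
    simp only [Finset.notMem_empty, false_imp_iff, implies_true, Finset.prod_empty]
    exact pr_true p
  | insert a s ha ih =>
    rw [Finset.prod_insert ha, ← ih (fun i hi j hj => hF i (Finset.mem_insert_of_mem hi) j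
      (Finset.mem_insert_of_mem hj)), ← ULow_indep p (F a)]
    · congr 1
      funext ω
      simp only [Finset.mem_insert, forall_eq_or_imp]
    · intro ω ω' h
      have h1 : (F a).filter (fun e => ω e = true) = (F a).filter (fun e => ω' e = true) :=
        Finset.filter_congr fun i hi => by rw [h i hi]
      rw [h1]
    · intro ω ω' h
      have h1 : ∀ i ∈ s, (F i).filter (fun e => ω e = true) =
          (F i).filter (fun e => ω' e = true) := by
        intro i hi
        refine Finset.filter_congr fun e he => ?_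
        rw [h e]
        intro he2
        have h2 := hF a (Finset.mem_insert_self _ _) i (Finset.mem_insert_of_mem hi)
          (fun h3 => ha (h3 ▸ hi))
        exact (Finset.disjoint_left.1 h2 he2) he
      constructor
      · intro h2 i hi
        rw [← h1 i hi]
        exact h2 i hi
      · intro h2 i hi
        rw [h1 i hi]
        exact h2 i hi

end Pool.Agent.GRig
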