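import Mathlib

/-!
Two numerical inequalities for the pair count, `g t = t - log (1 + t)` (increasing, convex).

Values of `k1 ρ = (1 - ρ - 3/2000) g (17 ρ) - ρ (1 - log ρ) - 0.01126`: `0.0987` at `0.068`,
`0.1097` at `0.07`, `0.1672` at `0.08`, `0.2935` at `0.1`, `0.6428` at `0.15`, `0.9987` at `0.2`,
`1.3321` at `0.25`, `1.6268` at `0.3`. Values of `k2 β = β (g (17 (1 - 3/2000 - β)) - 1 + log β) - 0.01126`:
`0.00798` at `0.0027`, `0.01042` at `0.003`, `0.02727` at `0.005`, `0.07194` at `0.01`, `0.453` at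
`0.05`, `0.907` at `0.1`, `1.646` at `0.2`, `2.255` at `0.5`, `1.916` at `0.6`, `1.328` at `0.7`.
Suggestion: split the interval and use monotonicity of the pieces, or tangent lines for `log`
(`log x ≤ x / c - 1 + log c`).
-/

namespace Pool.Agent.GRig

/-- tangent line at `c` -/
private lemma UNum_tan {x c : ℝ} (hx : 0 < x) (hc : 0 < c) :
    Real.log x ≤ x / c - 1 + Real.log c := by
  have h := Real.log_le_sub_one_of_pos (div_pos hx hc)
  rw [Real.log_div hx.ne' hc.ne'] at h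
  linarith

/-- `x - c + x log c ≤ x log x` -/
private lemma UNum_ent {x c : ℝ} (hx : 0 < x) (hc : 0 < c) :
    x - c + x * Real.log c ≤ x * Real.log x := by
  have h := Real.log_le_sub_one_of_pos (div_pos hc hx)
  rw [Real.log_div hc.ne' hx.ne'] at h
  have h2 : x * (Real.log c - Real.log x) ≤ x * (c / x - 1) :=
    mul_le_mul_of_nonneg_left h hx.le
  have h3 : x * (c / x - 1) = c - x := by field_simp
  rw [h3] at h2
  linarith

private lemma UNum_log8 : Real.log (1 / 8) = -(3 * Real.log 2) := by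
  rw [one_div, Real.log_inv, show (8 : ℝ) = 2 ^ 3 by norm_num, Real.log_pow]
  push_cast
  ring

private lemma UNum_log256 : Real.log (1 / 256) = -(8 * Real.log 2) := by
  rw [one_div, Real.log_inv, show (256 : ℝ) = 2 ^ 8 by norm_num, Real.log_pow]
  push_cast
  ring

private lemma UNum_log16 : Real.log 16 = 4 * Real.log 2 := by
  rw [show (16 : ℝ) = 2 ^ 4 by norm_num, Real.log_pow]
  push_cast
  ring

theorem num1 {ρ : ℝ} (h1 : 68 / 1000 ≤ ρ) (h2 : ρ ≤ 3 / 10) :
    ρ * (1 - Real.log ρ) + 0.01126 + 0.005 ≤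
      (1 - ρ - 3 / 2000) * (17 * ρ - Real.log (1 + 17 * ρ)) := by
  have hρ : 0 < ρ := by linarith
  have ht := UNum_tan (x := 1 + 17 * ρ) (c := 2) (by linarith) (by norm_num)
  have he := UNum_ent (x := ρ) (c := 1 / 8) hρ (by norm_num)
  rw [UNum_log8] at he
  have hl1 := Real.log_two_gt_d9
  have hl2 := Real.log_two_lt_d9
  have hA : (1 - ρ - 3 / 2000) * (17 * ρ - ((1 + 17 * ρ) / 2 - 1 + Real.log 2)) ≤
      (1 - ρ - 3 / 2000) * (17 * ρ - Real.log (1 + 17 * ρ)) :=
    mul_le_mul_of_nonneg_left (by linarith) (by linarith)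
  have hB : (1 - ρ - 3 / 2000) * (17 * ρ - ((1 + 17 * ρ) / 2 - 1 + 0.6931471808)) ≤
      (1 - ρ - 3 / 2000) * (17 * ρ - ((1 + 17 * ρ) / 2 - 1 + Real.log 2)) :=
    mul_le_mul_of_nonneg_left (by linarith) (by linarith)
  have hC : ρ * (-(3 * 0.6931471808)) ≤ ρ * (-(3 * Real.log 2)) :=
    mul_le_mul_of_nonneg_left (by linarith) hρ.le
  nlinarith [mul_nonneg (sub_nonneg.2 h1) (sub_nonneg.2 h2)]

theorem num2 {β : ℝ} (h1 : 27 / 10000 ≤ β) (h2 : β ≤ 7 / 10) :
    β * (1 - Real.log β) + 0.01126 + 0.005 ≤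
      β * (17 * (1 - 3 / 2000 - β) - Real.log (1 + 17 * (1 - 3 / 2000 - β))) := by
  have hβ : 0 < β := by linarith
  have ht := UNum_tan (x := 1 + 17 * (1 - 3 / 2000 - β)) (c := 16) (by linarith) (by norm_num)
  rw [UNum_log16] at ht
  have hl1 := Real.log_two_gt_d9
  have hl2 := Real.log_two_lt_d9
  have hA : β * (17 * (1 - 3 / 2000 - β) -
        ((1 + 17 * (1 - 3 / 2000 - β)) / 16 - 1 + 4 * 0.6931471808)) ≤
      β * (17 * (1 - 3 / 2000 - β) - Real.log (1 + 17 * (1 - 3 / 2000 - β))) :=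
    mul_le_mul_of_nonneg_left (by linarith) hβ.le
  rcases le_total β (2 / 100) with h | h
  · have he := UNum_ent (x := β) (c := 1 / 256) hβ (by norm_num)
    rw [UNum_log256] at he
    have hC : β * (-(8 * 0.6931471808)) ≤ β * (-(8 * Real.log 2)) :=
      mul_le_mul_of_nonneg_left (by linarith) hβ.le
    nlinarith [mul_nonneg (sub_nonneg.2 h1) (sub_nonneg.2 h)]
  · have he := UNum_ent (x := β) (c := 1 / 8) hβ (by norm_num)
    rw [UNum_log8] at he
    have hC : β * (-(3 * 0.6931471808)) ≤ β * (-(3 * Real.log 2)) :=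
      mul_le_mul_of_nonneg_left (by linarith) hβ.le
    nlinarith [mul_nonneg (sub_nonneg.2 h) (sub_nonneg.2 h2)]

/-- entropy of the small part: `x (1 - log x)` is increasing on `(0, 1]`, and at `3/2000` it is
`0.011254..` -/
theorem num3 {x : ℝ} (h1 : 0 < x) (h2 : x ≤ 3 / 2000) : x * (1 - Real.log x) ≤ 0.01126 := by
  have he := UNum_ent (x := x) (c := 3 / 2000) h1 (by norm_num)
  have hlog : Real.log (2000 / 3) ≤ 122 / 13 * Real.log 2 := by
    have h : (2000 / 3 : ℝ) ^ 13 ≤ 2 ^ 122 := by norm_num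
    have h' := Real.log_le_log (by norm_num) h
    rw [Real.log_pow, Real.log_pow] at h'
    push_cast at h'
    linarith
  have hl2 := Real.log_two_lt_d9
  have hc : Real.log (3 / 2000) = -Real.log (2000 / 3) := by
    rw [← Real.log_inv]
    norm_num
  have hlb : -(6.5063 : ℝ) ≤ Real.log (3 / 2000) := by
    rw [hc]
    have : (122 / 13 : ℝ) * Real.log 2 ≤ 6.5063 := by
      have := mul_le_mul_of_nonneg_left hl2.le (show (0 : ℝ) ≤ 122 / 13 by norm_num)
      refine this.trans ?_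
      norm_num
    linarith
  have hneg : Real.log (3 / 2000) ≤ 0 := Real.log_nonpos (by norm_num) (by norm_num)
  -- x (1 - log x) ≤ x - (x - c + x log c) = c - x log c ≤ c - c log c
  have h3 : x * (-Real.log (3 / 2000)) ≤ 3 / 2000 * (-Real.log (3 / 2000)) :=
    mul_le_mul_of_nonneg_right h2 (by linarith)
  have h4 : 3 / 2000 * (-Real.log (3 / 2000)) ≤ 3 / 2000 * (6.5063 : ℝ) :=
    mul_le_mul_of_nonneg_left (by linarith) (by norm_num)
  have h5 : (3 / 2000 : ℝ) + 3 / 2000 * 6.5063 ≤ 0.01126 := by norm_num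
  linarith

end Pool.Agent.GRig
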