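import Pool.Agent.GRig.ULow
import Pool.Agent.GRig.UNum
import Pool.Agent.GRig.UDefs

/-!
PROOF of `pr_pair_le`: for disjoint `R` (`|R| = r ≥ 1`) and `B` (`|B| = m`) the sets
`F_y = {s(x,y) : x ∈ R}`, `y ∈ B`, are disjoint sets of `r` bits, and the event says that each of them
has at most one true bit. Use `pr_family` and `pr_count_le_one`.

PROOF of `pair_tendsto`: `p = 17/n`, `n` large. Put `r = |R|`, `m = |B|`, `w = n - r - m < 3n/2000`,
`ρ = r/n`, `β = m/n`. With `g t = t - log (1 + t)`, `t = p (r - 1) = 17 ρ - 17/n`, the probability for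
a fixed pair is at most `exp (-m g t)` and `g t ≥ g (17 ρ) - 17/n` (`g` is 1-Lipschitz), so it is at
most `exp (17 - n β g (17 ρ))`. The number of pairs with given `r`, `m` is at most
`(n.choose w) (n.choose r)` and at most `(n.choose w) (n.choose m)`; with
`n.choose k ≤ (e n / k) ^ k = exp (n (k/n) (1 - log (k/n)))` (value `1` for `k = 0`):
`n.choose w ≤ exp (0.01126 n)` by `num3`. If `ρ ≤ 3/10`: total exponent
`n (0.01126 + ρ (1 - log ρ) - β g (17 ρ)) + 17 ≤ -0.005 n + 17` by `num1` (`β ≥ 1 - ρ - 3/2000`,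
`g ≥ 0`). If `ρ > 3/10`: `β < 7/10`, `ρ ≥ 1 - 3/2000 - β`, `g` is increasing, and
`n (0.01126 + β (1 - log β) - β g (17 (1 - 3/2000 - β))) + 17 ≤ -0.005 n + 17` by `num2`. Sum over
`r, m ≤ n`: at most `(n+1)^2 exp (17 - 0.005 n)`, which tends to `0`.
-/

namespace Pool.Agent.GRig

open Finset

theorem pr_pair_le {n : ℕ} {p : ℝ} (h0 : 0 ≤ p) (h1 : p ≤ 1) (R B : Finset (Fin n))
    (hRB : Disjoint R B) (hR : 1 ≤ R.card) :
    pr p (fun ω : Sym2 (Fin n) → Bool => ∀ y ∈ B, ∀ x₁ ∈ R, ∀ x₂ ∈ R, (gr ω).Adj y x₁ →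
        (gr ω).Adj y x₂ → x₁ = x₂)
      ≤ (Real.exp (-(p * (R.card - 1))) * (1 + p * (R.card - 1))) ^ B.card := by
  have hcard : ∀ y : Fin n, (R.image (fun x => s(x, y))).card = R.card := by
    intro y
    refine Finset.card_image_of_injective _ ?_
    intro a b hab
    exact Sym2.congr_left.1 hab
  have hne : ∀ x ∈ R, ∀ y ∈ B, x ≠ y := by
    intro x hx y hy hxy
    subst hxy
    exact Finset.disjoint_left.1 hRB hx hy
  have hdisj : ∀ i ∈ B, ∀ j ∈ B, i ≠ j →
      Disjoint (R.image (fun x => s(x, i))) (R.image (fun x => s(x, j))) := by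
    intro i hi j hj hij
    rw [Finset.disjoint_left]
    intro e h2 h3
    rw [Finset.mem_image] at h2 h3
    obtain ⟨a, ha, rfl⟩ := h2
    obtain ⟨b, hb, hab⟩ := h3
    rw [Sym2.eq_iff] at hab
    rcases hab with ⟨_, h4⟩ | ⟨h4, _⟩
    · exact hij h4.symm
    · exact hne b hb i hi h4
  have hmono : pr p (fun ω : Sym2 (Fin n) → Bool => ∀ y ∈ B, ∀ x₁ ∈ R, ∀ x₂ ∈ R,
      (gr ω).Adj y x₁ → (gr ω).Adj y x₂ → x₁ = x₂) ≤
      pr p (fun ω : Sym2 (Fin n) → Bool => ∀ y ∈ B,
        (fun (_ : Fin n) (c : ℕ) => c ≤ 1) y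
          (((R.image (fun x => s(x, y))).filter (fun e => ω e = true)).card)) := by
    refine pr_mono h0 h1 fun ω hω y hy => ?_
    show _ ≤ 1
    rw [Finset.card_le_one]
    intro a ha b hb
    rw [Finset.mem_filter, Finset.mem_image] at ha hb
    obtain ⟨⟨x, hx, rfl⟩, hxt⟩ := ha
    obtain ⟨⟨x', hx', rfl⟩, hxt'⟩ := hb
    have e1 : x = x' := by
      refine hω y hy x hx x' hx' ⟨(hne x hx y hy).symm, ?_⟩ ⟨(hne x' hx' y hy).symm, ?_⟩
      · rw [Sym2.eq_swap]
        exact hxt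
      · rw [Sym2.eq_swap]
        exact hxt'
    rw [e1]
  refine hmono.trans ?_
  rw [pr_family p B (fun y => R.image (fun x => s(x, y))) hdisj (fun _ c => c ≤ 1)]
  calc ∏ i ∈ B, pr p (fun ω : Sym2 (Fin n) → Bool => (fun (_ : Fin n) (c : ℕ) => c ≤ 1) i
          (((R.image (fun x => s(x, i))).filter (fun e => ω e = true)).card))
      ≤ ∏ _i ∈ B, (Real.exp (-(p * (R.card - 1))) * (1 + p * (R.card - 1))) := by
        refine Finset.prod_le_prod (fun i _ => pr_nonneg h0 h1 _) fun i _ => ?_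
        have h2 := pr_count_le_one h0 h1 (R.image (fun x => s(x, i)))
          (by rw [hcard]; exact hR)
        rw [hcard] at h2
        exact h2
    _ = _ := by rw [Finset.prod_const]

private theorem choose_bd {n k : ℕ} (hn : 1 ≤ n) :
    (n.choose k : ℝ) ≤ Real.exp (n * ((k / n : ℝ) * (1 - Real.log (k / n)))) := by
  rcases Nat.eq_zero_or_pos k with h0 | h0
  · subst h0
    simp
  have hn' : (0 : ℝ) < n := by exact_mod_cast hn
  have hk' : (0 : ℝ) < k := by exact_mod_cast h0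
  have h1 : (n.choose k : ℝ) ≤ (n : ℝ) ^ k / (k.factorial : ℝ) := Nat.choose_le_pow_div k n
  have h2 : (k : ℝ) ^ k / (k.factorial : ℝ) ≤ Real.exp k :=
    Real.pow_div_factorial_le_exp k hk'.le k
  have e1 : (n : ℝ) * ((k / n : ℝ) * (1 - Real.log (k / n))) =
      k + k * Real.log (n / k) := by
    have e2 : Real.log ((k : ℝ) / n) = - Real.log ((n : ℝ) / k) := by
      rw [← Real.log_inv, inv_div]
    rw [e2]
    field_simp
    ring
  rw [e1, Real.exp_add, Real.exp_nat_mul, Real.exp_log (by positivity)]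
  have e3 : (n : ℝ) ^ k / (k.factorial : ℝ) =
      (k : ℝ) ^ k / (k.factorial : ℝ) * ((n : ℝ) / k) ^ k := by
    rw [div_pow]
    field_simp
  rw [e3] at h1
  exact h1.trans (mul_le_mul_of_nonneg_right h2 (by positivity))

/-- the rate function -/
private noncomputable def gg (t : ℝ) : ℝ := t - Real.log (1 + t)

private theorem gg_nonneg {t : ℝ} (h : 0 ≤ t) : 0 ≤ gg t := by
  have := Real.log_le_sub_one_of_pos (show 0 < 1 + t by linarith)
  unfold gg
  linarith

private theorem gg_mono {s t : ℝ} (hs : 0 ≤ s) (h : s ≤ t) : gg s ≤ gg t := by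
  unfold gg
  have h1 : Real.log (1 + t) - Real.log (1 + s) ≤ t - s := by
    rw [← Real.log_div (by linarith) (by linarith)]
    refine (Real.log_le_sub_one_of_pos (by
      have : 0 < 1 + s := by linarith
      have : 0 < 1 + t := by linarith
      positivity)).trans ?_
    have h2 : (1 + t) / (1 + s) - 1 = (t - s) / (1 + s) := by
      have : (1 + s) ≠ 0 := by linarith
      field_simp
      ring
    rw [h2]
    exact div_le_self (by linarith) (by linarith)
  linarith

private theorem gg_lip {s t : ℝ} (hs : 0 ≤ s) (h : s ≤ t) : gg t - (t - s) ≤ gg s := by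
  unfold gg
  have h1 : Real.log (1 + s) ≤ Real.log (1 + t) :=
    Real.log_le_log (by linarith) (by linarith)
  linarith

private theorem main_bd {n r m : ℕ} (hn : 17 ≤ n) (hr : (68 / 1000 : ℝ) * n < r)
    (hm : (27 / 10000 : ℝ) * n < m) (hs : (1 - 3 / 2000 : ℝ) * n < r + m) (hle : r + m ≤ n)
    {N : ℝ} (hN1 : N ≤ (n.choose (n - r - m) : ℝ) * (n.choose r : ℝ))
    (hN2 : N ≤ (n.choose (n - r - m) : ℝ) * (n.choose m : ℝ)) :
    N * (Real.exp (-((17 / n : ℝ) * (r - 1))) * (1 + (17 / n : ℝ) * (r - 1))) ^ m ≤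
      Real.exp (17 - 0.005 * n) := by
  have hn' : (17 : ℝ) ≤ n := by exact_mod_cast hn
  have hn0 : (0 : ℝ) < n := by linarith
  have hr1 : (1 : ℝ) ≤ r := by
    have h1 : (0 : ℝ) < r := lt_trans (by positivity) hr
    have : 0 < r := by exact_mod_cast h1
    exact_mod_cast this
  obtain ⟨t, ht⟩ : ∃ t : ℝ, t = (17 / n : ℝ) * (r - 1) := ⟨_, rfl⟩
  obtain ⟨ρ, hρ⟩ : ∃ ρ : ℝ, ρ = r / n := ⟨_, rfl⟩
  obtain ⟨β, hβ⟩ : ∃ β : ℝ, β = m / n := ⟨_, rfl⟩
  have hρn : ρ * n = r := by rw [hρ]; field_simp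
  have hβn : β * n = m := by rw [hβ]; field_simp
  have ht0 : 0 ≤ t := by
    rw [ht]
    exact mul_nonneg (by positivity) (by linarith)
  have ht1 : t = 17 * ρ - 17 / n := by
    rw [ht, hρ]
    ring
  have hρ1 : 68 / 1000 ≤ ρ := by
    rw [hρ, le_div_iff₀ hn0]
    exact hr.le
  have hβ1 : 27 / 10000 ≤ β := by
    rw [hβ, le_div_iff₀ hn0]
    exact hm.le
  have hsum : 1 - 3 / 2000 ≤ ρ + β := by
    rw [hρ, hβ, ← add_div, le_div_iff₀ hn0]
    exact hs.le
  have hsum2 : ρ + β ≤ 1 := by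
    rw [hρ, hβ, ← add_div, div_le_one hn0]
    exact_mod_cast hle
  rw [← ht]
  have hpow : (Real.exp (-t) * (1 + t)) ^ m = Real.exp (- (m * gg t)) := by
    have e1 : Real.exp (-t) * (1 + t) = Real.exp (- gg t) := by
      have e2 : (1 + t) = Real.exp (Real.log (1 + t)) := (Real.exp_log (by linarith)).symm
      calc Real.exp (-t) * (1 + t) = Real.exp (-t) * Real.exp (Real.log (1 + t)) := by
            rw [← e2]
        _ = _ := by
            rw [← Real.exp_add]
            congr 1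
            unfold gg
            ring
    rw [e1, ← Real.exp_nat_mul]
    congr 1
    ring
  rw [hpow]
  -- the exponent of the probability
  have hg : (n : ℝ) * (β * gg (17 * ρ)) - 17 ≤ m * gg t := by
    have h1 := gg_lip ht0 (show t ≤ 17 * ρ by rw [ht1]; linarith [show 0 < 17 / (n : ℝ) by positivity])
    have h2 : 17 * ρ - t = 17 / n := by rw [ht1]; ring
    rw [h2] at h1
    have h3 := mul_le_mul_of_nonneg_left h1 (show (0 : ℝ) ≤ m from Nat.cast_nonneg m)
    have h4 : (m : ℝ) * (gg (17 * ρ) - 17 / n) = n * (β * gg (17 * ρ)) - 17 * β := by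
      rw [← hβn]
      field_simp
    have h5 : β ≤ 1 := by linarith
    linarith
  have hw : ((n.choose (n - r - m) : ℕ) : ℝ) ≤ Real.exp (n * 0.01126) := by
    refine (choose_bd (by omega)).trans ?_
    rw [Real.exp_le_exp]
    refine mul_le_mul_of_nonneg_left ?_ hn0.le
    rcases Nat.eq_zero_or_pos (n - r - m) with h0 | h0
    · rw [h0]
      simp
      norm_num
    · refine num3 ?_ ?_
      · have : (0 : ℝ) < ((n - r - m : ℕ) : ℝ) := by exact_mod_cast h0
        positivity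
      · rw [div_le_iff₀ hn0]
        have h1 : ((n - r - m : ℕ) : ℝ) = n - r - m := by
          rw [Nat.cast_sub (by omega), Nat.cast_sub (by omega)]
        rw [h1]
        linarith
  have fin : ∀ (k : ℕ) (κ : ℝ), κ = k / n → N ≤ (n.choose (n - r - m) : ℝ) * (n.choose k : ℝ) →
      κ * (1 - Real.log κ) + 0.01126 + 0.005 ≤ β * gg (17 * ρ) →
      N * Real.exp (- (m * gg t)) ≤ Real.exp (17 - 0.005 * n) := by
    intro k κ hκ hN h
    have h1 : (n.choose k : ℝ) ≤ Real.exp (n * (κ * (1 - Real.log κ))) := by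
      rw [hκ]
      exact choose_bd (by omega)
    have h2 : N ≤ Real.exp (n * 0.01126) * Real.exp (n * (κ * (1 - Real.log κ))) :=
      hN.trans (mul_le_mul hw h1 (Nat.cast_nonneg _) (Real.exp_pos _).le)
    have h3 : Real.exp (- (m * gg t)) ≤ Real.exp (17 - n * (β * gg (17 * ρ))) := by
      rw [Real.exp_le_exp]
      linarith
    calc N * Real.exp (- (m * gg t))
        ≤ (Real.exp (n * 0.01126) * Real.exp (n * (κ * (1 - Real.log κ)))) *
          Real.exp (- (m * gg t)) := mul_le_mul_of_nonneg_right h2 (Real.exp_pos _).le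
      _ ≤ (Real.exp (n * 0.01126) * Real.exp (n * (κ * (1 - Real.log κ)))) *
          Real.exp (17 - n * (β * gg (17 * ρ))) :=
          mul_le_mul_of_nonneg_left h3 (by positivity)
      _ = Real.exp (n * 0.01126 + n * (κ * (1 - Real.log κ)) +
          (17 - n * (β * gg (17 * ρ)))) := by rw [Real.exp_add, Real.exp_add]
      _ ≤ _ := by
          rw [Real.exp_le_exp]
          have h4 := mul_le_mul_of_nonneg_left h hn0.le
          linarith
  have hg0 : 0 ≤ gg (17 * ρ) := gg_nonneg (by linarith)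
  rcases le_total ρ (3 / 10) with h3 | h3
  · refine fin r ρ hρ hN1 ?_
    have h4 := num1 hρ1 h3
    have h5 : (1 - ρ - 3 / 2000) * gg (17 * ρ) ≤ β * gg (17 * ρ) :=
      mul_le_mul_of_nonneg_right (by linarith) hg0
    unfold gg at h5 ⊢
    linarith
  · refine fin m β hβ hN2 ?_
    have h4 := num2 hβ1 (show β ≤ 7 / 10 by linarith)
    have h5 : gg (17 * (1 - 3 / 2000 - β)) ≤ gg (17 * ρ) :=
      gg_mono (by nlinarith) (by linarith)
    have h6 := mul_le_mul_of_nonneg_left h5 (show 0 ≤ β by linarith)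
    unfold gg at h6 ⊢
    linarith

open Classical in
private theorem count_bd (n r m : ℕ) :
    (((univ : Finset (Finset (Fin n) × Finset (Fin n))).filter
      (fun q => Disjoint q.1 q.2 ∧ q.1.card = r ∧ q.2.card = m)).card : ℝ) ≤
        (n.choose (n - r - m) : ℝ) * (n.choose r : ℝ) ∧
    (((univ : Finset (Finset (Fin n) × Finset (Fin n))).filter
      (fun q => Disjoint q.1 q.2 ∧ q.1.card = r ∧ q.2.card = m)).card : ℝ) ≤
        (n.choose (n - r - m) : ℝ) * (n.choose m : ℝ) := by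
  have hW : ∀ q : Finset (Fin n) × Finset (Fin n), Disjoint q.1 q.2 ∧ q.1.card = r ∧
      q.2.card = m → (q.1 ∪ q.2)ᶜ.card = n - r - m := by
    rintro q ⟨h1, h2, h3⟩
    rw [Finset.card_compl, Finset.card_union_of_disjoint h1, h2, h3, Fintype.card_fin]
    omega
  constructor
  · have h1 : ((univ : Finset (Finset (Fin n) × Finset (Fin n))).filter
        (fun q => Disjoint q.1 q.2 ∧ q.1.card = r ∧ q.2.card = m)).card ≤
        ((powersetCard (n - r - m) (univ : Finset (Fin n))) ×ˢ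
          (powersetCard r (univ : Finset (Fin n)))).card := by
      refine Finset.card_le_card_of_injOn (fun q => ((q.1 ∪ q.2)ᶜ, q.1)) ?_ ?_
      · intro q hq
        have hq' := (Finset.mem_filter.1 hq).2
        rw [Finset.mem_coe, Finset.mem_product]
        exact ⟨Finset.mem_powersetCard.2 ⟨Finset.subset_univ _, hW q hq'⟩,
          Finset.mem_powersetCard.2 ⟨Finset.subset_univ _, hq'.2.1⟩⟩
      · intro q hq q' hq' h
        have hd := (Finset.mem_filter.1 hq).2.1
        have hd' := (Finset.mem_filter.1 hq').2.1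
        rw [Prod.mk.injEq] at h
        obtain ⟨h2, h3⟩ := h
        have h4 : q.1 ∪ q.2 = q'.1 ∪ q'.2 := compl_injective h2
        refine Prod.ext h3 ?_
        have h5 : q.2 = (q.1 ∪ q.2) \ q.1 := by
          rw [Finset.union_sdiff_cancel_left hd]
        have h6 : q'.2 = (q'.1 ∪ q'.2) \ q'.1 := by
          rw [Finset.union_sdiff_cancel_left hd']
        rw [h5, h6, h4, h3]
    rw [Finset.card_product, Finset.card_powersetCard, Finset.card_powersetCard,
      Finset.card_univ, Fintype.card_fin] at h1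
    exact_mod_cast h1
  · have h1 : ((univ : Finset (Finset (Fin n) × Finset (Fin n))).filter
        (fun q => Disjoint q.1 q.2 ∧ q.1.card = r ∧ q.2.card = m)).card ≤
        ((powersetCard (n - r - m) (univ : Finset (Fin n))) ×ˢ
          (powersetCard m (univ : Finset (Fin n)))).card := by
      refine Finset.card_le_card_of_injOn (fun q => ((q.1 ∪ q.2)ᶜ, q.2)) ?_ ?_
      · intro q hq
        have hq' := (Finset.mem_filter.1 hq).2
        rw [Finset.mem_coe, Finset.mem_product]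
        exact ⟨Finset.mem_powersetCard.2 ⟨Finset.subset_univ _, hW q hq'⟩,
          Finset.mem_powersetCard.2 ⟨Finset.subset_univ _, hq'.2.2⟩⟩
      · intro q hq q' hq' h
        have hd := (Finset.mem_filter.1 hq).2.1
        have hd' := (Finset.mem_filter.1 hq').2.1
        rw [Prod.mk.injEq] at h
        obtain ⟨h2, h3⟩ := h
        have h4 : q.1 ∪ q.2 = q'.1 ∪ q'.2 := compl_injective h2
        refine Prod.ext ?_ h3
        have h5 : q.1 = (q.1 ∪ q.2) \ q.2 := by
          rw [Finset.union_sdiff_cancel_right hd]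
        have h6 : q'.1 = (q'.1 ∪ q'.2) \ q'.2 := by
          rw [Finset.union_sdiff_cancel_right hd']
        rw [h5, h6, h4, h3]
    rw [Finset.card_product, Finset.card_powersetCard, Finset.card_powersetCard,
      Finset.card_univ, Fintype.card_fin] at h1
    exact_mod_cast h1

open Classical in
private theorem pair_bd {n : ℕ} (hn : 17 ≤ n) : pr (17 / n) (fun ω : Sym2 (Fin n) → Bool =>
      ∃ R B : Finset (Fin n), Disjoint R B ∧ (68 / 1000 : ℝ) * n < R.card ∧
        (27 / 10000 : ℝ) * n < B.card ∧ (1 - 3 / 2000 : ℝ) * n < R.card + B.card ∧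
        ∀ y ∈ B, ∀ x₁ ∈ R, ∀ x₂ ∈ R, (gr ω).Adj y x₁ → (gr ω).Adj y x₂ → x₁ = x₂) ≤
      ((n : ℝ) + 1) ^ 2 * Real.exp (17 - 0.005 * n) := by
  have hn' : (17 : ℝ) ≤ n := by exact_mod_cast hn
  have hn0 : (0 : ℝ) < n := by linarith
  have hp0 : (0 : ℝ) ≤ 17 / n := by positivity
  have hp1 : (17 : ℝ) / n ≤ 1 := by rw [div_le_one hn0]; exact hn'
  have h1 : pr (17 / n) (fun ω : Sym2 (Fin n) → Bool =>
      ∃ R B : Finset (Fin n), Disjoint R B ∧ (68 / 1000 : ℝ) * n < R.card ∧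
        (27 / 10000 : ℝ) * n < B.card ∧ (1 - 3 / 2000 : ℝ) * n < R.card + B.card ∧
        ∀ y ∈ B, ∀ x₁ ∈ R, ∀ x₂ ∈ R, (gr ω).Adj y x₁ → (gr ω).Adj y x₂ → x₁ = x₂) ≤
      pr (17 / n) (fun ω : Sym2 (Fin n) → Bool =>
        ∃ k ∈ Finset.range (n + 1) ×ˢ Finset.range (n + 1),
          ((68 / 1000 : ℝ) * n < k.1 ∧ (27 / 10000 : ℝ) * n < k.2 ∧
            (1 - 3 / 2000 : ℝ) * n < k.1 + k.2 ∧ k.1 + k.2 ≤ n) ∧
          ∃ q ∈ (univ : Finset (Finset (Fin n) × Finset (Fin n))).filter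
            (fun q => Disjoint q.1 q.2 ∧ q.1.card = k.1 ∧ q.2.card = k.2),
            ∀ y ∈ q.2, ∀ x₁ ∈ q.1, ∀ x₂ ∈ q.1, (gr ω).Adj y x₁ → (gr ω).Adj y x₂ → x₁ = x₂) := by
    refine pr_mono hp0 hp1 fun ω hω => ?_
    obtain ⟨R, B, hd, h2, h3, h4, h5⟩ := hω
    have hc : R.card + B.card ≤ n := by
      rw [← Finset.card_union_of_disjoint hd]
      exact (Finset.card_le_univ _).trans (by rw [Fintype.card_fin])
    refine ⟨(R.card, B.card), Finset.mem_product.2 ⟨Finset.mem_range.2 ?_,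
      Finset.mem_range.2 ?_⟩, ⟨h2, h3, h4, hc⟩, (R, B),
      Finset.mem_filter.2 ⟨Finset.mem_univ _, hd, rfl, rfl⟩, h5⟩
    · show R.card < n + 1
      omega
    · show B.card < n + 1
      omega
  refine h1.trans ((pr_exists_le hp0 hp1 _ _).trans ?_)
  have h2 : ∀ k ∈ Finset.range (n + 1) ×ˢ Finset.range (n + 1),
      pr (17 / n) (fun ω : Sym2 (Fin n) → Bool =>
          ((68 / 1000 : ℝ) * n < k.1 ∧ (27 / 10000 : ℝ) * n < k.2 ∧
            (1 - 3 / 2000 : ℝ) * n < k.1 + k.2 ∧ k.1 + k.2 ≤ n) ∧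
          ∃ q ∈ (univ : Finset (Finset (Fin n) × Finset (Fin n))).filter
            (fun q => Disjoint q.1 q.2 ∧ q.1.card = k.1 ∧ q.2.card = k.2),
            ∀ y ∈ q.2, ∀ x₁ ∈ q.1, ∀ x₂ ∈ q.1, (gr ω).Adj y x₁ → (gr ω).Adj y x₂ → x₁ = x₂) ≤
      Real.exp (17 - 0.005 * n) := by
    intro k _
    by_cases hk : ((68 / 1000 : ℝ) * n < k.1 ∧ (27 / 10000 : ℝ) * n < k.2 ∧
            (1 - 3 / 2000 : ℝ) * n < k.1 + k.2 ∧ k.1 + k.2 ≤ n)
    · have hr1 : 1 ≤ k.1 := by
        have h3 : (0 : ℝ) < k.1 := lt_trans (by positivity) hk.1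
        exact_mod_cast h3
      have h4 := count_bd n k.1 k.2
      have h5 := main_bd hn hk.1 hk.2.1 hk.2.2.1 hk.2.2.2 h4.1 h4.2
      refine le_trans ?_ h5
      refine (pr_mono hp0 hp1 (B := fun ω : Sym2 (Fin n) → Bool =>
          ∃ q ∈ (univ : Finset (Finset (Fin n) × Finset (Fin n))).filter
            (fun q => Disjoint q.1 q.2 ∧ q.1.card = k.1 ∧ q.2.card = k.2),
            ∀ y ∈ q.2, ∀ x₁ ∈ q.1, ∀ x₂ ∈ q.1, (gr ω).Adj y x₁ → (gr ω).Adj y x₂ → x₁ = x₂)
        (fun ω hω => hω.2)).trans ?_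
      refine (pr_exists_le hp0 hp1 _ _).trans ?_
      have h6 : ∀ q ∈ (univ : Finset (Finset (Fin n) × Finset (Fin n))).filter
            (fun q => Disjoint q.1 q.2 ∧ q.1.card = k.1 ∧ q.2.card = k.2),
          pr (17 / n) (fun ω : Sym2 (Fin n) → Bool =>
            ∀ y ∈ q.2, ∀ x₁ ∈ q.1, ∀ x₂ ∈ q.1, (gr ω).Adj y x₁ → (gr ω).Adj y x₂ → x₁ = x₂) ≤
          (Real.exp (-((17 / n : ℝ) * (k.1 - 1))) * (1 + (17 / n : ℝ) * (k.1 - 1))) ^ k.2 := by
        intro q hq
        have hq' := (Finset.mem_filter.1 hq).2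
        have h7 := pr_pair_le hp0 hp1 q.1 q.2 hq'.1 (by rw [hq'.2.1]; exact hr1)
        rw [hq'.2.1, hq'.2.2] at h7
        exact h7
      refine (Finset.sum_le_sum h6).trans ?_
      rw [Finset.sum_const, nsmul_eq_mul]
    · have h3 : pr (17 / n) (fun ω : Sym2 (Fin n) → Bool =>
          ((68 / 1000 : ℝ) * n < k.1 ∧ (27 / 10000 : ℝ) * n < k.2 ∧
            (1 - 3 / 2000 : ℝ) * n < k.1 + k.2 ∧ k.1 + k.2 ≤ n) ∧
          ∃ q ∈ (univ : Finset (Finset (Fin n) × Finset (Fin n))).filter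
            (fun q => Disjoint q.1 q.2 ∧ q.1.card = k.1 ∧ q.2.card = k.2),
            ∀ y ∈ q.2, ∀ x₁ ∈ q.1, ∀ x₂ ∈ q.1, (gr ω).Adj y x₁ → (gr ω).Adj y x₂ → x₁ = x₂) ≤
          pr (17 / n) (fun _ : Sym2 (Fin n) → Bool => False) :=
        pr_mono hp0 hp1 (fun ω hω => hk hω.1)
      rw [pr_false] at h3
      exact h3.trans (Real.exp_pos _).le
  refine (Finset.sum_le_sum h2).trans (le_of_eq ?_)
  rw [Finset.sum_const, Finset.card_product, Finset.card_range, nsmul_eq_mul]
  push_cast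
  ring

theorem pair_tendsto :
    Filter.Tendsto (fun n : ℕ => pr (17 / n) (fun ω : Sym2 (Fin n) → Bool =>
      ∃ R B : Finset (Fin n), Disjoint R B ∧ (68 / 1000 : ℝ) * n < R.card ∧
        (27 / 10000 : ℝ) * n < B.card ∧ (1 - 3 / 2000 : ℝ) * n < R.card + B.card ∧
        ∀ y ∈ B, ∀ x₁ ∈ R, ∀ x₂ ∈ R, (gr ω).Adj y x₁ → (gr ω).Adj y x₂ → x₁ = x₂))
      Filter.atTop (nhds 0) := by
  have h1 : Filter.Tendsto (fun n : ℕ => (0.005 : ℝ) * ((n : ℝ) + 1)) Filter.atTop
      Filter.atTop := by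
    refine Filter.Tendsto.const_mul_atTop (by norm_num) ?_
    exact Filter.tendsto_atTop_add_const_right _ _ tendsto_natCast_atTop_atTop
  have h2 := (Real.tendsto_pow_mul_exp_neg_atTop_nhds_zero 2).comp h1
  have h3 := h2.const_mul (Real.exp (17 + 0.005) / (0.005 : ℝ) ^ 2)
  rw [mul_zero] at h3
  have h4 : Filter.Tendsto (fun n : ℕ => ((n : ℝ) + 1) ^ 2 * Real.exp (17 - 0.005 * n))
      Filter.atTop (nhds 0) := by
    refine h3.congr fun n => ?_
    simp only [Function.comp_apply]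
    have e1 : Real.exp (17 - 0.005 * (n : ℝ)) =
        Real.exp (17 + 0.005) * Real.exp (-(0.005 * ((n : ℝ) + 1))) := by
      rw [← Real.exp_add]
      congr 1
      ring
    rw [e1]
    ring
  refine tendsto_of_tendsto_of_tendsto_of_le_of_le' tendsto_const_nhds h4 ?_ ?_
  · filter_upwards [Filter.eventually_ge_atTop 17] with n hn
    have hn' : (17 : ℝ) ≤ n := by exact_mod_cast hn
    have hn0 : (0 : ℝ) < n := by linarith
    exact pr_nonneg (by positivity) (by rw [div_le_one hn0]; exact hn') _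
  · filter_upwards [Filter.eventually_ge_atTop 17] with n hn
    exact pair_bd hn

end Pool.Agent.GRig
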