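import Pool.Agent.GRig.Pr
import Pool.Agent.GRig.UDefs

/-!
Small sets span few edges.

PROOF. For `n ≥ C` (so that `p = C / n ≤ 1`). If `j |X| ≤ ec (gr ω) X`, `|X| = k ≥ 1`, there is a set
`F` of exactly `j k` non-diagonal pairs inside `X` with all bits true. Union bound
(`pr_exists_le`, `pr_all`): the probability is at most
`∑_{1 ≤ k ≤ ε n} (n.choose k) * ((k.choose 2).choose (j k)) * (C/n) ^ (j k)`. With
`N.choose m ≤ (e N / m) ^ m` (i.e. `N ^ m / m! ≤ ..` and `m! ≥ (m/e)^m`) and `k.choose 2 ≤ k ^ 2 / 2`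
the `k`-th term is at most `((e n / k) * (e k C / (2 j n)) ^ j) ^ k = (A * (k / n) ^ (j-1)) ^ k` with
`A = exp (j+1) * (C/(2 j)) ^ j`. For `k ≤ ε n` this is at most `θ ^ k`, `θ = A ε ^ (j-1) < 1`, and for
fixed `k ≥ 1` it tends to `0` as `n → ∞` (`j ≥ 2`). So the sum tends to `0` by dominated convergence
(`tendsto_tsum_of_dominated_convergence`).
-/

namespace Pool.Agent.GRig

open Finset

/-- `N.choose m ≤ (e B / m)^m` for `N ≤ B` -/
theorem USmall_choose (N : ℕ) {m : ℕ} (hm : 1 ≤ m) {B : ℝ} (hB : (N : ℝ) ≤ B) :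
    ((N.choose m : ℕ) : ℝ) ≤ (Real.exp 1 * B / m) ^ m := by
  have h1 : ((N.choose m : ℕ) : ℝ) ≤ (N : ℝ) ^ m / (m.factorial : ℝ) := Nat.choose_le_pow_div m N
  have h2 : ((m : ℝ)) ^ m / (m.factorial : ℝ) ≤ Real.exp m :=
    Real.pow_div_factorial_le_exp (m : ℝ) (by positivity) m
  have hm0 : (0 : ℝ) < m := by exact_mod_cast hm
  have hf : (0 : ℝ) < (m.factorial : ℝ) := by exact_mod_cast m.factorial_pos
  have hB0 : 0 ≤ B := le_trans (by positivity) hB
  have h3 : (N : ℝ) ^ m ≤ B ^ m := pow_le_pow_left₀ (by positivity) hB m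
  have h4 : Real.exp m = (Real.exp 1) ^ m := by
    rw [← Real.exp_nat_mul]
    simp
  rw [h4] at h2
  calc ((N.choose m : ℕ) : ℝ) ≤ (N : ℝ) ^ m / (m.factorial : ℝ) := h1
    _ ≤ B ^ m / (m.factorial : ℝ) := by gcongr
    _ = B ^ m / (m : ℝ) ^ m * ((m : ℝ) ^ m / (m.factorial : ℝ)) := by field_simp
    _ ≤ B ^ m / (m : ℝ) ^ m * (Real.exp 1) ^ m := by
        apply mul_le_mul_of_nonneg_left h2
        positivity
    _ = (Real.exp 1 * B / m) ^ m := by
        rw [div_pow, mul_pow]; ring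

theorem USmall_term {C : ℝ} (hC : 0 < C) {j : ℕ} (hj : 2 ≤ j) {n k : ℕ} (hn : 1 ≤ n) (hk : 1 ≤ k) :
    (n.choose k : ℝ) * ((((k.choose 2).choose (j * k) : ℕ) : ℝ) * (C / n) ^ (j * k)) ≤
      ((Real.exp (j + 1) * (C / (2 * j)) ^ j) * ((k : ℝ) / n) ^ (j - 1)) ^ k := by
  have hn0 : (0 : ℝ) < n := by exact_mod_cast hn
  have hk0 : (0 : ℝ) < k := by exact_mod_cast hk
  have hj0 : (0 : ℝ) < j := by
    have : 0 < j := by omega
    exact_mod_cast this
  have h1 := USmall_choose n hk (le_refl (n : ℝ))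
  have h2 : (((k.choose 2).choose (j * k) : ℕ) : ℝ) ≤
      (Real.exp 1 * ((k : ℝ) ^ 2 / 2) / ((j * k : ℕ) : ℝ)) ^ (j * k) := by
    apply USmall_choose _ (Nat.mul_pos (by omega) hk)
    rw [Nat.cast_choose_two]
    nlinarith
  have hC0 : 0 ≤ (C / n) ^ (j * k) := by positivity
  have h3 : (n.choose k : ℝ) * ((((k.choose 2).choose (j * k) : ℕ) : ℝ) * (C / n) ^ (j * k)) ≤
      (Real.exp 1 * n / k) ^ k *
        ((Real.exp 1 * ((k : ℝ) ^ 2 / 2) / ((j * k : ℕ) : ℝ)) ^ (j * k) * (C / n) ^ (j * k)) := by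
    gcongr
  refine h3.trans (le_of_eq ?_)
  rw [← mul_pow, pow_mul, ← mul_pow]
  congr 1
  obtain ⟨i, rfl⟩ : ∃ i, j = i + 1 := ⟨j - 1, by omega⟩
  have e1 : i + 1 - 1 = i := by omega
  rw [e1]
  have e2 : Real.exp (((i + 1 : ℕ) : ℝ) + 1) = Real.exp 1 * Real.exp 1 ^ (i + 1) := by
    rw [← Real.exp_nat_mul, ← Real.exp_add]
    congr 1
    ring
  rw [e2]
  have e3 : Real.exp 1 * ((k : ℝ) ^ 2 / 2) / (((i + 1) * k : ℕ) : ℝ) * (C / n) =
      Real.exp 1 * (C / (2 * ((i + 1 : ℕ) : ℝ))) * ((k : ℝ) / n) := by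
    push_cast
    field_simp
  rw [e3, mul_pow, mul_pow, pow_succ ((k : ℝ) / n) i]
  field_simp

theorem USmall_ec {V : Type*} [Fintype V] (G : SimpleGraph V) (X : Finset V) {m : ℕ}
    (h : m ≤ ec G X) :
    ∃ F : Finset (Sym2 V), F.card = m ∧ ∀ e ∈ F, e ∈ G.edgeSet ∧ ∀ x ∈ e, x ∈ X := by
  classical
  unfold ec at h
  obtain ⟨F, hF1, hF2⟩ := Finset.exists_subset_card_eq h
  exact ⟨F, hF2, fun e he => (Finset.mem_filter.mp (hF1 he)).2⟩

theorem USmall_pr {C : ℝ} (hC : 0 < C) {j : ℕ} {ε : ℝ} {n : ℕ} (hn : 1 ≤ n) (hCn : C ≤ n) :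
    pr (C / n) (fun ω : Sym2 (Fin n) → Bool =>
      ∃ X : Finset (Fin n), X.Nonempty ∧ (X.card : ℝ) ≤ ε * n ∧ j * X.card ≤ ec (gr ω) X) ≤
    ∑ k ∈ range (n + 1), (n.choose k : ℝ) * (if (1 ≤ k ∧ (k : ℝ) ≤ ε * n) then
       ((((k.choose 2).choose (j * k) : ℕ) : ℝ) * (C / n) ^ (j * k)) else 0) := by
  classical
  have hn0 : (0 : ℝ) < n := by exact_mod_cast hn
  have hp0 : 0 ≤ C / n := by positivity
  have hp1 : C / n ≤ 1 := by
    rw [div_le_one hn0]
    exact hCn
  set T : Finset (Fin n) → Finset (Finset (Sym2 (Fin n))) := fun X =>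
    if (1 ≤ X.card ∧ (X.card : ℝ) ≤ ε * n) then
      powersetCard (j * X.card) (X.offDiag.image Sym2.mk.uncurry) else ∅ with hT
  have step1 : pr (C / n) (fun ω : Sym2 (Fin n) → Bool =>
      ∃ X : Finset (Fin n), X.Nonempty ∧ (X.card : ℝ) ≤ ε * n ∧ j * X.card ≤ ec (gr ω) X) ≤
      pr (C / n) (fun ω : Sym2 (Fin n) → Bool =>
        ∃ q ∈ (univ : Finset (Finset (Fin n))).sigma T, ∀ e ∈ q.2, ω e = true) := by
    refine pr_mono hp0 hp1 fun ω hω => ?_
    obtain ⟨X, hX1, hX2, hX3⟩ := hω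
    obtain ⟨F, hF2, hF1⟩ := USmall_ec (gr ω) X hX3
    refine ⟨⟨X, F⟩, ?_, ?_⟩
    · rw [Finset.mem_sigma]
      refine ⟨Finset.mem_univ _, ?_⟩
      have hc : (1 ≤ X.card ∧ (X.card : ℝ) ≤ ε * n) := ⟨hX1.card_pos, hX2⟩
      simp only [hT, if_pos hc]
      rw [Finset.mem_powersetCard]
      refine ⟨fun e he => ?_, hF2⟩
      obtain ⟨he3, he4⟩ := hF1 e he
      induction e using Sym2.inductionOn with
      | hf a b =>
        rw [SimpleGraph.mem_edgeSet] at he3
        rw [Finset.mem_image]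
        refine ⟨(a, b), ?_, rfl⟩
        rw [Finset.mem_offDiag]
        exact ⟨he4 a (Sym2.mem_mk_left a b), he4 b (Sym2.mem_mk_right a b), he3.1⟩
    · intro e he
      obtain ⟨he3, he4⟩ := hF1 e he
      induction e using Sym2.inductionOn with
      | hf a b =>
        rw [SimpleGraph.mem_edgeSet] at he3
        exact he3.2
  refine step1.trans ((pr_exists_le hp0 hp1 _ _).trans (le_of_eq ?_))
  rw [Finset.sum_sigma]
  have h2 : ∀ X : Finset (Fin n), (∑ F ∈ T X, pr (C / n) (fun ω : Sym2 (Fin n) → Bool =>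
      ∀ e ∈ F, ω e = true)) =
      (fun k : ℕ => if (1 ≤ k ∧ (k : ℝ) ≤ ε * n) then
       ((((k.choose 2).choose (j * k) : ℕ) : ℝ) * (C / n) ^ (j * k)) else 0) X.card := by
    intro X
    simp only [hT]
    split_ifs with hc
    · have h3 : ∀ F ∈ powersetCard (j * X.card) (X.offDiag.image Sym2.mk.uncurry),
          pr (C / n) (fun ω : Sym2 (Fin n) → Bool => ∀ e ∈ F, ω e = true) =
            (C / n) ^ (j * X.card) := by
        intro F hF
        rw [pr_all, (Finset.mem_powersetCard.mp hF).2]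
      rw [Finset.sum_congr rfl h3, Finset.sum_const, Finset.card_powersetCard,
        Sym2.card_image_offDiag, nsmul_eq_mul]
    · simp
  rw [Finset.sum_congr rfl (fun X _ => h2 X)]
  have h4 := Finset.sum_powerset_apply_card (fun k : ℕ => if (1 ≤ k ∧ (k : ℝ) ≤ ε * n) then
       ((((k.choose 2).choose (j * k) : ℕ) : ℝ) * (C / n) ^ (j * k)) else 0)
       (x := (univ : Finset (Fin n)))
  rw [Finset.powerset_univ] at h4
  rw [h4, Finset.card_univ, Fintype.card_fin]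
  refine Finset.sum_congr rfl fun k _ => ?_
  rw [nsmul_eq_mul]

theorem small_tendsto {C : ℝ} (hC : 0 < C) {j : ℕ} (hj : 2 ≤ j) {ε : ℝ} (hε : 0 < ε)
    (h : Real.exp (j + 1) * (C / (2 * j)) ^ j * ε ^ (j - 1) < 1) :
    Filter.Tendsto (fun n : ℕ => pr (C / n) (fun ω : Sym2 (Fin n) → Bool =>
      ∃ X : Finset (Fin n), X.Nonempty ∧ (X.card : ℝ) ≤ ε * n ∧ j * X.card ≤ ec (gr ω) X))
      Filter.atTop (nhds 0) := by
  set A : ℝ := Real.exp (j + 1) * (C / (2 * j)) ^ j with hA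
  have hj0 : (0 : ℝ) < j := by
    have : 0 < j := by omega
    exact_mod_cast this
  have hA0 : 0 ≤ A := by positivity
  set θ : ℝ := A * ε ^ (j - 1) with hθ
  have hθ0 : 0 ≤ θ := by positivity
  set f : ℕ → ℕ → ℝ := fun n k => if (1 ≤ k ∧ (k : ℝ) ≤ ε * n ∧ 1 ≤ n ∧ k ≤ n) then
    (A * ((k : ℝ) / n) ^ (j - 1)) ^ k else 0 with hf
  have hf0 : ∀ n k, 0 ≤ f n k := by
    intro n k
    simp only [hf]
    split_ifs
    · positivity
    · exact le_rfl
  have hbound : ∀ n k, ‖f n k‖ ≤ θ ^ k := by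
    intro n k
    rw [Real.norm_of_nonneg (hf0 n k)]
    simp only [hf]
    split_ifs with hc
    · obtain ⟨h1, h2, h3, h4⟩ := hc
      have hn0 : (0 : ℝ) < n := by exact_mod_cast h3
      have h5 : (k : ℝ) / n ≤ ε := by
        rw [div_le_iff₀ hn0]
        exact h2
      rw [hθ]
      gcongr
    · positivity
  have hlim : ∀ k, Filter.Tendsto (fun n => f n k) Filter.atTop (nhds ((fun _ : ℕ => (0 : ℝ)) k)) := by
    intro k
    simp only
    by_cases hk : 1 ≤ k
    · have h1 : Filter.Tendsto (fun n : ℕ => (A * ((k : ℝ) / n) ^ (j - 1)) ^ k) Filter.atTop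
          (nhds 0) := by
        have h2 : Filter.Tendsto (fun n : ℕ => (k : ℝ) / n) Filter.atTop (nhds 0) :=
          tendsto_const_div_atTop_nhds_zero_nat (k : ℝ)
        have h3 := ((h2.pow (j - 1)).const_mul A).pow k
        have e1 : (A * (0 : ℝ) ^ (j - 1)) ^ k = 0 := by
          rw [zero_pow (by omega), mul_zero, zero_pow (by omega)]
        rw [e1] at h3
        exact h3
      refine squeeze_zero (fun n => hf0 n k) (fun n => ?_) h1
      simp only [hf]
      split_ifs with hc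
      · exact le_rfl
      · positivity
    · have e1 : (fun n => f n k) = fun _ => 0 := by
        funext n
        simp only [hf]
        rw [if_neg]
        exact fun hc => hk hc.1
      rw [e1]
      exact tendsto_const_nhds
  have hdom := tendsto_tsum_of_dominated_convergence (f := f) (g := fun _ : ℕ => (0 : ℝ))
    (bound := fun k => θ ^ k) (summable_geometric_of_lt_one hθ0 h) hlim
    (Filter.Eventually.of_forall (fun n k => hbound n k))
  rw [tsum_zero] at hdom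
  obtain ⟨n0, hn0⟩ := exists_nat_ge C
  refine squeeze_zero' ?_ ?_ hdom
  · filter_upwards [Filter.eventually_ge_atTop (max 1 n0)] with n hn
    have h1 : 1 ≤ n := le_trans (le_max_left _ _) hn
    have h2 : n0 ≤ n := le_trans (le_max_right _ _) hn
    have h3 : (0 : ℝ) < n := by exact_mod_cast h1
    have h4 : C ≤ n := hn0.trans (by exact_mod_cast h2)
    refine pr_nonneg (by positivity) ?_ _
    rw [div_le_one h3]
    exact h4
  · filter_upwards [Filter.eventually_ge_atTop (max 1 n0)] with n hn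
    have h1 : 1 ≤ n := le_trans (le_max_left _ _) hn
    have h2 : n0 ≤ n := le_trans (le_max_right _ _) hn
    have h4 : C ≤ n := hn0.trans (by exact_mod_cast h2)
    refine (USmall_pr hC h1 h4).trans ?_
    have e1 : ∑' k, f n k = ∑ k ∈ range (n + 1), f n k := by
      refine tsum_eq_sum fun k hk => ?_
      simp only [hf]
      rw [if_neg]
      intro hc
      rw [Finset.mem_range] at hk
      omega
    rw [e1]
    refine Finset.sum_le_sum fun k hk => ?_
    rw [Finset.mem_range] at hk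
    by_cases hc : (1 ≤ k ∧ (k : ℝ) ≤ ε * n)
    · rw [if_pos hc]
      have hc2 : (1 ≤ k ∧ (k : ℝ) ≤ ε * n ∧ 1 ≤ n ∧ k ≤ n) := ⟨hc.1, hc.2, h1, by omega⟩
      simp only [hf]
      rw [if_pos hc2]
      exact USmall_term hC hj h1 hc.1
    · rw [if_neg hc, mul_zero]
      exact hf0 n k

end Pool.Agent.GRig
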