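import Pool.Agent.GRig.ULow
import Pool.Agent.GRig.UDefs
import Pool.Agent.GRig.USmall

/-!
Every set of `k ≥ 3n/2000` vertices touches more than `3 k` edges; and there are at least `8.1 n` edges.

PROOF of `touch_tendsto`. `p = 17/n`, `n ≥ 17`. For `|W| = k` the number of non-diagonal pairs with
at least one end in `W` is `N = k (n - k) + k (k-1)/2 = k (n - (k+1)/2)`, and
`ec (gr ω) univ - ec (gr ω) Wᶜ` is the number of true bits among them. `pr_count_le` with `z = 1/4`:
the probability that at most `3 k` of them are true is at most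
`exp (-p (3/4) N) 4 ^ (3k) = exp (k (-(51/4) (1 - (k+1)/(2n)) + 3 log 4))`. Union bound over `W`:
`n.choose k ≤ (e n / k) ^ k = exp (k (1 + log (n/k)))`. With `w = k/n ∈ [3/2000, 1]` the total
exponent is at most `k (h w + 51/(8 n))`, `h w = 1 - log w - (51/4) (1 - w/2) + 3 log 4`, and
`h ≤ -1` on the interval. So the sum over
`k ∈ [3n/2000, n]` is at most `(n + 1) exp (-3n/2000 + 51/8)`, which tends to `0`.

PROOF of `edges_tendsto`. `ec (gr ω) univ` is the number of true bits among the `n (n-1)/2`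
non-diagonal pairs; `pr_count_le` with `z = 19/20`, `k = ⌊8.1 n⌋`: at most
`exp (-(17/n) (1/20) n (n-1)/2) * (20/19) ^ (8.1 n) = exp (17/40) * exp (n (-17/40 + 8.1 log (20/19)))`
and `8.1 log (20/19) = 0.41548 < 0.425 = 17/40`.
-/

namespace Pool.Agent.GRig

open Finset

private theorem UTouch_h {w : ℝ} (h1 : 3 / 2000 ≤ w) (h2 : w ≤ 1) :
    1 - Real.log w - (51 / 4) * (1 - w / 2) + 6 * Real.log 2 ≤ -1 := by
  have hl := Real.log_two_lt_d9
  have key : ∀ a : ℝ, 0 < a → a ≤ w → ∀ L : ℝ, -Real.log a ≤ L → -Real.log w ≤ L := by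
    intro a ha haw L hL
    have := Real.log_le_log ha haw
    linarith
  have hpow : ∀ k : ℕ, -Real.log ((1 / 2 : ℝ) ^ k) = k * Real.log 2 := by
    intro k
    rw [Real.log_pow, one_div, Real.log_inv]
    ring
  rcases le_total w (1 / 128) with hw | hw
  · have h3 : -Real.log (3 / 2000) ≤ 9 * Real.log 2 + 0.3021 := by
      have e1 : (3 / 2000 : ℝ) = (1 / 2) ^ 9 * (768 / 1000) := by norm_num
      rw [e1, Real.log_mul (by norm_num) (by norm_num), neg_add, hpow]
      have e2 : -Real.log (768 / 1000) ≤ 1000 / 768 - 1 := by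
        rw [← Real.log_inv]
        have := Real.log_le_sub_one_of_pos (show (0 : ℝ) < (768 / 1000)⁻¹ by norm_num)
        refine this.trans ?_
        norm_num
      push_cast
      nlinarith
    have h4 := key (3 / 2000) (by norm_num) h1 _ h3
    nlinarith
  rcases le_total w (1 / 4) with hw2 | hw2
  · have h4 := key ((1 / 2) ^ 7) (by norm_num) (by norm_num at hw ⊢; linarith) _ (le_of_eq (hpow 7))
    push_cast at h4
    nlinarith
  rcases le_total w (3 / 4) with hw3 | hw3
  · have h4 := key ((1 / 2) ^ 2) (by norm_num) (by norm_num at hw2 ⊢; linarith) _ (le_of_eq (hpow 2))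
    push_cast at h4
    nlinarith
  rcases le_total w (7 / 8) with hw4 | hw4
  · have h4 := key ((1 / 2) ^ 1) (by norm_num) (by norm_num at hw3 ⊢; linarith) _ (le_of_eq (hpow 1))
    push_cast at h4
    nlinarith
  · have h3 : -Real.log (7 / 8) ≤ 1 / 7 := by
      rw [← Real.log_inv]
      have := Real.log_le_sub_one_of_pos (show (0 : ℝ) < (7 / 8)⁻¹ by norm_num)
      refine this.trans ?_
      norm_num
    have h4 := key (7 / 8) (by norm_num) hw4 _ h3
    nlinarith

private theorem UTouch_card {n : ℕ} (W : Finset (Fin n)) :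
    ((((univ : Finset (Sym2 (Fin n))).filter (fun e => ¬ e.IsDiag ∧ ∃ x ∈ e, x ∈ W)).card : ℕ) : ℝ) =
      W.card * (n - (W.card + 1) / 2) := by
  classical
  have h1 : ((univ : Finset (Fin n)).offDiag.image Sym2.mk.uncurry) =
      ((univ : Finset (Sym2 (Fin n))).filter (fun e => ¬ e.IsDiag ∧ ∃ x ∈ e, x ∈ W)) ∪
      (Wᶜ.offDiag.image Sym2.mk.uncurry) := by
    ext e
    induction e using Sym2.inductionOn with
    | hf a b =>
      simp only [Finset.mem_image, Finset.mem_offDiag, Finset.mem_union, Finset.mem_filter,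
        Finset.mem_univ, true_and, Prod.exists, Function.uncurry_apply_pair, Finset.mem_compl]
      constructor
      · rintro ⟨x, y, hxy, h⟩
        have hab : a ≠ b := by
          rintro rfl
          rcases Sym2.eq_iff.1 h with ⟨h1, h2⟩ | ⟨h1, h2⟩
          · exact hxy (h1.trans h2.symm)
          · exact hxy (h1.trans h2.symm)
        by_cases h3 : a ∈ W ∨ b ∈ W
        · left
          refine ⟨by simpa using hab, ?_⟩
          rcases h3 with h3 | h3
          · exact ⟨a, Sym2.mem_mk_left a b, h3⟩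
          · exact ⟨b, Sym2.mem_mk_right a b, h3⟩
        · right
          push Not at h3
          exact ⟨a, b, ⟨h3.1, h3.2, hab⟩, rfl⟩
      · rintro (⟨h1, -⟩ | ⟨x, y, ⟨-, -, hxy⟩, h⟩)
        · exact ⟨a, b, by simpa using h1, rfl⟩
        · exact ⟨x, y, hxy, h⟩
  have h2 : Disjoint ((univ : Finset (Sym2 (Fin n))).filter
      (fun e => ¬ e.IsDiag ∧ ∃ x ∈ e, x ∈ W)) (Wᶜ.offDiag.image Sym2.mk.uncurry) := by
    rw [Finset.disjoint_left]
    intro e he he2
    induction e using Sym2.inductionOn with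
    | hf a b =>
      simp only [Finset.mem_image, Finset.mem_offDiag, Finset.mem_filter,
        Finset.mem_univ, true_and, Prod.exists, Function.uncurry_apply_pair, Finset.mem_compl] at he he2
      obtain ⟨-, z, hz, hz2⟩ := he
      obtain ⟨x, y, ⟨hx, hy, -⟩, h⟩ := he2
      rw [← h] at hz
      rcases Sym2.mem_iff.1 hz with rfl | rfl
      · exact hx hz2
      · exact hy hz2
  have h3 := congrArg Finset.card h1
  rw [Finset.card_union_of_disjoint h2, Sym2.card_image_offDiag, Sym2.card_image_offDiag,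
    Finset.card_univ, Fintype.card_fin, Finset.card_compl, Fintype.card_fin] at h3
  have h4 : W.card ≤ n := by
    have := Finset.card_le_univ W
    rwa [Fintype.card_fin] at this
  have h5 := congrArg (Nat.cast (R := ℝ)) h3
  rw [Nat.cast_add, Nat.cast_choose_two, Nat.cast_choose_two, Nat.cast_sub h4] at h5
  linarith

private theorem UTouch_ec {n : ℕ} (ω : Sym2 (Fin n) → Bool) (W : Finset (Fin n)) :
    ec (gr ω) Finset.univ = ec (gr ω) Wᶜ +
      (((univ : Finset (Sym2 (Fin n))).filter (fun e => ¬ e.IsDiag ∧ ∃ x ∈ e, x ∈ W)).filter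
        (fun e => ω e = true)).card := by
  classical
  unfold ec
  rw [← Finset.card_union_of_disjoint]
  · congr 1
    ext e
    induction e using Sym2.inductionOn with
    | hf a b =>
      have hm : s(a, b) ∈ (gr ω).edgeSet ↔ a ≠ b ∧ ω s(a, b) = true := by
        rw [SimpleGraph.mem_edgeSet]
        rfl
      simp only [Finset.mem_union, Finset.mem_filter, Finset.mem_univ, true_and, hm,
        Sym2.mem_iff, Finset.mem_compl, implies_true, and_true, Sym2.mk_isDiag_iff,
        forall_eq_or_imp, forall_eq, exists_eq_or_imp, exists_eq_left]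
      tauto
  · rw [Finset.disjoint_left]
    intro e he he2
    simp only [Finset.mem_filter, Finset.mem_univ, true_and, Finset.mem_compl] at he he2
    obtain ⟨-, h1⟩ := he
    obtain ⟨⟨-, x, hx, hx2⟩, -⟩ := he2
    exact h1 x hx hx2

private theorem UTouch_pow {n : ℕ} (hn : 17 ≤ n) {c : ℝ} (hc0 : 0 ≤ c) (hc1 : c ≤ 1) (N : ℕ) :
    (1 - (17 / (n : ℝ)) * c) ^ N ≤ Real.exp (-(17 / n) * c * N) := by
  have hn' : (17 : ℝ) ≤ n := by exact_mod_cast hn
  have hn0 : (0 : ℝ) < n := by linarith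
  have hp0 : (0 : ℝ) ≤ 17 / n := by positivity
  have hp1 : (17 : ℝ) / n ≤ 1 := by rw [div_le_one hn0]; exact hn'
  have h1 : 1 - (17 / (n : ℝ)) * c ≤ Real.exp (-(17 / n) * c) := by
    have := Real.add_one_le_exp (-(17 / (n : ℝ)) * c)
    linarith
  have h2 : 0 ≤ 1 - (17 / (n : ℝ)) * c := by nlinarith
  have h3 := pow_le_pow_left₀ h2 h1 N
  refine h3.trans (le_of_eq ?_)
  rw [← Real.exp_nat_mul]
  congr 1
  ring

private theorem UTouch_one {n : ℕ} (hn : 17 ≤ n) (W : Finset (Fin n)) (hW : 1 ≤ W.card) :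
    pr (17 / n) (fun ω : Sym2 (Fin n) → Bool =>
      ec (gr ω) Finset.univ ≤ 3 * W.card + ec (gr ω) Wᶜ) ≤
    Real.exp (W.card * (-(51 / 4) * (1 - (W.card + 1) / (2 * n)) + 6 * Real.log 2)) := by
  classical
  have hn' : (17 : ℝ) ≤ n := by exact_mod_cast hn
  have hn0 : (0 : ℝ) < n := by linarith
  have hp0 : (0 : ℝ) ≤ 17 / n := by positivity
  have hp1 : (17 : ℝ) / n ≤ 1 := by rw [div_le_one hn0]; exact hn'
  have h1 := pr_count_le hp0 hp1 ((univ : Finset (Sym2 (Fin n))).filter
    (fun e => ¬ e.IsDiag ∧ ∃ x ∈ e, x ∈ W)) (z := 1 / 4) (by norm_num) (by norm_num) (3 * W.card)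
  have h2 : pr (17 / n) (fun ω : Sym2 (Fin n) → Bool =>
      ec (gr ω) Finset.univ ≤ 3 * W.card + ec (gr ω) Wᶜ) ≤
      pr (17 / n) (fun ω : Sym2 (Fin n) → Bool =>
        (((univ : Finset (Sym2 (Fin n))).filter (fun e => ¬ e.IsDiag ∧ ∃ x ∈ e, x ∈ W)).filter
        (fun e => ω e = true)).card ≤ 3 * W.card) := by
    refine pr_mono hp0 hp1 fun ω hω => ?_
    rw [UTouch_ec ω W] at hω
    omega
  refine h2.trans (h1.trans ?_)
  have h3 := UTouch_pow hn (c := 1 - 1 / 4) (by norm_num) (by norm_num)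
    ((univ : Finset (Sym2 (Fin n))).filter (fun e => ¬ e.IsDiag ∧ ∃ x ∈ e, x ∈ W)).card
  rw [UTouch_card W] at h3
  have h4 : ((1 / 4 : ℝ) ^ (3 * W.card)) = Real.exp (-(6 * Real.log 2 * W.card)) := by
    have e1 : (1 / 4 : ℝ) = Real.exp (-(2 * Real.log 2)) := by
      have e2 : 2 * Real.log 2 = Real.log 4 := by
        rw [show (4 : ℝ) = 2 ^ 2 by norm_num, Real.log_pow]
        push_cast
        ring
      rw [e2, Real.exp_neg, Real.exp_log (by norm_num)]
      norm_num
    rw [e1, ← Real.exp_nat_mul]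
    congr 1
    push_cast
    ring
  rw [h4, div_eq_mul_inv, ← Real.exp_neg]
  refine (mul_le_mul_of_nonneg_right h3 (Real.exp_pos _).le).trans (le_of_eq ?_)
  rw [← Real.exp_add]
  congr 1
  field_simp
  ring

private theorem UTouch_term {n k : ℕ} (hn : 17 ≤ n) (hk : (3 / 2000 : ℝ) * n ≤ k) (hkn : k ≤ n) :
    (n.choose k : ℝ) * Real.exp (k * (-(51 / 4) * (1 - (k + 1) / (2 * n)) + 6 * Real.log 2)) ≤
      Real.exp (51 / 8 - 3 / 2000 * n) := by
  have hn' : (17 : ℝ) ≤ n := by exact_mod_cast hn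
  have hn0 : (0 : ℝ) < n := by linarith
  have hk0 : (0 : ℝ) < k := by nlinarith
  have hk1 : 1 ≤ k := by
    have : 0 < k := by exact_mod_cast hk0
    omega
  have hkn' : (k : ℝ) ≤ n := by exact_mod_cast hkn
  have h1 := USmall_choose n hk1 (le_refl (n : ℝ))
  have h2 : (Real.exp 1 * n / k) ^ k = Real.exp (k * (1 - Real.log (k / n))) := by
    have e1 : Real.exp 1 * n / k = Real.exp (1 - Real.log (k / n)) := by
      rw [Real.exp_sub, Real.exp_log (by positivity)]
      field_simp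
    rw [e1, ← Real.exp_nat_mul]
  rw [h2] at h1
  refine (mul_le_mul_of_nonneg_right h1 (Real.exp_pos _).le).trans ?_
  rw [← Real.exp_add, Real.exp_le_exp]
  have h3 := UTouch_h (w := k / n) (by rw [le_div_iff₀ hn0]; exact hk) (by rw [div_le_one hn0]; exact hkn')
  have h4 : (k : ℝ) * (1 - Real.log (k / n)) +
      k * (-(51 / 4) * (1 - (k + 1) / (2 * n)) + 6 * Real.log 2) =
      k * (1 - Real.log (k / n) - (51 / 4) * (1 - (k / n) / 2) + 6 * Real.log 2) +
        51 / 8 * (k / n) := by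
    field_simp
    ring
  rw [h4]
  have h5 : (k : ℝ) / n ≤ 1 := by rw [div_le_one hn0]; exact hkn'
  have h6 := mul_le_mul_of_nonneg_left h3 hk0.le
  nlinarith

private theorem UTouch_bd {n : ℕ} (hn : 17 ≤ n) :
    pr (17 / n) (fun ω : Sym2 (Fin n) → Bool =>
      ∃ W : Finset (Fin n), (3 / 2000 : ℝ) * n ≤ W.card ∧
        ec (gr ω) Finset.univ ≤ 3 * W.card + ec (gr ω) Wᶜ) ≤
      ((n : ℝ) + 1) * Real.exp (51 / 8 - 3 / 2000 * n) := by
  classical
  have hn' : (17 : ℝ) ≤ n := by exact_mod_cast hn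
  have hn0 : (0 : ℝ) < n := by linarith
  have hp0 : (0 : ℝ) ≤ 17 / n := by positivity
  have hp1 : (17 : ℝ) / n ≤ 1 := by rw [div_le_one hn0]; exact hn'
  have h1 : pr (17 / n) (fun ω : Sym2 (Fin n) → Bool =>
      ∃ W : Finset (Fin n), (3 / 2000 : ℝ) * n ≤ W.card ∧
        ec (gr ω) Finset.univ ≤ 3 * W.card + ec (gr ω) Wᶜ) ≤
      pr (17 / n) (fun ω : Sym2 (Fin n) → Bool =>
      ∃ W ∈ (univ : Finset (Finset (Fin n))), (3 / 2000 : ℝ) * n ≤ W.card ∧
        ec (gr ω) Finset.univ ≤ 3 * W.card + ec (gr ω) Wᶜ) := by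
    refine pr_mono hp0 hp1 fun ω hω => ?_
    obtain ⟨W, hW⟩ := hω
    exact ⟨W, Finset.mem_univ _, hW⟩
  refine h1.trans ((pr_exists_le hp0 hp1 _ _).trans ?_)
  have h2 : ∀ W : Finset (Fin n), pr (17 / n) (fun ω : Sym2 (Fin n) → Bool =>
      (3 / 2000 : ℝ) * n ≤ W.card ∧ ec (gr ω) Finset.univ ≤ 3 * W.card + ec (gr ω) Wᶜ) ≤
      (fun k : ℕ => if (3 / 2000 : ℝ) * n ≤ k then
        Real.exp (k * (-(51 / 4) * (1 - (k + 1) / (2 * n)) + 6 * Real.log 2)) else 0) W.card := by
    intro W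
    by_cases hW : (3 / 2000 : ℝ) * n ≤ W.card
    · simp only [hW, true_and, if_true]
      refine UTouch_one hn W ?_
      have h0 : (0 : ℝ) < W.card := by nlinarith
      have : 0 < W.card := by exact_mod_cast h0
      omega
    · simp only [hW, false_and, if_false]
      rw [pr_false]
  refine (Finset.sum_le_sum fun W _ => h2 W).trans ?_
  have h4 := Finset.sum_powerset_apply_card (fun k : ℕ => if (3 / 2000 : ℝ) * n ≤ k then
        Real.exp (k * (-(51 / 4) * (1 - (k + 1) / (2 * n)) + 6 * Real.log 2)) else 0)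
       (x := (univ : Finset (Fin n)))
  rw [Finset.powerset_univ] at h4
  rw [h4, Finset.card_univ, Fintype.card_fin]
  have h5 : ∀ k ∈ range (n + 1), n.choose k • (if (3 / 2000 : ℝ) * n ≤ k then
        Real.exp (k * (-(51 / 4) * (1 - (k + 1) / (2 * n)) + 6 * Real.log 2)) else 0) ≤
      Real.exp (51 / 8 - 3 / 2000 * n) := by
    intro k hk
    rw [nsmul_eq_mul]
    split_ifs with h
    · exact UTouch_term hn h (by have := Finset.mem_range.1 hk; omega)
    · rw [mul_zero]
      exact (Real.exp_pos _).le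
  refine (Finset.sum_le_sum h5).trans (le_of_eq ?_)
  rw [Finset.sum_const, Finset.card_range, nsmul_eq_mul]
  push_cast
  ring

private theorem UTouch_lim {c : ℝ} (hc : 0 < c) (K : ℝ) :
    Filter.Tendsto (fun n : ℕ => ((n : ℝ) + 1) * Real.exp (K - c * n)) Filter.atTop (nhds 0) := by
  have h1 : Filter.Tendsto (fun x : ℝ => x ^ 1 * Real.exp (-(c * x))) Filter.atTop (nhds 0) := by
    have h2 := Real.tendsto_pow_mul_exp_neg_atTop_nhds_zero 1
    have h3 : Filter.Tendsto (fun x : ℝ => c * x) Filter.atTop Filter.atTop :=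
      Filter.Tendsto.const_mul_atTop hc Filter.tendsto_id
    have h4 := (h2.comp h3).const_mul (1 / c)
    rw [mul_zero] at h4
    refine h4.congr fun x => ?_
    simp only [Function.comp]
    field_simp
  have h2 : Filter.Tendsto (fun x : ℝ => Real.exp (-(c * x))) Filter.atTop (nhds 0) := by
    have h3 : Filter.Tendsto (fun x : ℝ => c * x) Filter.atTop Filter.atTop :=
      Filter.Tendsto.const_mul_atTop hc Filter.tendsto_id
    exact Real.tendsto_exp_neg_atTop_nhds_zero.comp h3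
  have h3 := ((h1.add h2).const_mul (Real.exp K)).comp (tendsto_natCast_atTop_atTop (R := ℝ))
  rw [add_zero, mul_zero] at h3
  refine h3.congr fun n => ?_
  simp only [Function.comp]
  rw [show K - c * (n : ℝ) = K + -(c * n) by ring, Real.exp_add]
  ring

theorem touch_tendsto :
    Filter.Tendsto (fun n : ℕ => pr (17 / n) (fun ω : Sym2 (Fin n) → Bool =>
      ∃ W : Finset (Fin n), (3 / 2000 : ℝ) * n ≤ W.card ∧
        ec (gr ω) Finset.univ ≤ 3 * W.card + ec (gr ω) Wᶜ)) Filter.atTop (nhds 0) := by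
  refine squeeze_zero' ?_ ?_ (UTouch_lim (show (0 : ℝ) < 3 / 2000 by norm_num) (51 / 8))
  · filter_upwards [Filter.eventually_ge_atTop 17] with n hn
    have hn' : (17 : ℝ) ≤ n := by exact_mod_cast hn
    have hn0 : (0 : ℝ) < n := by linarith
    exact pr_nonneg (by positivity) (by rw [div_le_one hn0]; exact hn') _
  · filter_upwards [Filter.eventually_ge_atTop 17] with n hn
    exact UTouch_bd hn

private theorem UTouch_edges {n : ℕ} (hn : 17 ≤ n) :
    pr (17 / n) (fun ω : Sym2 (Fin n) → Bool =>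
      (ec (gr ω) Finset.univ : ℝ) < 81 / 10 * n) ≤ Real.exp (17 / 40 - 38 / 10000 * n) := by
  classical
  have hn' : (17 : ℝ) ≤ n := by exact_mod_cast hn
  have hn0 : (0 : ℝ) < n := by linarith
  have hp0 : (0 : ℝ) ≤ 17 / n := by positivity
  have hp1 : (17 : ℝ) / n ≤ 1 := by rw [div_le_one hn0]; exact hn'
  have h1 := pr_count_le hp0 hp1 ((univ : Finset (Sym2 (Fin n))).filter
    (fun e => ¬ e.IsDiag ∧ ∃ x ∈ e, x ∈ (univ : Finset (Fin n)))) (z := 19 / 20) (by norm_num)
    (by norm_num) ⌊(81 / 10 : ℝ) * n⌋₊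
  have h2 : pr (17 / n) (fun ω : Sym2 (Fin n) → Bool =>
      (ec (gr ω) Finset.univ : ℝ) < 81 / 10 * n) ≤
      pr (17 / n) (fun ω : Sym2 (Fin n) → Bool =>
        (((univ : Finset (Sym2 (Fin n))).filter (fun e => ¬ e.IsDiag ∧ ∃ x ∈ e, x ∈ (univ : Finset (Fin n)))).filter
        (fun e => ω e = true)).card ≤ ⌊(81 / 10 : ℝ) * n⌋₊) := by
    refine pr_mono hp0 hp1 fun ω hω => ?_
    refine Nat.le_floor ?_
    refine le_trans ?_ hω.le
    have := UTouch_ec ω univ
    exact_mod_cast (by omega : _ ≤ ec (gr ω) Finset.univ)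
  refine h2.trans (h1.trans ?_)
  have h3 := UTouch_pow hn (c := 1 - 19 / 20) (by norm_num) (by norm_num)
    ((univ : Finset (Sym2 (Fin n))).filter (fun e => ¬ e.IsDiag ∧ ∃ x ∈ e, x ∈ (univ : Finset (Fin n)))).card
  rw [UTouch_card univ, Finset.card_univ, Fintype.card_fin] at h3
  have h5 : (20 / 19 : ℝ) ≤ Real.exp 0.052 := by
    have := Real.quadratic_le_exp_of_nonneg (show (0 : ℝ) ≤ 0.052 by norm_num)
    refine le_trans ?_ this
    norm_num
  have h6 : (((19 / 20 : ℝ) ^ ⌊(81 / 10 : ℝ) * n⌋₊))⁻¹ ≤ Real.exp (0.052 * (81 / 10 * n)) := by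
    rw [← inv_pow]
    have e1 : ((19 / 20 : ℝ))⁻¹ = 20 / 19 := by norm_num
    rw [e1]
    refine (pow_le_pow_left₀ (by norm_num) h5 _).trans ?_
    rw [← Real.exp_nat_mul, Real.exp_le_exp]
    have h7 : ((⌊(81 / 10 : ℝ) * n⌋₊ : ℕ) : ℝ) ≤ 81 / 10 * n := Nat.floor_le (by positivity)
    nlinarith
  rw [div_eq_mul_inv]
  refine (mul_le_mul h3 h6 (by positivity) (Real.exp_pos _).le).trans ?_
  rw [← Real.exp_add, Real.exp_le_exp]
  have h8 : -(17 / (n : ℝ)) * (1 - 19 / 20) * (n * (n - (n + 1) / 2)) = 17 / 40 - 17 / 40 * n := by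
    field_simp
    ring
  rw [h8]
  nlinarith

theorem edges_tendsto :
    Filter.Tendsto (fun n : ℕ => pr (17 / n) (fun ω : Sym2 (Fin n) → Bool =>
      (ec (gr ω) Finset.univ : ℝ) < 81 / 10 * n)) Filter.atTop (nhds 0) := by
  refine squeeze_zero' ?_ ?_ (UTouch_lim (show (0 : ℝ) < 38 / 10000 by norm_num) (17 / 40))
  · filter_upwards [Filter.eventually_ge_atTop 17] with n hn
    have hn' : (17 : ℝ) ≤ n := by exact_mod_cast hn
    have hn0 : (0 : ℝ) < n := by linarith
    exact pr_nonneg (by positivity) (by rw [div_le_one hn0]; exact hn') _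
  · filter_upwards [Filter.eventually_ge_atTop 17] with n hn
    refine (UTouch_edges hn).trans ?_
    have hn' : (17 : ℝ) ≤ n := by exact_mod_cast hn
    have := (Real.exp_pos (17 / 40 - 38 / 10000 * (n : ℝ))).le
    nlinarith

end Pool.Agent.GRig
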