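import Pool.Agent.GRig.UDet
import Pool.Agent.GRig.USmall
import Pool.Agent.GRig.UTouch
import Pool.Agent.GRig.UPair
import Pool.Agent.GRig.Conv

/-!
PROOF. By `hasRigid_of`, `HasRigid n (9/10) (gr ω)` fails only if one of the five events
(`touch_tendsto`, `small_tendsto` with `j = 2`, `ε = 27/10000`: `exp 3 * (17/4)^2 * 0.0027 = 0.97955`,
`small_tendsto` with `j = 4`, `ε = 68/1000`: `exp 5 * (17/8)^4 * 0.068^3 = 0.95156`, `pair_tendsto`,
`edges_tendsto`) occurs. So the probability of `HasRigid n (9/10)` tends to `1` (`pr_not`,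
`pr_or_le`, `prob_eq`).
-/

namespace Pool.Agent.GRig

open Finset

private theorem UMain_exp3 : Real.exp 3 < 20.09 := by
  have h : Real.exp 3 = Real.exp 1 ^ 3 := by
    rw [← Real.exp_nat_mul]
    norm_num
  rw [h]
  have h1 := Real.exp_one_lt_d9
  calc Real.exp 1 ^ 3 < 2.7182818286 ^ 3 := pow_lt_pow_left₀ h1 (Real.exp_pos 1).le (by norm_num)
    _ < 20.09 := by norm_num

private theorem UMain_exp5 : Real.exp 5 < 148.5 := by
  have h : Real.exp 5 = Real.exp 1 ^ 5 := by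
    rw [← Real.exp_nat_mul]
    norm_num
  rw [h]
  have h1 := Real.exp_one_lt_d9
  calc Real.exp 1 ^ 5 < 2.7182818286 ^ 5 := pow_lt_pow_left₀ h1 (Real.exp_pos 1).le (by norm_num)
    _ < 148.5 := by norm_num

theorem tendsto_one :
    Filter.Tendsto (fun n : ℕ => prob n (17 / n) (HasRigid n (9 / 10))) Filter.atTop (nhds 1) := by
  have t1 := touch_tendsto
  have t2 := small_tendsto (C := 17) (by norm_num) (j := 2) le_rfl (ε := 27 / 10000) (by norm_num)
    (by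
      have h := UMain_exp3
      have e : Real.exp (((2 : ℕ) : ℝ) + 1) = Real.exp 3 := by norm_num
      rw [e]
      norm_num
      norm_num at h
      linarith)
  have t3 := small_tendsto (C := 17) (by norm_num) (j := 4) (by norm_num) (ε := 68 / 1000)
    (by norm_num)
    (by
      have h := UMain_exp5
      have e : Real.exp (((4 : ℕ) : ℝ) + 1) = Real.exp 5 := by norm_num
      rw [e]
      norm_num
      norm_num at h
      linarith)
  have t4 := pair_tendsto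
  have t5 := edges_tendsto
  have hs := ((((t1.add t2).add t3).add t4).add t5).const_sub 1
  rw [add_zero, add_zero, add_zero, add_zero, sub_zero] at hs
  have hp : ∀ n : ℕ, 17 ≤ n → (0 : ℝ) ≤ 17 / n ∧ (17 : ℝ) / n ≤ 1 := by
    intro n hn
    have hn' : (17 : ℝ) ≤ n := by exact_mod_cast hn
    have hpos : (0 : ℝ) < n := by linarith
    exact ⟨by positivity, (div_le_one hpos).2 hn'⟩
  refine tendsto_of_tendsto_of_tendsto_of_le_of_le' hs tendsto_const_nhds ?_ ?_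
  · filter_upwards [Filter.eventually_ge_atTop 17] with n hn
    obtain ⟨h0, h1⟩ := hp n hn
    rw [prob_eq]
    have hnot := pr_not (ι := Sym2 (Fin n)) ((17 : ℝ) / n) (fun ω => HasRigid n (9 / 10) (gr ω))
    have hle : pr (17 / n) (fun ω : Sym2 (Fin n) → Bool => ¬ HasRigid n (9 / 10) (gr ω)) ≤
        pr (17 / n) (fun ω : Sym2 (Fin n) → Bool =>
          (((((∃ W : Finset (Fin n), (3 / 2000 : ℝ) * n ≤ W.card ∧
            ec (gr ω) Finset.univ ≤ 3 * W.card + ec (gr ω) Wᶜ) ∨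
          (∃ X : Finset (Fin n), X.Nonempty ∧ (X.card : ℝ) ≤ 27 / 10000 * n ∧
            2 * X.card ≤ ec (gr ω) X)) ∨
          (∃ X : Finset (Fin n), X.Nonempty ∧ (X.card : ℝ) ≤ 68 / 1000 * n ∧
            4 * X.card ≤ ec (gr ω) X)) ∨
          (∃ R B : Finset (Fin n), Disjoint R B ∧ (68 / 1000 : ℝ) * n < R.card ∧
            (27 / 10000 : ℝ) * n < B.card ∧ (1 - 3 / 2000 : ℝ) * n < R.card + B.card ∧
            ∀ y ∈ B, ∀ x₁ ∈ R, ∀ x₂ ∈ R, (gr ω).Adj y x₁ → (gr ω).Adj y x₂ → x₁ = x₂)) ∨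
          ((ec (gr ω) Finset.univ : ℝ) < 81 / 10 * n))) := by
      refine pr_mono h0 h1 fun ω hω => ?_
      by_contra hc
      push Not at hc
      obtain ⟨⟨⟨⟨c1, c2⟩, c3⟩, c4⟩, c5⟩ := hc
      refine hω (hasRigid_of (by omega) (gr ω) c1 c2 c3 ?_ c5)
      intro R B hRB hR hB hRB2
      obtain ⟨y, hy, x₁, hx₁, x₂, hx₂, ha1, ha2, hne⟩ := c4 R B hRB hR hB hRB2
      exact ⟨y, hy, x₁, hx₁, x₂, hx₂, hne, ha1, ha2⟩
    have o1 := pr_or_le h0 h1 (ι := Sym2 (Fin n)) (fun ω =>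
          ((((∃ W : Finset (Fin n), (3 / 2000 : ℝ) * n ≤ W.card ∧
            ec (gr ω) Finset.univ ≤ 3 * W.card + ec (gr ω) Wᶜ) ∨
          (∃ X : Finset (Fin n), X.Nonempty ∧ (X.card : ℝ) ≤ 27 / 10000 * n ∧
            2 * X.card ≤ ec (gr ω) X)) ∨
          (∃ X : Finset (Fin n), X.Nonempty ∧ (X.card : ℝ) ≤ 68 / 1000 * n ∧
            4 * X.card ≤ ec (gr ω) X)) ∨
          (∃ R B : Finset (Fin n), Disjoint R B ∧ (68 / 1000 : ℝ) * n < R.card ∧
            (27 / 10000 : ℝ) * n < B.card ∧ (1 - 3 / 2000 : ℝ) * n < R.card + B.card ∧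
            ∀ y ∈ B, ∀ x₁ ∈ R, ∀ x₂ ∈ R, (gr ω).Adj y x₁ → (gr ω).Adj y x₂ → x₁ = x₂)))
          (fun ω => (ec (gr ω) Finset.univ : ℝ) < 81 / 10 * n)
    have o2 := pr_or_le h0 h1 (ι := Sym2 (Fin n)) (fun ω =>
          (((∃ W : Finset (Fin n), (3 / 2000 : ℝ) * n ≤ W.card ∧
            ec (gr ω) Finset.univ ≤ 3 * W.card + ec (gr ω) Wᶜ) ∨
          (∃ X : Finset (Fin n), X.Nonempty ∧ (X.card : ℝ) ≤ 27 / 10000 * n ∧
            2 * X.card ≤ ec (gr ω) X)) ∨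
          (∃ X : Finset (Fin n), X.Nonempty ∧ (X.card : ℝ) ≤ 68 / 1000 * n ∧
            4 * X.card ≤ ec (gr ω) X)))
          (fun ω => ∃ R B : Finset (Fin n), Disjoint R B ∧ (68 / 1000 : ℝ) * n < R.card ∧
            (27 / 10000 : ℝ) * n < B.card ∧ (1 - 3 / 2000 : ℝ) * n < R.card + B.card ∧
            ∀ y ∈ B, ∀ x₁ ∈ R, ∀ x₂ ∈ R, (gr ω).Adj y x₁ → (gr ω).Adj y x₂ → x₁ = x₂)
    have o3 := pr_or_le h0 h1 (ι := Sym2 (Fin n)) (fun ω =>
          ((∃ W : Finset (Fin n), (3 / 2000 : ℝ) * n ≤ W.card ∧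
            ec (gr ω) Finset.univ ≤ 3 * W.card + ec (gr ω) Wᶜ) ∨
          (∃ X : Finset (Fin n), X.Nonempty ∧ (X.card : ℝ) ≤ 27 / 10000 * n ∧
            2 * X.card ≤ ec (gr ω) X)))
          (fun ω => ∃ X : Finset (Fin n), X.Nonempty ∧ (X.card : ℝ) ≤ 68 / 1000 * n ∧
            4 * X.card ≤ ec (gr ω) X)
    have o4 := pr_or_le h0 h1 (ι := Sym2 (Fin n)) (fun ω =>
          ∃ W : Finset (Fin n), (3 / 2000 : ℝ) * n ≤ W.card ∧
            ec (gr ω) Finset.univ ≤ 3 * W.card + ec (gr ω) Wᶜ)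
          (fun ω => ∃ X : Finset (Fin n), X.Nonempty ∧ (X.card : ℝ) ≤ 27 / 10000 * n ∧
            2 * X.card ≤ ec (gr ω) X)
    linarith
  · filter_upwards [Filter.eventually_ge_atTop 17] with n hn
    obtain ⟨h0, h1⟩ := hp n hn
    rw [prob_eq]
    exact pr_le_one h0 h1 _

theorem Cstar_le : Cstar ≤ 17 := by
  have h : Good 17 := ⟨9 / 10, by norm_num, tendsto_one⟩
  have h2 : Cstar ≤ ENNReal.ofReal 17 := sInf_le ⟨17, by norm_num, h, rfl⟩
  rwa [show ENNReal.ofReal 17 = 17 by norm_num] at h2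

end Pool.Agent.GRig
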